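import Mathlib

namespace Pool.Agent.P.MP_de9ecd_al

/-- First position of the block of the odd prime `p`: the blocks of the odd primes
`3, 5, 7, ...` have sizes `p + 1` and are laid out one after the other from position `0`. -/
def start (p : ℕ) : ℕ := ∑ q ∈ (Finset.range p).filter (fun q => q.Prime ∧ 2 < q), (q + 1)

/-- The map `z ↦ 1 / z` on the projective line over `ZMod p`, whose points are written
`0, ..., p - 1` and `p` for the point at infinity. -/
def inv (p j : ℕ) : ℕ := if j = 0 then p else if j = p then 0 else ((j : ZMod p)⁻¹).val

/-- The map `z ↦ z + 8` on the projective line over `ZMod p`. -/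
def tr (p j : ℕ) : ℕ := if j = p then p else (j + 8) % p

/-- The odd prime whose block contains `x` and lies below `n - 2`, or `0` if there is none. -/
def blk (n x : ℕ) : ℕ :=
  Nat.findGreatest
    (fun p => p.Prime ∧ 2 < p ∧ start p ≤ x ∧ x ≤ start p + p ∧ start p + p + 3 ≤ n) n

/-- The second generator: it swaps `n - 2` and `n - 1`, acts as `z ↦ z / (8 z + 1)` on every
block lying below `n - 2`, and fixes all other points. -/
def gen (n x : ℕ) : ℕ :=
  if x + 2 = n then x + 1 else if x + 1 = n then x - 1 else if blk n x = 0 then x else
    start (blk n x) + inv (blk n x) (tr (blk n x) (inv (blk n x) (x - start (blk n x))))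

end Pool.Agent.P.MP_de9ecd_al
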