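import Mathlib

/-! Reduced words, ping-pong and good points on the projective line. -/

set_option autoImplicit false

namespace Pool.Agent.P.MP_de9ecd_al

/-- a letter: generator and sign -/
abbrev Letter := Bool × Bool

def NotInv (x y : Letter) : Prop := ¬ (x.1 = y.1 ∧ x.2 ≠ y.2)

def lval {G : Type*} [Group G] (a b : G) : Letter → G
  | (true, true) => a
  | (true, false) => a⁻¹
  | (false, true) => b
  | (false, false) => b⁻¹

def ev {G : Type*} [Group G] (a b : G) (w : List Letter) : G := (w.map (lval a b)).prod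

lemma lval_mul {G : Type*} [Group G] (a b : G) {x y : Letter} (h : ¬ NotInv x y) :
    lval a b x * lval a b y = 1 := by
  obtain ⟨x1, x2⟩ := x
  obtain ⟨y1, y2⟩ := y
  cases x1 <;> cases x2 <;> cases y1 <;> cases y2 <;> simp [NotInv, lval] at h ⊢

lemma exists_word {G : Type*} [Group G] (a b : G) {u v : G}
    (p : (SimpleGraph.mulCayley ({a, b} : Set G)).Walk u v) (hp : p.IsTrail) :
    ∃ w : List Letter, w.length = p.length ∧ u * ev a b w = v ∧ w.IsChain NotInv ∧
      ∀ x ∈ w.head?, s(u, u * lval a b x) ∈ p.edges := by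
  induction p with
  | nil => exact ⟨[], rfl, by simp [ev], List.isChain_nil, by simp⟩
  | @cons u u' v h p ih =>
    rw [SimpleGraph.Walk.isTrail_cons] at hp
    obtain ⟨w, h1, h2, h3, h4⟩ := ih hp.1
    have : ∃ x, u * lval a b x = u' := by
      obtain ⟨-, g, hg, h5⟩ := (SimpleGraph.mulCayley_adj' _ _ _).1 h
      rcases hg with rfl | rfl <;> rcases h5 with h5 | h5
      · exact ⟨(true, true), h5⟩
      · exact ⟨(true, false), by simp [lval, h5]⟩
      · exact ⟨(false, true), h5⟩
      · exact ⟨(false, false), by simp [lval, h5]⟩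
    obtain ⟨x, hx⟩ := this
    refine ⟨x :: w, by simp [h1], ?_, ?_, ?_⟩
    · rw [← h2, ← hx]; simp [ev, mul_assoc]
    · rw [List.isChain_cons]
      refine ⟨fun y hy => ?_, h3⟩
      by_contra hn
      have h6 := h4 y hy
      have e : u' * lval a b y = u := by rw [← hx, mul_assoc, lval_mul a b hn, mul_one]
      rw [e, Sym2.eq_swap] at h6
      exact hp.2 h6
    · intro y hy
      simp only [List.head?_cons, Option.mem_def, Option.some.injEq] at hy
      subst hy
      simp [hx]

/-- action of a letter on column vectors -/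
def step {R : Type*} [CommRing R] : Letter → R × R → R × R
  | (true, true), v => (v.1 + v.2, v.2)
  | (true, false), v => (v.1 - v.2, v.2)
  | (false, true), v => (v.1, v.2 + 8 * v.1)
  | (false, false), v => (v.1, v.2 - 8 * v.1)

def vec {R : Type*} [CommRing R] : List Letter → R × R → R × R
  | [], v => v
  | x :: w, v => step x (vec w v)

def Reg : Letter → ℤ × ℤ → Prop
  | (true, true), v => (0 < v.2 ∧ v.2 < 2 * v.1) ∨ (v.2 < 0 ∧ 2 * v.1 < v.2)
  | (true, false), v => (0 < v.2 ∧ 2 * v.1 < -v.2) ∨ (v.2 < 0 ∧ -v.2 < 2 * v.1)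
  | (false, true), v => (0 < v.1 ∧ 3 * v.1 < v.2) ∨ (v.1 < 0 ∧ v.2 < 3 * v.1)
  | (false, false), v => (v.1 < 0 ∧ -3 * v.1 < v.2) ∨ (0 < v.1 ∧ v.2 < -3 * v.1)

lemma pingpong (x : Letter) (w : List Letter) (h : (x :: w).IsChain NotInv) :
    Reg x (vec (x :: w) (2, 5)) := by
  induction w generalizing x with
  | nil =>
    obtain ⟨x1, x2⟩ := x
    cases x1 <;> cases x2 <;> simp [Reg, vec, step]
  | cons y w ih =>
    rw [List.isChain_cons_cons] at h
    have h1 := ih y h.2
    have h2 := h.1
    change Reg x (step x (vec (y :: w) (2, 5)))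
    generalize vec (y :: w) ((2, 5) : ℤ × ℤ) = v at h1
    obtain ⟨x1, x2⟩ := x
    obtain ⟨y1, y2⟩ := y
    cases x1 <;> cases x2 <;> cases y1 <;> cases y2 <;>
      simp only [NotInv, Reg, step] at h1 h2 ⊢ <;> first | omega | simp at h2

lemma vec_bound (w : List Letter) :
    |(vec w ((2, 5) : ℤ × ℤ)).1| ≤ 5 * 9 ^ w.length ∧
      |(vec w ((2, 5) : ℤ × ℤ)).2| ≤ 5 * 9 ^ w.length := by
  induction w with
  | nil => simp [vec]
  | cons x w ih =>
    change |(step x (vec w (2, 5))).1| ≤ _ ∧ |(step x (vec w (2, 5))).2| ≤ _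
    generalize vec w ((2, 5) : ℤ × ℤ) = v at ih
    rw [List.length_cons, pow_succ]
    generalize (9 : ℤ) ^ w.length = T at ih
    rw [abs_le, abs_le] at ih ⊢
    obtain ⟨x1, x2⟩ := x
    cases x1 <;> cases x2 <;> simp only [step] <;> omega

/-- the integer witnessing that the matrix of `w` is not scalar -/
def wit (w : List Letter) : ℤ := 5 * (vec w ((2, 5) : ℤ × ℤ)).1 - 2 * (vec w ((2, 5) : ℤ × ℤ)).2

lemma wit_ne {w : List Letter} (h0 : w ≠ []) (h : w.IsChain NotInv) : wit w ≠ 0 := by
  obtain ⟨x, w, rfl⟩ := List.exists_cons_of_ne_nil h0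
  have := pingpong x w h
  unfold wit
  generalize vec (x :: w) ((2, 5) : ℤ × ℤ) = v at this
  obtain ⟨x1, x2⟩ := x
  cases x1 <;> cases x2 <;> simp only [Reg] at this <;> omega

lemma wit_bound (w : List Letter) : |wit w| ≤ 35 * 9 ^ w.length := by
  have := vec_bound w
  unfold wit
  rw [abs_le, abs_le] at this
  rw [abs_le]
  omega

lemma vec_map {R S : Type*} [CommRing R] [CommRing S] (f : R →+* S) (w : List Letter)
    (v : R × R) : vec w (f v.1, f v.2) = (f (vec w v).1, f (vec w v).2) := by
  induction w with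
  | nil => rfl
  | cons x w ih =>
    simp only [vec, ih]
    obtain ⟨x1, x2⟩ := x
    cases x1 <;> cases x2 <;> simp [step, map_ofNat]

lemma vec_matrix {R : Type*} [CommRing R] (w : List Letter) :
    ∃ α β γ δ : R, α * δ - β * γ = 1 ∧ ∀ s t, vec w (s, t) = (α * s + β * t, γ * s + δ * t) := by
  induction w with
  | nil => exact ⟨1, 0, 0, 1, by simp, fun s t => by simp [vec]⟩
  | cons x w ih =>
    obtain ⟨α, β, γ, δ, h, h'⟩ := ih
    obtain ⟨x1, x2⟩ := x
    cases x1 <;> cases x2
    · exact ⟨α, β, γ - 8 * α, δ - 8 * β, by linear_combination h, fun s t => by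
        simp only [vec, step, h']; congr 1; ring⟩
    · exact ⟨α, β, γ + 8 * α, δ + 8 * β, by linear_combination h, fun s t => by
        simp only [vec, step, h']; congr 1; ring⟩
    · exact ⟨α - γ, β - δ, γ, δ, by linear_combination h, fun s t => by
        simp only [vec, step, h']; congr 1; ring⟩
    · exact ⟨α + γ, β + δ, γ, δ, by linear_combination h, fun s t => by
        simp only [vec, step, h']; congr 1; ring⟩

/-- the vector avoids the three special points -/
def Ok {R : Type*} [CommRing R] (v : R × R) : Prop := v.1 ≠ 0 ∧ v.2 ≠ 0 ∧ v.1 + v.2 ≠ 0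

def Good {R : Type*} [CommRing R] : List Letter → R → Prop
  | [], z => Ok (z, 1)
  | x :: w, z => Good w z ∧ Ok (vec (x :: w) (z, 1))

open Classical in
lemma card_lin {F : Type*} [Field F] [Fintype F] (c d : F) (h : ¬ (c = 0 ∧ d = 0)) :
    (Finset.univ.filter (fun z : F => c * z + d = 0)).card ≤ 1 := by
  rw [Finset.card_le_one]
  intro z hz z' hz'
  simp only [Finset.mem_filter, Finset.mem_univ, true_and] at hz hz'
  by_contra hne
  have h1 : c * (z - z') = 0 := by linear_combination hz - hz'
  have h2 : c = 0 := (mul_eq_zero.1 h1).resolve_right (sub_ne_zero.2 hne)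
  exact h ⟨h2, by rw [h2] at hz; simpa using hz⟩

open Classical in
lemma card_not_ok {F : Type*} [Field F] [Fintype F] (w : List Letter) :
    (Finset.univ.filter (fun z : F => ¬ Ok (vec w (z, 1)))).card ≤ 3 := by
  obtain ⟨α, β, γ, δ, h, h'⟩ := vec_matrix (R := F) w
  have h1 := card_lin α β (by rintro ⟨rfl, rfl⟩; simp at h)
  have h2 := card_lin γ δ (by rintro ⟨rfl, rfl⟩; simp at h)
  have h3 := card_lin (α + γ) (β + δ) (by
    rintro ⟨e1, e2⟩
    have : (1 : F) = 0 := by linear_combination -h + δ * e1 - γ * e2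
    exact one_ne_zero this)
  refine le_trans (Finset.card_le_card (t := (Finset.univ.filter (fun z : F => α * z + β = 0) ∪
    Finset.univ.filter (fun z : F => γ * z + δ = 0)) ∪
    Finset.univ.filter (fun z : F => (α + γ) * z + (β + δ) = 0)) ?_) ?_
  · intro z hz
    simp only [Finset.mem_filter, Finset.mem_univ, true_and, Finset.mem_union, h', Ok,
      mul_one] at hz ⊢
    by_contra hc
    push Not at hc
    exact hz ⟨hc.1.1, hc.1.2, fun e => hc.2 (by linear_combination e)⟩
  · have := Finset.card_union_le (Finset.univ.filter (fun z : F => α * z + β = 0) ∪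
      Finset.univ.filter (fun z : F => γ * z + δ = 0))
      (Finset.univ.filter (fun z : F => (α + γ) * z + (β + δ) = 0))
    have := Finset.card_union_le (Finset.univ.filter (fun z : F => α * z + β = 0))
      (Finset.univ.filter (fun z : F => γ * z + δ = 0))
    omega

open Classical in
lemma card_not_good {F : Type*} [Field F] [Fintype F] (w : List Letter) :
    (Finset.univ.filter (fun z : F => ¬ Good w z)).card ≤ 3 * (w.length + 1) := by
  induction w with
  | nil => exact card_not_ok (F := F) []
  | cons x w ih =>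
    have h1 := card_not_ok (F := F) (x :: w)
    refine le_trans (Finset.card_le_card (t := Finset.univ.filter (fun z : F => ¬ Good w z) ∪
      Finset.univ.filter (fun z : F => ¬ Ok (vec (x :: w) (z, 1)))) ?_) ?_
    · intro z hz
      simp only [Finset.mem_filter, Finset.mem_univ, true_and, Finset.mem_union, Good] at hz ⊢
      tauto
    · have := Finset.card_union_le (Finset.univ.filter (fun z : F => ¬ Good w z))
        (Finset.univ.filter (fun z : F => ¬ Ok (vec (x :: w) (z, 1))))
      simp only [List.length_cons]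
      omega

open Classical in
lemma exists_good {F : Type*} [Field F] [Fintype F] (w : List Letter) (hw : (wit w : F) ≠ 0)
    (hc : 3 * w.length + 5 < Fintype.card F) :
    ∃ z : F, Good w z ∧ (vec w (z, 1)).1 ≠ z * (vec w (z, 1)).2 := by
  obtain ⟨α, β, γ, δ, h, h'⟩ := vec_matrix (R := F) w
  have h1 : (Finset.univ.filter (fun z : F => (vec w (z, 1)).1 = z * (vec w (z, 1)).2)).card
      ≤ 2 := by
    by_contra hlt
    obtain ⟨x, y, z, hx, hy, hz, n1, n2, n3⟩ := Finset.two_lt_card_iff.1 (not_le.1 hlt)
    simp only [Finset.mem_filter, Finset.mem_univ, true_and, h', mul_one] at hx hy hz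
    have e1 : (x - y) * (α - δ - γ * (x + y)) = 0 := by linear_combination hx - hy
    have e2 : (x - z) * (α - δ - γ * (x + z)) = 0 := by linear_combination hx - hz
    have e3 := (mul_eq_zero.1 e1).resolve_left (sub_ne_zero.2 n1)
    have e4 := (mul_eq_zero.1 e2).resolve_left (sub_ne_zero.2 n2)
    have e5 : (y - z) * γ = 0 := by linear_combination e4 - e3
    have e6 := (mul_eq_zero.1 e5).resolve_left (sub_ne_zero.2 n3)
    have e7 : α = δ := by rw [e6] at e3; linear_combination e3
    have e8 : β = 0 := by rw [e6, e7] at hx; linear_combination hx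
    apply hw
    have e9 := vec_map (Int.castRingHom F) w (2, 5)
    simp only [eq_intCast, Int.cast_ofNat, h', Prod.mk.injEq] at e9
    unfold wit
    push_cast
    rw [← e9.1, ← e9.2, e6, e7, e8]; ring
  have h2 := card_not_good (F := F) w
  by_contra hno
  have : (Finset.univ : Finset F) ⊆ Finset.univ.filter (fun z : F => ¬ Good w z) ∪
      Finset.univ.filter (fun z : F => (vec w (z, 1)).1 = z * (vec w (z, 1)).2) := by
    intro z _
    simp only [Finset.mem_filter, Finset.mem_univ, true_and, Finset.mem_union]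
    by_contra hz
    push Not at hz
    exact hno ⟨z, hz.1, hz.2⟩
  have h3 := (Finset.card_le_card this).trans (Finset.card_union_le _ _)
  rw [Finset.card_univ] at h3
  omega

end Pool.Agent.P.MP_de9ecd_al
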