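import Mathlib
import Pool.Agent.P.MP_de9ecd_al.Defs
import Pool.Agent.P.MP_de9ecd_al.Words

/-! The second generator is a permutation with an odd power equal to a transposition, and it
acts on the blocks as a fractional linear map. -/

set_option autoImplicit false

namespace Pool.Agent.P.MP_de9ecd_al

lemma start_succ {q : ℕ} (hq : q.Prime) (h2 : 2 < q) : start (q + 1) = start q + (q + 1) := by
  unfold start
  rw [Finset.range_add_one, Finset.filter_insert, if_pos ⟨hq, h2⟩, Finset.sum_insert (by simp),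
    add_comm]

lemma start_mono {p q : ℕ} (h : p ≤ q) : start p ≤ start q :=
  Finset.sum_le_sum_of_subset (Finset.filter_subset_filter _ (Finset.range_mono h))

lemma start_lt {p q : ℕ} (hq : q.Prime) (h2 : 2 < q) (h : q < p) : start q + (q + 1) ≤ start p := by
  rw [← start_succ hq h2]; exact start_mono h

/-- the block of `p` fits -/
def Fit (n p : ℕ) : Prop := p.Prime ∧ 2 < p ∧ start p + p + 3 ≤ n

lemma blk_eq {n p j : ℕ} (h : Fit n p) (hj : j ≤ p) : blk n (start p + j) = p := by
  obtain ⟨h1, h2, h3⟩ := h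
  unfold blk
  rw [Nat.findGreatest_eq_iff]
  refine ⟨by omega, fun _ => ⟨h1, h2, by omega, by omega, h3⟩, ?_⟩
  rintro q hq - ⟨-, -, h6, -, -⟩
  have := start_lt h1 h2 hq
  omega

lemma blk_cases (n x : ℕ) : blk n x = 0 ∨ ∃ p j, Fit n p ∧ j ≤ p ∧ x = start p + j := by
  by_cases h : blk n x = 0
  · exact Or.inl h
  · right
    have := Nat.findGreatest_of_ne_zero (P := fun p => p.Prime ∧ 2 < p ∧ start p ≤ x ∧
      x ≤ start p + p ∧ start p + p + 3 ≤ n) (n := n) (m := blk n x) rfl h
    obtain ⟨h1, h2, h3, h4, h5⟩ := this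
    exact ⟨blk n x, x - start (blk n x), ⟨h1, h2, h5⟩, by omega, by omega⟩

lemma inv_le {p : ℕ} (hp : p.Prime) (j : ℕ) : inv p j ≤ p := by
  have : NeZero p := ⟨hp.ne_zero⟩
  unfold inv
  split_ifs
  · exact le_rfl
  · exact Nat.zero_le _
  · exact (ZMod.val_lt _).le

lemma inv_val {p : ℕ} [Fact p.Prime] {z : ZMod p} (hz : z ≠ 0) : inv p z.val = (z⁻¹).val := by
  unfold inv
  rw [if_neg (by simpa using hz), if_neg (ZMod.val_lt z).ne, ZMod.natCast_zmod_val]

lemma inv_inv' {p : ℕ} (hp : p.Prime) {j : ℕ} (hj : j ≤ p) : inv p (inv p j) = j := by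
  have : Fact p.Prime := ⟨hp⟩
  by_cases h0 : j = 0
  · subst h0; simp [inv, hp.ne_zero]
  by_cases h1 : j = p
  · subst h1; simp [inv, h0]
  have hj' : j < p := lt_of_le_of_ne hj h1
  have e : ((j : ZMod p)).val = j := ZMod.val_cast_of_lt hj'
  have hz : (j : ZMod p) ≠ 0 := by
    intro h; rw [h] at e; exact h0 (by simpa using e.symm)
  rw [← e, inv_val hz, inv_val (inv_ne_zero hz), inv_inv]

lemma tr_le {p : ℕ} (hp : p.Prime) (j : ℕ) : tr p j ≤ p := by
  unfold tr
  split_ifs
  · exact le_rfl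
  · exact (Nat.mod_lt _ hp.pos).le

lemma tr_iter {p : ℕ} (hp : p.Prime) {j : ℕ} (hj : j ≤ p) (k : ℕ) :
    (tr p)^[k] j = if j = p then p else (j + 8 * k) % p := by
  induction k with
  | zero =>
    split_ifs with h
    · simp [h]
    · simp [Nat.mod_eq_of_lt (lt_of_le_of_ne hj h)]
  | succ k ih =>
    rw [Function.iterate_succ_apply', ih]
    split_ifs with h
    · simp [tr]
    · unfold tr
      rw [if_neg (Nat.mod_lt _ hp.pos).ne, Nat.mod_add_mod]
      congr 1

lemma tr_val {p : ℕ} [Fact p.Prime] (z : ZMod p) : tr p z.val = (z + 8).val := by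
  unfold tr
  rw [if_neg (ZMod.val_lt z).ne, ← ZMod.val_natCast]
  congr 1
  push_cast
  rw [ZMod.natCast_zmod_val]

lemma gen_block {n p j : ℕ} (h : Fit n p) (hj : j ≤ p) :
    gen n (start p + j) = start p + inv p (tr p (inv p j)) := by
  have h3 := h.2.2
  have h2 := h.2.1
  unfold gen
  rw [if_neg (by omega), if_neg (by omega), blk_eq h hj, if_neg (by omega), Nat.add_sub_cancel_left]

lemma gen_iter_block {n p j : ℕ} (h : Fit n p) (hj : j ≤ p) (k : ℕ) :
    (gen n)^[k] (start p + j) = start p + inv p ((tr p)^[k] (inv p j)) := by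
  induction k with
  | zero => simp [inv_inv' h.1 hj]
  | succ k ih =>
    rw [Function.iterate_succ_apply', ih, gen_block h (inv_le h.1 _), inv_inv' h.1,
      Function.iterate_succ_apply']
    rw [tr_iter h.1 (inv_le h.1 _)]
    split_ifs
    · exact le_rfl
    · exact (Nat.mod_lt _ h.1.pos).le

lemma gen_lt {n x : ℕ} (hx : x < n) : gen n x < n := by
  by_cases h1 : x + 2 = n
  · unfold gen; rw [if_pos h1]; omega
  by_cases h2 : x + 1 = n
  · unfold gen; rw [if_neg h1, if_pos h2]; omega
  rcases blk_cases n x with h | ⟨p, j, h, hj, rfl⟩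
  · unfold gen; rw [if_neg h1, if_neg h2, if_pos h]; exact hx
  · rw [gen_block h hj]
    have := inv_le h.1 (tr p (inv p j))
    have := h.2.2
    omega

lemma exists_odd (n : ℕ) : ∃ N : ℕ, Odd N ∧ ∀ p, p ≤ n → Odd p → p ∣ N := by
  refine ⟨∏ i ∈ Finset.range (n + 1), (2 * i + 1), ?_, ?_⟩
  · exact Finset.prod_induction _ Odd (fun a b => Odd.mul) odd_one fun i _ => odd_two_mul_add_one i
  · rintro p hp ⟨i, rfl⟩
    exact Finset.dvd_prod_of_mem _ (Finset.mem_range.2 (by omega))

lemma gen_iter {n N : ℕ} (hn : 2 ≤ n) (hN : Odd N) (hd : ∀ p, p ≤ n → Odd p → p ∣ N) (x : ℕ) :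
    (gen n)^[N] x = if x + 2 = n then x + 1 else if x + 1 = n then x - 1 else x := by
  have e1 : gen n (n - 2) = n - 1 := by unfold gen; rw [if_pos (by omega)]; omega
  have e2 : gen n (n - 1) = n - 2 := by
    unfold gen; rw [if_neg (by omega), if_pos (by omega)]; omega
  obtain ⟨k, rfl⟩ := hN
  have e3 : (gen n)^[2 * k] (n - 2) = n - 2 := by
    rw [Function.iterate_mul]
    exact Function.iterate_fixed (by simp [e1, e2]) k
  have e4 : (gen n)^[2 * k] (n - 1) = n - 1 := by
    rw [Function.iterate_mul]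
    exact Function.iterate_fixed (by simp [e1, e2]) k
  split_ifs with h1 h2
  · obtain rfl : x = n - 2 := by omega
    rw [add_comm (2 * k), Function.iterate_add_apply, e3, Function.iterate_one, e1]; omega
  · obtain rfl : x = n - 1 := by omega
    rw [add_comm (2 * k), Function.iterate_add_apply, e4, Function.iterate_one, e2]; omega
  · rcases blk_cases n x with h | ⟨p, j, h, hj, rfl⟩
    · exact Function.iterate_fixed (by unfold gen; rw [if_neg h1, if_neg h2, if_pos h]) _
    · obtain ⟨m, hm⟩ := hd p (by have := h.2.2; omega) (h.1.odd_of_ne_two h.2.1.ne')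
      rw [gen_iter_block h hj, tr_iter h.1 (inv_le h.1 _), hm]
      split_ifs with h3
      · rw [← h3, h3, ← inv_inv' h.1 hj, h3]
      · rw [show inv p j + 8 * (p * m) = inv p j + p * (8 * m) by ring, Nat.add_mul_mod_self_left,
          Nat.mod_eq_of_lt (lt_of_le_of_ne (inv_le h.1 _) h3), inv_inv' h.1 hj]

lemma exists_perm {n : ℕ} (hn : 2 ≤ n) : ∃ b : Equiv.Perm (Fin n), (∀ x, (b x : ℕ) = gen n x) ∧
    Subgroup.closure ({finRotate n, b} : Set (Equiv.Perm (Fin n))) = ⊤ := by
  obtain ⟨N, hN, hd⟩ := exists_odd n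
  let f : Fin n → Fin n := fun x => ⟨gen n x, gen_lt x.2⟩
  have hf : ∀ k (x : Fin n), (f^[k] x : ℕ) = (gen n)^[k] x := by
    intro k
    induction k with
    | zero => intro x; rfl
    | succ k ih => intro x; rw [Function.iterate_succ_apply', Function.iterate_succ_apply', ← ih]
  let u : Fin n := ⟨n - 2, by omega⟩
  have hu : (finRotate n u : ℕ) = n - 1 := by
    obtain ⟨m, rfl⟩ : ∃ m, n = m + 1 := ⟨n - 1, by omega⟩
    rw [coe_finRotate_of_ne_last]
    · simp only [u]; omega
    · intro h; have := congrArg Fin.val h; simp only [u, Fin.val_last] at this; omega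
  have hs : ∀ x, f^[N] x = Equiv.swap u (finRotate n u) x := by
    intro x
    apply Fin.ext
    rw [hf, gen_iter hn hN hd, Equiv.swap_apply_def]
    have hx := x.2
    by_cases h1 : (x : ℕ) + 2 = n
    · rw [if_pos h1, if_pos (Fin.ext (by simp only [u]; omega)), hu]; omega
    · have n1 : x ≠ u := fun h => h1 (by rw [h]; simp only [u]; omega)
      rw [if_neg h1, if_neg n1]
      by_cases h2 : (x : ℕ) + 1 = n
      · rw [if_pos h2, if_pos (Fin.ext (by rw [hu]; omega))]; simp only [u]; omega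
      · rw [if_neg h2, if_neg (fun h => h2 (by rw [h, hu]; omega))]
  have hinj : Function.Injective f := by
    obtain ⟨k, rfl⟩ := hN
    have : Function.Injective (f^[2 * k + 1]) := by
      rw [funext hs]; exact Equiv.injective _
    rw [Function.iterate_succ] at this
    exact this.of_comp
  let b : Equiv.Perm (Fin n) := Equiv.ofBijective f (Finite.injective_iff_bijective.1 hinj)
  refine ⟨b, fun x => rfl, ?_⟩
  have hb : b ^ N = Equiv.swap u (finRotate n u) := by
    ext x
    rw [← hs, Equiv.Perm.coe_pow]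
    rfl
  rw [eq_top_iff, ← Equiv.Perm.closure_cycle_adjacent_swap (isCycle_finRotate_of_le hn)
    (support_finRotate_of_le hn) u, Subgroup.closure_le]
  rintro g (rfl | rfl)
  · exact Subgroup.subset_closure (by simp)
  · rw [← hb]
    exact Subgroup.pow_mem _ (Subgroup.subset_closure (by simp)) _

/-- the point of the block of `p` that stands for `z` -/
def pt {n p : ℕ} [Fact p.Prime] (h : Fit n p) (z : ZMod p) : Fin n :=
  ⟨start p + z.val, by have := ZMod.val_lt z; have := h.2.2; omega⟩

lemma pt_inj {n p : ℕ} [Fact p.Prime] (h : Fit n p) : Function.Injective (pt h) := by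
  intro y z e
  have := congrArg Fin.val e
  simp only [pt] at this
  exact ZMod.val_injective p (by omega)

lemma rot_pt {n p : ℕ} [Fact p.Prime] (h : Fit n p) {z : ZMod p} (hz : z + 1 ≠ 0) :
    finRotate n (pt h z) = pt h (z + 1) := by
  have h3 := h.2.2
  have hv := ZMod.val_lt z
  obtain ⟨m, rfl⟩ : ∃ m, n = m + 1 := ⟨n - 1, by omega⟩
  apply Fin.ext
  rw [coe_finRotate_of_ne_last]
  · simp only [pt]
    have : z.val + 1 < p := by
      by_contra hc
      apply hz
      have e : z.val + 1 = p := by omega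
      have : ((z.val + 1 : ℕ) : ZMod p) = 0 := by rw [e]; simp
      simpa using this
    rw [ZMod.val_add_of_lt (by rw [ZMod.val_one]; exact this), ZMod.val_one, add_assoc]
  · intro e; have := congrArg Fin.val e; simp only [pt, Fin.val_last] at this; omega

lemma gen_pt {n p : ℕ} [Fact p.Prime] (h : Fit n p) {b : Equiv.Perm (Fin n)}
    (hb : ∀ x, (b x : ℕ) = gen n x) {s t : ZMod p} (hs : s ≠ 0) (ht : t ≠ 0)
    (h8 : t + 8 * s ≠ 0) : b (pt h (s / t)) = pt h (s / (t + 8 * s)) := by
  apply Fin.ext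
  rw [hb]
  simp only [pt]
  have e : (s / t)⁻¹ + 8 = (t + 8 * s) / s := by field_simp
  rw [gen_block h (ZMod.val_lt _).le, inv_val (div_ne_zero hs ht), tr_val, e,
    inv_val (div_ne_zero h8 hs), inv_div]

lemma Good.ok {R : Type*} [CommRing R] {w : List Letter} {z : R} (h : Good w z) :
    Ok (vec w (z, 1)) := by
  cases w with
  | nil => exact h
  | cons x w => exact h.2

lemma traj {n p : ℕ} [Fact p.Prime] (h : Fit n p) {b : Equiv.Perm (Fin n)}
    (hb : ∀ x, (b x : ℕ) = gen n x) (w : List Letter) (z : ZMod p) (hz : Good w z) :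
    ev (finRotate n) b w (pt h z) = pt h ((vec w (z, 1)).1 / (vec w (z, 1)).2) := by
  induction w with
  | nil => simp [ev, vec]
  | cons x w ih =>
    have h1 := ih hz.1
    have h2 := hz.1.ok
    have h3 : Ok (step x (vec w (z, 1))) := hz.2
    change (lval (finRotate n) b x * ev (finRotate n) b w) (pt h z) =
      pt h ((step x (vec w (z, 1))).1 / (step x (vec w (z, 1))).2)
    rw [Equiv.Perm.mul_apply, h1]
    generalize vec w (z, 1) = v at h2 h3
    obtain ⟨s, t⟩ := v
    obtain ⟨x1, x2⟩ := x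
    obtain ⟨o1, o2, o3⟩ := h2
    cases x1 <;> cases x2 <;> simp only [step, lval, Ok] at o1 o2 o3 h3 ⊢
    · rw [Equiv.Perm.inv_eq_iff_eq, gen_pt h hb o1 h3.2.1 (by simpa using o2)]
      simp
    · exact gen_pt h hb o1 o2 h3.2.1
    · have e : (s - t) / t + 1 = s / t := by field_simp; ring
      rw [Equiv.Perm.inv_eq_iff_eq, rot_pt h (by rw [e]; exact div_ne_zero o1 o2), e]
    · have e : s / t + 1 = (s + t) / t := by field_simp
      rw [rot_pt h (by rw [e]; exact div_ne_zero o3 o2), e]

lemma dvd_wit {n p : ℕ} (h : Fit n p) {b : Equiv.Perm (Fin n)}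
    (hb : ∀ x, (b x : ℕ) = gen n x) (w : List Letter) (hw : ev (finRotate n) b w = 1)
    (hl : 3 * w.length + 5 < p) : (p : ℤ) ∣ wit w := by
  have : Fact p.Prime := ⟨h.1⟩
  by_contra hd
  obtain ⟨z, h1, h2⟩ := exists_good (F := ZMod p) w
    (fun e => hd ((ZMod.intCast_zmod_eq_zero_iff_dvd _ _).1 e)) (by rw [ZMod.card]; exact hl)
  have h3 := traj h hb w z h1
  rw [hw, Equiv.Perm.one_apply] at h3
  have h4 := pt_inj h h3
  apply h2
  rw [eq_div_iff h1.ok.2.1] at h4
  exact h4.symm

end Pool.Agent.P.MP_de9ecd_al
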