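import Mathlib

/-!
# Laws of symmetric groups: walks in Schreier graphs and surgery
-/

namespace Pool.Agent.P.MP_de9ecd_al.Law

open Equiv Finset

variable {α Y ι κ : Type}

/-- The inverse letter. -/
def iv (l : α × Bool) : α × Bool := (l.1, !l.2)

@[simp] theorem iv_iv (l : α × Bool) : iv (iv l) = l := by simp [iv]

theorem iv_ne (l : α × Bool) : iv l ≠ l := fun h => by
  have := congrArg Prod.snd h
  simp [iv] at this

theorem iv_inj {l l' : α × Bool} (h : iv l = iv l') : l = l' := by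
  rw [← iv_iv l, h, iv_iv]

/-- One step. -/
def st (σ : α → Perm Y) (l : α × Bool) : Perm Y := cond l.2 (σ l.1)⁻¹ (σ l.1)

theorem st_iv (σ : α → Perm Y) (l : α × Bool) (u : Y) : st σ (iv l) (st σ l u) = u := by
  obtain ⟨x, _ | _⟩ := l <;> simp [st, iv]

/-- The edge that is used by a step. -/
def ed (σ : α → Perm Y) (l : α × Bool) (u : Y) : α × Y := (l.1, cond l.2 (st σ l u) u)

theorem ed_iv (σ : α → Perm Y) (l : α × Bool) (u : Y) : ed σ (iv l) (st σ l u) = ed σ l u := by
  obtain ⟨x, _ | _⟩ := l <;> simp [st, iv, ed]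

theorem ed_eq {σ : α → Perm Y} {l l' : α × Bool} {u u' : Y} (h : ed σ l u = ed σ l' u') :
    (l' = l ∧ u' = u) ∨ (l' = iv l ∧ u' = st σ l u) := by
  obtain ⟨x, _ | _⟩ := l <;> obtain ⟨x', _ | _⟩ := l' <;>
    simp only [ed, st, iv, cond_true, cond_false, Prod.mk.injEq] at h ⊢ <;>
    obtain ⟨rfl, h⟩ := h
  · simp [h]
  · simp [h]
  · simp [h]
  · simp [(σ x)⁻¹.injective h]

/-- The walk that reads the sequence `V`. -/
def walk (σ : α → Perm Y) (V : ℕ → α × Bool) (v : Y) : ℕ → Y
  | 0 => v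
  | t + 1 => st σ (V t) (walk σ V v t)

/-- The edges of the walk. -/
def edg (σ : α → Perm Y) (V : ℕ → α × Bool) (v : Y) (t : ℕ) : α × Y := ed σ (V t) (walk σ V v t)

/-- The initial segments of a sequence as elements of the free group. -/
def pre (V : ℕ → α × Bool) : ℕ → FreeGroup α
  | 0 => 1
  | t + 1 => pre V t * FreeGroup.mk [V t]

theorem walk_eq (σ : α → Perm Y) (V : ℕ → α × Bool) (v : Y) (t : ℕ) :
    walk σ V v t = (FreeGroup.lift σ (pre V t))⁻¹ v := by
  induction t with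
  | zero => simp [walk, pre]
  | succ t ih =>
    rw [walk, pre, map_mul, mul_inv_rev, Perm.mul_apply, ih]
    congr 1
    obtain ⟨x, _ | _⟩ := V t <;> simp [st]

theorem walk_congr (σ : α → Perm Y) {V V' : ℕ → α × Bool} (v : Y) {t : ℕ}
    (h : ∀ i < t, V i = V' i) : walk σ V v t = walk σ V' v t := by
  induction t with
  | zero => rfl
  | succ t ih => rw [walk, walk, ih fun i hi => h i (by omega), h t (by omega)]

theorem walk_inj (σ : α → Perm Y) (V : ℕ → α × Bool) (t : ℕ) :
    Function.Injective fun v => walk σ V v t := fun u v h => by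
  simpa [walk_eq] using h

/-- Reduced sequences. -/
def Red (V : ℕ → α × Bool) : Prop := ∀ t, V (t + 1) ≠ iv (V t)

/-- The shifted sequence. -/
def sh (W : ℕ → α × Bool) (a : ℕ) : ℕ → α × Bool := fun t => W (a + t)

theorem Red.sh {W : ℕ → α × Bool} (h : Red W) (a : ℕ) : Red (sh W a) := fun t => h (a + t)

/-- Exchange of the ends of two edges with the same letter. -/
theorem swap_ex (σ : α → Perm Y) (l : α × Bool) (u u' : Y) : ∃ σ' : α → Perm Y,
    st σ' l u = st σ l u' ∧
      ∀ l' v, ed σ l' v ≠ ed σ l u → ed σ l' v ≠ ed σ l u' → st σ' l' v = st σ l' v := by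
  classical
  refine ⟨Function.update σ l.1 (σ l.1 * swap (ed σ l u).2 (ed σ l u').2), ?_, ?_⟩
  · obtain ⟨x, _ | _⟩ := l <;> simp [st, ed]
  · rintro ⟨x, b⟩ v h1 h2
    by_cases hx : x = l.1
    · have e1 : (ed σ (x, b) v).2 ≠ (ed σ l u).2 := fun e => h1 (Prod.ext hx e)
      have e2 : (ed σ (x, b) v).2 ≠ (ed σ l u').2 := fun e => h2 (Prod.ext hx e)
      have e := swap_apply_of_ne_of_ne e1 e2
      subst hx
      cases b
      · simp only [st, Function.update_self, cond_false, Perm.mul_apply]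
        exact congrArg _ e
      · simp only [st, Function.update_self, cond_true, mul_inv_rev, swap_inv, Perm.mul_apply]
        exact e
    · simp [st, Function.update_of_ne hx]

theorem ed_congr {σ σ' : α → Perm Y} {l : α × Bool} {u : Y} (h : st σ' l u = st σ l u) :
    ed σ' l u = ed σ l u := by rw [ed, ed, h]

theorem ed_swap {σ σ' : α → Perm Y} {l : α × Bool} {u u' : Y} (h : st σ' l u = st σ l u') :
    ed σ' l u = ed σ l u ∨ ed σ' l u = ed σ l u' := by
  obtain ⟨x, _ | _⟩ := l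
  · exact Or.inl rfl
  · exact Or.inr (by simp only [ed, cond_true, h])

/-- The segments `W (a i), ..., W (b i)` are read by walks on at most `n` points, and the first
and the last edge of each walk are used only once. -/
def Real (W : ℕ → α × Bool) (I : Finset ι) (a b : ι → ℕ) (n : ℕ) : Prop :=
  (∀ i ∈ I, a i < b i) ∧ ∃ (Y : Type) (σ : α → Perm Y) (p : ι → ℕ → Y) (S : Finset Y), S.card ≤ n ∧
    (∀ i ∈ I, ∀ t, a i ≤ t → t ≤ b i + 1 → p i t ∈ S) ∧
    (∀ i ∈ I, ∀ t, a i ≤ t → t ≤ b i → p i (t + 1) = st σ (W t) (p i t)) ∧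
    ∀ i ∈ I, ∀ j ∈ I, ∀ t t', (t = a i ∨ t = b i) → a j ≤ t' → t' ≤ b j →
      ed σ (W t) (p i t) = ed σ (W t') (p j t') → i = j ∧ t = t'

variable {W : ℕ → α × Bool} {I : Finset ι} {a b : ι → ℕ} {n n' : ℕ}

theorem Real.mono (h : Real W I a b n) (hn : n ≤ n') : Real W I a b n' := by
  obtain ⟨h0, Y, σ, p, S, h1, h2⟩ := h
  exact ⟨h0, Y, σ, p, S, h1.trans hn, h2⟩

theorem Real.reidx (h : Real W I a b n) {J : Finset κ} {a' b' : κ → ℕ} (f : κ → ι)
    (hf : ∀ k ∈ J, f k ∈ I ∧ a' k = a (f k) ∧ b' k = b (f k))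
    (hi : ∀ k ∈ J, ∀ k' ∈ J, f k = f k' → k = k') : Real W J a' b' n := by
  obtain ⟨h0, Y, σ, p, S, h1, h2, h3, h4⟩ := h
  refine ⟨fun k hk => ?_, Y, σ, fun k => p (f k), S, h1, fun k hk => ?_, fun k hk => ?_,
    fun k hk k' hk' t t' ht ha hb e => ?_⟩
  · rw [(hf k hk).2.1, (hf k hk).2.2]; exact h0 _ (hf k hk).1
  · rw [(hf k hk).2.1, (hf k hk).2.2]; exact h2 _ (hf k hk).1
  · rw [(hf k hk).2.1, (hf k hk).2.2]; exact h3 _ (hf k hk).1
  · rw [(hf k hk).2.1, (hf k hk).2.2] at ht
    rw [(hf k' hk').2.1] at ha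
    rw [(hf k' hk').2.2] at hb
    have := h4 _ (hf k hk).1 _ (hf k' hk').1 t t' ht ha hb e
    exact ⟨hi k hk k' hk' this.1, this.2⟩

theorem real_empty (W : ℕ → α × Bool) (a b : ι → ℕ) : Real W ∅ a b 0 :=
  ⟨by simp, Unit, fun _ => 1, fun _ _ => (), ∅, le_rfl, by simp, by simp, by simp⟩

theorem Real.union [DecidableEq ι] {I' : Finset ι} (h : Real W I a b n) (h' : Real W I' a b n') :
    Real W (I ∪ I') a b (n + n') := by
  obtain ⟨h0, Y, σ, p, S, h1, h2, h3, h4⟩ := h
  obtain ⟨h0', Y', σ', p', S', h1', h2', h3', h4'⟩ := h'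
  have sl : ∀ l u, st (fun x => Perm.sumCongr (σ x) (σ' x)) l (Sum.inl u) = Sum.inl (st σ l u) := by
    rintro ⟨x, _ | _⟩ u <;> simp [st]
  have sr : ∀ l u, st (fun x => Perm.sumCongr (σ x) (σ' x)) l (Sum.inr u) = Sum.inr (st σ' l u) := by
    rintro ⟨x, _ | _⟩ u <;> simp [st]
  have el : ∀ l u, ed (fun x => Perm.sumCongr (σ x) (σ' x)) l (Sum.inl u) =
      ((ed σ l u).1, Sum.inl (ed σ l u).2) := by
    rintro ⟨x, _ | _⟩ u <;> simp [ed, sl]
  have er : ∀ l u, ed (fun x => Perm.sumCongr (σ x) (σ' x)) l (Sum.inr u) =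
      ((ed σ' l u).1, Sum.inr (ed σ' l u).2) := by
    rintro ⟨x, _ | _⟩ u <;> simp [ed, sr]
  have hI : ∀ i ∈ I ∪ I', i ∉ I → i ∈ I' := fun i hi h => (mem_union.1 hi).resolve_left h
  refine ⟨fun i hi => (mem_union.1 hi).elim (h0 i) (h0' i), Y ⊕ Y', fun x => Perm.sumCongr (σ x) (σ' x),
    fun i t => if i ∈ I then Sum.inl (p i t) else Sum.inr (p' i t), S.disjSum S',
    by rw [card_disjSum]; omega, fun i hi t ha hb => ?_, fun i hi t ha hb => ?_,
    fun i hi j hj t t' ht ha hb e => ?_⟩ <;> beta_reduce at *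
  · split_ifs with h
    · exact inl_mem_disjSum.2 (h2 i h t ha hb)
    · exact inr_mem_disjSum.2 (h2' i (hI i hi h) t ha hb)
  · split_ifs with h
    · rw [sl, h3 i h t ha hb]
    · rw [sr, h3' i (hI i hi h) t ha hb]
  · split_ifs at e with h h' h'
    · rw [el, el, Prod.mk.injEq, Sum.inl.injEq] at e
      exact h4 i h j h' t t' ht ha hb (Prod.ext e.1 e.2)
    · rw [el, er, Prod.mk.injEq] at e
      exact absurd e.2 Sum.inl_ne_inr
    · rw [el, er, Prod.mk.injEq] at e
      exact absurd e.2 Sum.inr_ne_inl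
    · rw [er, er, Prod.mk.injEq, Sum.inr.injEq] at e
      exact h4' i (hI i hi h) j (hI j hj h') t t' ht ha hb (Prod.ext e.1 e.2)

theorem real_sum {c : ι → ℕ} (h : ∀ i ∈ I, Real W {i} a b (c i)) : Real W I a b (∑ i ∈ I, c i) := by
  classical
  induction I using Finset.induction_on with
  | empty => exact real_empty W a b
  | insert i I hi ih =>
    rw [sum_insert hi, insert_eq]
    exact (h i (mem_insert_self _ _)).union (ih fun j hj => h j (mem_insert_of_mem hj))

/-- Two consecutive segments are joined. -/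
theorem Real.merge [DecidableEq ι] (h : Real W I a b n) {i j : ι} (hi : i ∈ I) (hj : j ∈ I)
    (e : b i = a j) : Real W (I.erase j) a (Function.update b i (b j)) n := by
  obtain ⟨h0, Y, σ, p, S, h1, h2, h3, h4⟩ := h
  have hi' := h0 i hi
  have hj' := h0 j hj
  have h0' : ∀ k ∈ I.erase j, a k < Function.update b i (b j) k := fun k hk => by
    by_cases hki : k = i
    · rw [hki, Function.update_self]
      omega
    · rw [Function.update_of_ne hki]
      exact h0 k (mem_erase.1 hk).2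
  obtain ⟨σ', s1, s2⟩ := swap_ex σ (W (b i)) (p i (b i)) (p j (b i))
  have keep : ∀ k ∈ I, ∀ t, a k ≤ t → t ≤ b k → (k = i ∨ k = j → t ≠ b i) →
      st σ' (W t) (p k t) = st σ (W t) (p k t) := fun k hk t ha hb hne =>
    s2 _ _ (fun e' => by
      have := h4 i hi k hk _ t (Or.inr rfl) ha hb e'.symm
      exact hne (Or.inl this.1.symm) this.2.symm) fun e' => by
      have := h4 j hj k hk _ t (Or.inl e) ha hb e'.symm
      exact hne (Or.inr this.1.symm) this.2.symm
  obtain ⟨o, ho⟩ : ∃ o : ι → ℕ → ι, ∀ k t, o k t = if k = i ∧ b i < t then j else k := ⟨_, fun _ _ => rfl⟩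
  have own : ∀ k ∈ I.erase j, ∀ t, a k ≤ t → t ≤ Function.update b i (b j) k →
      ∃ k' ∈ I, a k' ≤ t ∧ t ≤ b k' ∧ ed σ' (W t) (p (o k t) t) = ed σ (W t) (p k' t) ∧
        (k' = k ∨ k = i ∧ k' = j) ∧
        ((t = a k ∨ t = Function.update b i (b j) k) → (t = a k' ∨ t = b k')) := by
    intro k hk t ha hb
    have hk' := mem_erase.1 hk
    by_cases hki : k = i
    · subst hki
      rw [Function.update_self] at hb ⊢
      rcases lt_trichotomy t (b k) with ht | rfl | ht
      · rw [ho, if_neg (by omega)]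
        exact ⟨k, hi, ha, ht.le, ed_congr (keep k hi t ha ht.le fun _ => ht.ne), Or.inl rfl, by omega⟩
      · rw [ho, if_neg (by omega)]
        rcases ed_swap s1 with e' | e'
        · exact ⟨k, hi, ha, le_rfl, e', Or.inl rfl, by omega⟩
        · exact ⟨j, hj, e.ge, by omega, e', Or.inr ⟨rfl, rfl⟩, by omega⟩
      · rw [ho, if_pos ⟨rfl, ht⟩]
        exact ⟨j, hj, by omega, hb, ed_congr (keep j hj t (by omega) hb fun _ => ht.ne'),
          Or.inr ⟨rfl, rfl⟩, by omega⟩
    · rw [Function.update_of_ne hki] at hb ⊢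
      rw [ho, if_neg fun h => hki h.1]
      exact ⟨k, hk'.2, ha, hb, ed_congr (keep k hk'.2 t ha hb fun h => (h.elim hki hk'.1).elim),
        Or.inl rfl, id⟩
  refine ⟨h0', Y, σ', fun k t => p (o k t) t, S, h1, fun k hk t ha hb => ?_,
    fun k hk t ha hb => ?_, fun k hk k' hk' t t' ht ha hb e' => ?_⟩ <;> beta_reduce at *
  · rw [ho]
    by_cases hki : k = i
    · subst hki
      rw [Function.update_self] at hb
      split_ifs with h
      · exact h2 j hj t (by omega) hb
      · exact h2 k hi t ha (by simp at h; omega)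
    · rw [Function.update_of_ne hki] at hb
      rw [if_neg fun h => hki h.1]
      exact h2 k (mem_erase.1 hk).2 t ha hb
  · have hk' := mem_erase.1 hk
    by_cases hki : k = i
    · subst hki
      rw [Function.update_self] at hb
      rcases lt_trichotomy t (b k) with ht | rfl | ht
      · rw [ho, ho, if_neg (by omega), if_neg (by omega), keep k hi t ha ht.le fun _ => ht.ne]
        exact h3 k hi t ha ht.le
      · rw [ho, ho, if_pos ⟨rfl, by omega⟩, if_neg (by omega), s1]
        exact h3 j hj _ e.ge (by omega)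
      · rw [ho, ho, if_pos ⟨rfl, by omega⟩, if_pos ⟨rfl, ht⟩,
          keep j hj t (by omega) hb fun _ => ht.ne']
        exact h3 j hj t (by omega) hb
    · rw [Function.update_of_ne hki] at hb
      rw [ho, ho, if_neg fun h => hki h.1, if_neg fun h => hki h.1,
        keep k hk'.2 t ha hb fun h => (h.elim hki hk'.1).elim]
      exact h3 k hk'.2 t ha hb
  · have r : a k ≤ t ∧ t ≤ Function.update b i (b j) k := by
      have := h0' k hk
      omega
    obtain ⟨u, hu, -, -, e1, o1, c1⟩ := own k hk t r.1 r.2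
    obtain ⟨u', hu', ha', hb', e2, o2, -⟩ := own k' hk' t' ha hb
    have := h4 u hu u' hu' t t' (c1 ht) ha' hb' (e1.symm.trans (e'.trans e2))
    refine ⟨?_, this.2⟩
    have n1 := (mem_erase.1 hk).1
    have n2 := (mem_erase.1 hk').1
    obtain ⟨rfl, -⟩ := this
    rcases o1 with rfl | ⟨rfl, rfl⟩ <;> rcases o2 with o2 | ⟨o2, o3⟩
    · exact o2
    · exact absurd o3 n1
    · exact absurd o2.symm n2
    · exact o2.symm

end Pool.Agent.P.MP_de9ecd_al.Law
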