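import Pool.Agent.P.MP_de9ecd_al.Law0

/-!
# Laws of symmetric groups: the Cayley tree, extensions, chains
-/

namespace Pool.Agent.P.MP_de9ecd_al.Law

open Equiv Finset

variable {α Y ι κ : Type}

theorem pre_eq (V : ℕ → α × Bool) (t : ℕ) : pre V t = FreeGroup.mk ((List.range t).map V) := by
  induction t with
  | zero => rfl
  | succ t ih => rw [pre, ih, FreeGroup.mul_mk, List.range_succ, List.map_append]; rfl

theorem Red.isReduced {V : ℕ → α × Bool} (h : Red V) (t : ℕ) :
    FreeGroup.IsReduced ((List.range t).map V) := by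
  rw [FreeGroup.IsReduced, List.isChain_map]
  cases t with
  | zero => simp
  | succ t =>
    rw [List.isChain_range_succ]
    intro m _ e
    by_contra hne
    refine h m (Prod.ext e.symm ?_)
    simp only [iv]
    cases h1 : (V m).2 <;> cases h2 : (V (m + 1)).2 <;> simp_all

theorem pre_inj {V V' : ℕ → α × Bool} (h : Red V) (h' : Red V') {t t' : ℕ}
    (e : pre V t = pre V' t') : t = t' ∧ ∀ i < t, V i = V' i := by
  classical
  have e' := congrArg FreeGroup.toWord e
  rw [pre_eq, pre_eq, FreeGroup.toWord_mk, FreeGroup.toWord_mk, (h.isReduced t).reduce_eq,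
    (h'.isReduced t').reduce_eq] at e'
  obtain rfl : t = t' := by simpa using congrArg List.length e'
  exact ⟨rfl, fun i hi => List.map_inj_left.1 e' i (List.mem_range.2 hi)⟩

theorem norm_pre [DecidableEq α] (V : ℕ → α × Bool) (t : ℕ) : (pre V t).norm ≤ t := by
  rw [pre_eq]
  simpa using FreeGroup.norm_mk_le (L₁ := (List.range t).map V)

theorem exists_red [DecidableEq α] {z : FreeGroup α} (hz : z ≠ 1) :
    ∃ V, Red V ∧ pre V z.norm = z := by
  have hl : 0 < z.toWord.length := Nat.pos_of_ne_zero fun h => hz (FreeGroup.norm_eq_zero.1 h)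
  refine ⟨fun t => z.toWord[min t (z.toWord.length - 1)]'(by omega), fun t => ?_, ?_⟩
  · by_cases ht : t + 1 < z.toWord.length
    · have := (List.isChain_iff_getElem.1 (FreeGroup.isReduced_toWord (x := z))) t ht
      simp only [show min (t + 1) (z.toWord.length - 1) = t + 1 by omega,
        show min t (z.toWord.length - 1) = t by omega]
      intro e
      rw [e] at this
      simp [iv] at this
    · simp only [show min (t + 1) (z.toWord.length - 1) = z.toWord.length - 1 by omega,
        show min t (z.toWord.length - 1) = z.toWord.length - 1 by omega]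
      exact (iv_ne _).symm
  · rw [pre_eq]
    refine Eq.trans (congrArg _ ?_) FreeGroup.mk_toWord
    refine List.ext_getElem (by simp [FreeGroup.norm]) fun i h1 h2 => ?_
    simp only [List.getElem_map, List.getElem_range, show min i (z.toWord.length - 1) = i by omega]

/-- The two walks from `v` meet only where they meet in the tree. -/
def TL (σ : α → Perm Y) (V V' : ℕ → α × Bool) (m : ℕ) (v : Y) : Prop :=
  ∀ s ≤ m, ∀ s' ≤ m, walk σ V v s = walk σ V' v s' → pre V s = pre V' s'

theorem TL.edg {σ : α → Perm Y} {V V' : ℕ → α × Bool} {m : ℕ} {v : Y} (h : TL σ V V' m v)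
    (hV : Red V) (hV' : Red V') {t t' : ℕ} (ht : t < m) (ht' : t' < m)
    (e : edg σ V v t = edg σ V' v t') : t = t' ∧ ∀ i ≤ t, V i = V' i := by
  rcases ed_eq e with ⟨e1, e2⟩ | ⟨e1, e2⟩
  · obtain ⟨rfl, h2⟩ := pre_inj hV hV' (h t ht.le t' ht'.le e2.symm)
    exact ⟨rfl, fun i hi => hi.lt_or_eq.elim (h2 i) fun e => e ▸ e1.symm⟩
  · obtain ⟨rfl, h2⟩ := pre_inj hV hV' (h (t + 1) ht t' ht'.le e2.symm)
    exact absurd (e1.trans (congrArg iv (h2 t (by omega)))) (hV' t)

/-- The action on the Cayley tree. -/
def tree (α : Type) : α → Perm (FreeGroup α) := fun x => MulAction.toPermHom _ _ (FreeGroup.of x)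

theorem tl_tree (V V' : ℕ → α × Bool) (m : ℕ) : TL (tree α) V V' m 1 := by
  have e : FreeGroup.lift (tree α) = MulAction.toPermHom (FreeGroup α) (FreeGroup α) :=
    FreeGroup.ext_hom _ _ fun x => by simp [tree]
  intro s _ s' _ h
  rw [walk_eq, walk_eq, e, ← map_inv, ← map_inv] at h
  simpa using h

theorem edg_tree {V V' : ℕ → α × Bool} (hV : Red V) (hV' : Red V') {t t' : ℕ}
    (e : edg (tree α) V 1 t = edg (tree α) V' 1 t') : t = t' ∧ ∀ i ≤ t, V i = V' i :=
  (tl_tree V V' (t + t' + 1)).edg hV hV' (by omega) (by omega) e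

variable {W : ℕ → α × Bool} {I : Finset ι} {a b : ι → ℕ} {n : ℕ}

theorem real_plain (hW : Red W) {i : ι} (h : a i < b i) : Real W {i} a b (b i - a i + 2) := by
  classical
  refine ⟨by simpa using h, _, tree α, fun _ t => walk (tree α) W 1 t,
    (Icc (a i) (b i + 1)).image (walk (tree α) W 1), card_image_le.trans (by simp; omega),
    fun j hj t h1 h2 => ?_, fun _ _ _ _ _ => rfl, fun j hj k hk t t' _ _ _ e => ?_⟩
  · rw [mem_singleton.1 hj] at h1 h2
    exact mem_image_of_mem _ (mem_Icc.2 ⟨h1, h2⟩)
  · exact ⟨(mem_singleton.1 hj).trans (mem_singleton.1 hk).symm, (edg_tree hW hW e).1⟩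

theorem Real.extl [DecidableEq ι] (hW : Red W) (h : Real W I a b n) {i : ι} (hi : i ∈ I) {x : ℕ}
    (hx : x < a i) : Real W I (Function.update a i x) b (n + (a i - x + 2)) := by
  have h1 : Real W (I.map Function.Embedding.some) (fun o => o.elim x a) (fun o => o.elim (a i) b) n :=
    h.reidx (fun o => o.getD i) (by simp) (by simp)
  have h2 := (h1.union (real_plain (i := none) hW hx)).merge (i := none) (j := some i) (by simp)
    (by simpa using hi) rfl
  refine h2.reidx (fun k => if k = i then none else some k) (fun k hk => ?_) fun k _ k' _ => ?_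
  · by_cases e : k = i
    · simp [e]
    · simp [e, hk]
  · split_ifs with e e' e' <;> simp_all

theorem Real.extr [DecidableEq ι] (hW : Red W) (h : Real W I a b n) {i : ι} (hi : i ∈ I) {y : ℕ}
    (hy : b i < y) : Real W I a (Function.update b i y) (n + (y - b i + 2)) := by
  have h1 : Real W (I.map Function.Embedding.some) (fun o => o.elim (b i) a) (fun o => o.elim y b) n :=
    h.reidx (fun o => o.getD i) (by simp) (by simp)
  have h2 := (h1.union (real_plain (i := none) hW hy)).merge (i := some i) (j := none)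
    (by simpa using hi) (by simp) rfl
  refine h2.reidx some (fun k hk => ?_) (by simp)
  by_cases e : k = i
  · simp [e, hi]
  · simp [e, hk]

theorem Real.ext (hW : Red W) (h : Real W I a b n) {x y : ι → ℕ} {D : ℕ}
    (hx : ∀ i ∈ I, x i < a i ∧ a i ≤ x i + D) (hy : ∀ i ∈ I, b i < y i ∧ y i ≤ b i + D) :
    Real W I x y (n + I.card * (2 * D + 4)) := by
  classical
  have key : ∀ T : Finset ι, T ⊆ I → Real W I (fun i => if i ∈ T then x i else a i)
      (fun i => if i ∈ T then y i else b i) (n + T.card * (2 * D + 4)) := by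
    intro T
    induction T using Finset.induction_on with
    | empty => intro _; simpa using h
    | insert i T hi ih =>
      intro hT
      have hI := hT (mem_insert_self _ _)
      have h1 := hx i hI
      have h2 := hy i hI
      have := ((ih ((subset_insert _ _).trans hT)).extl hW hI (x := x i) (by simp [hi, h1.1])).extr
        hW hI (y := y i) (by simp [hi, h2.1])
      refine (this.reidx id (fun k hk => ⟨hk, ?_, ?_⟩) fun _ _ _ _ e => e).mono ?_
      · by_cases e : k = i <;> simp [e]
      · by_cases e : k = i <;> simp [e]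
      · rw [card_insert_of_notMem hi, if_neg hi, if_neg hi, add_mul]
        omega
  exact (key I le_rfl).reidx id (fun k hk => by simp [hk]) fun _ _ _ _ e => e

theorem Real.chain {c : ℕ → ℕ} {q : ℕ} (h : Real W (range (q + 1)) c (fun k => c (k + 1)) n) :
    Real W {0} (fun _ => c 0) (fun _ => c (q + 1)) n := by
  have key : ∀ k ≤ q, Real W (insert 0 (Ico (k + 1) (q + 1))) c
      (fun j => if j = 0 then c (k + 1) else c (j + 1)) n := by
    intro k
    induction k with
    | zero =>
      intro _
      refine h.reidx id (fun j hj => ⟨?_, rfl, ?_⟩) fun _ _ _ _ e => e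
      · simp only [mem_insert, mem_Ico, id, mem_range] at hj ⊢
        omega
      · split_ifs with e <;> simp [e]
    | succ k ih =>
      intro hk
      refine ((ih (by omega)).merge (i := 0) (j := k + 1) (by simp) (by simp; omega)
        (by simp)).reidx id (fun j hj => ⟨?_, rfl, ?_⟩) fun _ _ _ _ e => e
      · simp only [mem_insert, mem_Ico, id, mem_erase] at hj ⊢
        omega
      · by_cases e : j = 0 <;> simp [e]
  exact (key q le_rfl).reidx id (by simp) (by simp)

/-- From a conjugated word to a permutation representation. -/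
theorem Real.perm {x m : ℕ} (h : Real W {0} (fun _ => x) (fun _ => x + 1 + m) n)
    (hx : W (x + 1 + m) = iv (W x)) :
    ∃ f : α → Perm (Fin n), FreeGroup.lift f (pre (sh W (x + 1)) m) ≠ 1 := by
  obtain ⟨-, Y, σ, p, S, h1, h2, h3, h4⟩ := h
  beta_reduce at h2 h3 h4
  have h2' := h2 0 (by simp)
  have h3' := h3 0 (by simp)
  have hne : p 0 (x + 1 + m) ≠ p 0 (x + 1) := fun e => by
    have := h4 0 (by simp) 0 (by simp) x (x + 1 + m) (Or.inl rfl) (by omega) le_rfl
      (by rw [e, hx, h3' x le_rfl (by omega), ed_iv])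
    omega
  have hn : Nonempty (Fin n) :=
    ⟨⟨0, (card_pos.2 ⟨_, h2' x le_rfl (by omega)⟩).trans_le h1⟩⟩
  obtain ⟨e, -, he⟩ := S.finite_toSet.exists_injOn_of_encard_le (t := (Set.univ : Set (Fin n))) (by
    rw [Set.encard_coe_eq_coe_finsetCard, Set.encard_univ, ENat.card_eq_coe_fintype_card,
      Fintype.card_fin]
    exact_mod_cast h1)
  have key : ∀ y : α, ∃ τ : Perm (Fin n), ∀ u ∈ S, σ y u ∈ S → τ (e u) = e (σ y u) := fun y => by
    have : Finite {u // u ∈ S ∧ σ y u ∈ S} :=
      Set.Finite.subset S.finite_toSet (s := S) (t := {u | u ∈ S ∧ σ y u ∈ S}) fun _ h => h.1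
    obtain ⟨τ, hτ⟩ := Perm.exists_extending_pair (fun u : {u // u ∈ S ∧ σ y u ∈ S} => e u)
      (fun u => e (σ y u)) (fun u v h => Subtype.ext (he u.2.1 v.2.1 h))
      fun u v h => Subtype.ext ((σ y).injective (he u.2.2 v.2.2 h))
    exact ⟨τ, fun u h1 h2 => hτ ⟨u, h1, h2⟩⟩
  choose f hf using key
  have hst : ∀ l, ∀ u ∈ S, st σ l u ∈ S → st f l (e u) = e (st σ l u) := by
    rintro ⟨y, _ | _⟩ u hu hu'
    · exact hf y u hu hu'
    · have := hf y _ hu' (by simpa [st] using hu)
      simp only [st, cond_true, Perm.coe_inv, Equiv.apply_symm_apply] at this ⊢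
      rw [← this, Equiv.symm_apply_apply]
  have hw : ∀ t ≤ m, walk f (sh W (x + 1)) (e (p 0 (x + 1))) t = e (p 0 (x + 1 + t)) := by
    intro t
    induction t with
    | zero => exact fun _ => rfl
    | succ t ih =>
      intro ht
      have e1 := h3' (x + 1 + t) (by omega) (by omega)
      rw [walk, ih (by omega), ← add_assoc, e1]
      exact hst _ _ (h2' _ (by omega) (by omega)) (e1 ▸ h2' _ (by omega) (by omega))
  refine ⟨f, fun h0 => hne (he (h2' _ (by omega) (by omega)) (h2' _ (by omega) (by omega)) ?_)⟩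
  rw [← hw m le_rfl, walk_eq, h0]
  rfl

end Pool.Agent.P.MP_de9ecd_al.Law
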