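import Pool.Agent.P.MP_de9ecd_al.Law9

/-!
# Laws of symmetric groups: the choice of the parameters
-/

namespace Pool.Agent.P.MP_de9ecd_al.Law

open Equiv Finset

theorem cost_le {b s l L n : ℕ} (hs : 0 < s) (hsb : s ≤ b) (hb : 4 ≤ b) (hl : l + 1 = b ^ 6)
    (hn : b ^ 60 ≤ n) (hL : 65632 * L ≤ s * n) :
    (2 * ((l + 1 + 1 + L) / (s * l) + 1) + 1) *
        (8194 * (l + 1) + 5 * (b ^ 2 * b ^ 3) + 8 + 8 * b ^ 5) + 128 * b ^ 41 * (s * l + 2) +
      (l + 1 + 1 + L) / (l + 1 - b ^ 2 * b ^ 2) * (8 * b ^ 5) ≤ n := by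
  have p5 : 4 ^ 5 ≤ b ^ 5 := Nat.pow_le_pow_left hb 5
  have p6 : 4 * b ^ 5 ≤ b ^ 6 := by rw [pow_succ' b 5]; exact Nat.mul_le_mul_right _ hb
  have p4 : 4 * b ^ 4 ≤ b ^ 5 := by rw [pow_succ' b 4]; exact Nat.mul_le_mul_right _ hb
  have p7 : s * b ^ 5 ≤ b ^ 6 := by rw [pow_succ' b 5]; exact Nat.mul_le_mul_right _ hsb
  have e1 : b ^ 2 * b ^ 3 = b ^ 5 := by ring
  have e2 : b ^ 2 * b ^ 2 = b ^ 4 := by ring
  rw [e1, e2]
  have a1 := Nat.div_mul_le_self (l + 1 + 1 + L) (s * l)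
  have a2 := Nat.div_mul_le_self (l + 1 + 1 + L) (l + 1 - b ^ 4)
  generalize (l + 1 + 1 + L) / (s * l) = u at a1 ⊢
  have a3 : s * b ^ 5 ≤ 2 * (l + 1 - b ^ 4) := by omega
  generalize (l + 1 + 1 + L) / (l + 1 - b ^ 4) = v at a2 ⊢
  have b1 : (2 * (u + 1) + 1) * (8194 * (l + 1) + 5 * b ^ 5 + 8 + 8 * b ^ 5) ≤
      (2 * (u + 1) + 1) * (16400 * l) := Nat.mul_le_mul_left _ (by omega)
  have b2 : s * ((2 * (u + 1) + 1) * (16400 * l)) = 32800 * (u * (s * l)) + s * (49200 * l) := by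
    ring
  have b3 : s * (v * (8 * b ^ 5)) = 8 * (v * (s * b ^ 5)) := by ring
  have b4 := Nat.mul_le_mul_left v a3
  rw [mul_left_comm v 2] at b4
  have c1 : s * l + 2 ≤ 2 * b ^ 7 := by
    have : s * l ≤ b * b ^ 6 := Nat.mul_le_mul hsb (by omega)
    have : 0 < b ^ 7 := by positivity
    rw [pow_succ' b 6] at this ⊢
    have : b * b ^ 6 ≥ 4 * 1 := Nat.mul_le_mul hb (by omega)
    omega
  have c2 : 128 * b ^ 41 * (s * l + 2) ≤ 256 * b ^ 48 :=
    (Nat.mul_le_mul_left _ c1).trans (le_of_eq (by ring))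
  have c3 : 1024 * b ^ 48 ≤ b ^ 60 :=
    (Nat.mul_le_mul_right _ (le_trans (by norm_num) (Nat.pow_le_pow_left hb 12))).trans
      (le_of_eq (by ring))
  have c4 : 1024 * b ^ 6 ≤ b ^ 48 :=
    (Nat.mul_le_mul_right _ (le_trans (by norm_num) (Nat.pow_le_pow_left hb 42))).trans
      (le_of_eq (by ring))
  have c5 : 2 * (49200 * l + 128 * b ^ 41 * (s * l + 2) + 32816 * (l + 2)) ≤ n := by
    generalize 128 * b ^ 41 * (s * l + 2) = X at c2 ⊢
    clear * - c2 c3 c4 hn hl p5 p6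
    generalize b ^ 60 = B60, b ^ 48 = B48, b ^ 6 = B6, b ^ 5 = B5 at *
    linarith
  have c6 := Nat.mul_le_mul_left s c5
  have c7 : l + 2 ≤ s * (l + 2) := Nat.le_mul_of_pos_left _ hs
  have c8 := Nat.mul_le_mul_left s b1
  refine Nat.le_of_mul_le_mul_left ?_ hs
  have c9 : s * (2 * (49200 * l + 128 * b ^ 41 * (s * l + 2) + 32816 * (l + 2))) =
      2 * (s * (49200 * l)) + 2 * (s * (128 * b ^ 41 * (s * l + 2))) + 65632 * (s * (l + 2)) := by
    ring
  rw [mul_add, mul_add]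
  omega

theorem lin_lt_pow {s : ℕ} (hs : 6 ≤ s) : 246 * s + 243 < 4 ^ s := by
  induction s, hs using Nat.le_induction with
  | base => norm_num
  | succ s hs ih => rw [pow_succ]; omega

theorem pow_id (s : ℕ) :
    (2 * 4 ^ s) * ((4 ^ s * 4 ^ (60 * (s + 1))) * (4 ^ s * 4 ^ (60 * (s + 1)))) =
      2 ^ (246 * s + 241) := by
  rw [show (4 : ℕ) = 2 ^ 2 by norm_num, ← pow_mul, ← pow_mul, ← pow_succ', ← pow_add, ← pow_add,
    ← pow_add]
  exact congrArg _ (by ring)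

theorem law_nat {α : Type} [DecidableEq α] [Fintype α] {s n : ℕ} (hs : 6 ≤ s)
    (h1 : 4 ^ (60 * s) ≤ n) (h2 : n < 4 ^ (60 * (s + 1))) {z : FreeGroup α} (hz : z ≠ 1)
    (hL : 65632 * z.norm ≤ s * n) : ∃ f : α → Perm (Fin n), FreeGroup.lift f z ≠ 1 := by
  replace h2 : ∀ N, N = 4 ^ (60 * (s + 1)) → n ≤ N := fun N e => e ▸ h2.le
  obtain ⟨V, hV, hpre⟩ := exists_red hz
  have hL0 : 0 < z.norm := Nat.pos_of_ne_zero fun h => hz (FreeGroup.norm_eq_zero.1 h)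
  generalize z.norm = L at hL hpre hL0
  obtain ⟨b, hb⟩ : ∃ b, b = 4 ^ s := ⟨_, rfl⟩
  have hlin := lin_lt_pow hs
  rw [← hb] at hlin
  rw [mul_comm, pow_mul, ← hb] at h1
  obtain ⟨l, hl⟩ : ∃ l, l + 1 = b ^ 6 := ⟨b ^ 6 - 1, Nat.sub_add_cancel (Nat.pow_pos (by omega))⟩
  have hb4 : 4 ≤ b := by omega
  have p1 : 4 * b ≤ b ^ 2 := by rw [pow_two]; exact Nat.mul_le_mul_right _ hb4
  have p2 : 4 * b ^ 2 ≤ b ^ 3 := by rw [pow_succ' b 2]; exact Nat.mul_le_mul_right _ hb4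
  have p3 : 4 * b ^ 3 ≤ b ^ 4 := by rw [pow_succ' b 3]; exact Nat.mul_le_mul_right _ hb4
  have p4 : 4 * b ^ 4 ≤ b ^ 5 := by rw [pow_succ' b 4]; exact Nat.mul_le_mul_right _ hb4
  have p5 : 4 * b ^ 5 ≤ b ^ 6 := by rw [pow_succ' b 5]; exact Nat.mul_le_mul_right _ hb4
  have e2 : b ^ 2 * b ^ 2 = b ^ 4 := by ring
  obtain ⟨W, w1, w2, w3⟩ : ∃ W : ℕ → Option α × Bool, (∀ t ≤ l + 1, W t = (none, true)) ∧
      (∀ t < L, W (l + 1 + 1 + t) = (some (V t).1, (V t).2)) ∧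
      ∀ t, l + 1 + 1 + L ≤ t → W t = (none, false) := by
    refine ⟨fun t => if t ≤ l + 1 then (none, true) else if t < l + 1 + 1 + L then
      (some (V (t - (l + 1 + 1))).1, (V (t - (l + 1 + 1))).2) else (none, false),
      fun t ht => if_pos ht, fun t ht => ?_, fun t ht => ?_⟩
    · beta_reduce
      rw [if_neg (by omega), if_pos (by omega), Nat.add_sub_cancel_left]
    · beta_reduce
      rw [if_neg (by omega), if_neg (by omega)]
  have w4 : ∀ t, l + 1 < t → t < l + 1 + 1 + L → (W t).1 ≠ none := fun t a1 a2 => by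
    rw [show t = l + 1 + 1 + (t - (l + 1 + 1)) by omega, w2 _ (by omega)]
    simp
  have hW : Red W := fun t e => by
    rcases lt_trichotomy t (l + 1) with c | c | c
    · rw [w1 t c.le, w1 (t + 1) c] at e
      simp [iv] at e
    · exact w4 (t + 1) (by omega) (by omega) (by rw [e, w1 t c.le]; rfl)
    · rcases lt_trichotomy (t + 1) (l + 1 + 1 + L) with d | d | d
      · obtain ⟨j, rfl⟩ : ∃ j, t = l + 1 + 1 + j := ⟨t - (l + 1 + 1), by omega⟩
        rw [add_assoc _ j, w2 j (by omega), w2 (j + 1) (by omega)] at e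
        simp only [iv, Prod.mk.injEq, Option.some.injEq] at e
        exact hV j (Prod.ext e.1 e.2)
      · rw [w3 (t + 1) d.ge] at e
        exact w4 t c (by omega) (congrArg Prod.fst e).symm
      · rw [w3 t (by omega), w3 (t + 1) d.le] at e
        simp [iv] at e
  have hx : ¬ fb W (b ^ 2) (l + 1) (l + 1) := by
    rintro ⟨d, d0, d1, d2⟩
    have e := d2 0 (by omega)
    rw [add_zero, w1 _ le_rfl] at e
    by_cases c : l + 1 + d < l + 1 + 1 + L
    · exact w4 _ (by omega) c (by rw [e])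
    · rw [w3 _ (by omega)] at e
      simp at e
  have hy : ¬ fb W (b ^ 2) (l + 1) (l + 1 + 1 + L + 1 - (l + 1)) := by
    rintro ⟨d, d0, d1, d2⟩
    have e := d2 (l - d) (by omega)
    rw [w3 _ (by omega)] at e
    by_cases c : l + 1 < l + 1 + 1 + L + 1 - (l + 1) + (l - d)
    · exact w4 _ c (by omega) (by rw [← e])
    · rw [w1 _ (by omega)] at e
      simp at e
  have hsl : 0 < s * l := Nat.mul_pos (by omega) (by omega)
  have hK : s * l + 1 ≤ b ^ 7 := by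
    have : s * l ≤ b * l := Nat.mul_le_mul_right _ (by omega)
    rw [pow_succ' b 6, ← hl, mul_add]
    omega
  have hR : (b + 1) * ((l + 1 + 1 + L) * (l + 1 + 1 + L + 1)) < 2 ^ b := by
    have q1 : b ^ 6 ≤ b ^ 60 := Nat.pow_le_pow_right (by omega) (by omega)
    have q2 : s * n ≤ b * n := Nat.mul_le_mul_right _ (by omega)
    have q3 : 4 * n ≤ b * n := Nat.mul_le_mul_right _ hb4
    have q6 : l + 1 + 1 + L + 1 ≤ b * n := by
      clear * - q1 q2 q3 hL hl h1 p1 p2 p3 p4 p5 hb4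
      omega
    have q4 : b * n ≤ 4 ^ s * 4 ^ (60 * (s + 1)) := Nat.mul_le_mul hb.le (h2 _ rfl)
    have q7 : b + 1 ≤ 2 * b := by omega
    have q5 : (b + 1) * ((l + 1 + 1 + L) * (l + 1 + 1 + L + 1)) ≤
        (2 * 4 ^ s) * ((4 ^ s * 4 ^ (60 * (s + 1))) * (4 ^ s * 4 ^ (60 * (s + 1)))) :=
      Nat.mul_le_mul (q7.trans (Nat.mul_le_mul_left _ hb.le)) (Nat.mul_le_mul ((Nat.le_succ _).trans (q6.trans q4)) (q6.trans q4))
    have q8 : 2 ^ (246 * s + 241) < 2 ^ b :=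
      Nat.pow_lt_pow_right Nat.one_lt_two (lt_trans (Nat.add_lt_add_left (by norm_num) _) hlin)
    exact q5.trans_lt (lt_of_eq_of_lt (pow_id s) q8)
  have hreal := real_all (W := W) (l := l) (K := s * l) (M := b ^ 2) (Q := b ^ 3) (R := b)
    (x := l + 1) (y := l + 1 + 1 + L) (β := 4 ^ s) (n₀ := 128 * b ^ 41)
    (m := (l + 1 + 1 + L) / (s * l) + 1) (G := 8 * b ^ 5) hW (by omega) (by positivity)
    (pb_beta (by omega) le_rfl) (by exact_mod_cast (show 4 ^ s ≤ b ^ 2 by omega))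
    (by
      have : 4 ^ s * (l + 1) ≤ b ^ 2 * (b ^ 2 * b ^ 3) := by rw [← hb, hl]; exact le_of_eq (by ring)
      exact_mod_cast this)
    (by
      have : 128 * 4 ^ s * (l + 1) ^ 2 * (s * l + 1) ^ 4 ≤ 128 * b ^ 41 := by
        rw [← hb, hl]
        exact (Nat.mul_le_mul_left _ (Nat.pow_le_pow_left hK 4)).trans (le_of_eq (by ring))
      exact_mod_cast this)
    hR (by omega) hx hy (by omega) (by rw [mul_comm]; exact (Nat.lt_mul_div_succ _ hsl).le)
    (by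
      have : (2 * (b ^ 2 * b ^ 2 + 1) + b ^ 2) * b = 2 * b ^ 5 + 2 * b + b ^ 3 := by ring
      have e : b ^ 2 * b ^ 3 = b ^ 5 := by ring
      omega)
  obtain ⟨f, hf⟩ := (hreal.mono (cost_le (by omega) (by omega) hb4 hl h1 hL)).perm
    (by rw [w3 _ le_rfl, w1 _ le_rfl]; rfl)
  refine ⟨fun a => f (some a), fun e => hf ?_⟩
  have key : ∀ t ≤ L, FreeGroup.lift f (pre (sh W (l + 1 + 1)) t) =
      FreeGroup.lift (fun a => f (some a)) (pre V t) := by
    intro t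
    induction t with
    | zero => simp [pre]
    | succ t ih =>
      intro ht
      rw [pre, pre, map_mul, map_mul, ih (by omega), sh, w2 t ht]
      congr 1
  rw [key L le_rfl, hpre, e]

end Pool.Agent.P.MP_de9ecd_al.Law
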