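import Pool.Agent.P.MP_de9ecd_al.Law1

/-!
# Laws of symmetric groups: closing periodic rays of the tree to cycles
-/

namespace Pool.Agent.P.MP_de9ecd_al.Law

open Equiv Finset

variable {α Y ι : Type}

theorem multi_swap (σ : α → Perm Y) (D : Finset ι) (l : ι → α × Bool) (u : ι → Bool → Y)
    (h : ∀ i ∈ D, ∀ j ∈ D, ∀ ε ε', ed σ (l i) (u i ε) = ed σ (l j) (u j ε') → i = j) :
    ∃ σ' : α → Perm Y, (∀ i ∈ D, st σ' (l i) (u i true) = st σ (l i) (u i false)) ∧
      ∀ l' v, (∀ i ∈ D, ∀ ε, ed σ l' v ≠ ed σ (l i) (u i ε)) → st σ' l' v = st σ l' v := by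
  classical
  induction D using Finset.induction_on with
  | empty => exact ⟨σ, by simp, fun _ _ _ => rfl⟩
  | insert i D hi ih =>
    obtain ⟨σ₁, h1, h2⟩ := ih fun a ha b hb => h a (mem_insert_of_mem ha) b (mem_insert_of_mem hb)
    obtain ⟨σ₂, h3, h4⟩ := swap_ex σ₁ (l i) (u i true) (u i false)
    have k : ∀ ε, st σ₁ (l i) (u i ε) = st σ (l i) (u i ε) := fun ε => h2 _ _ fun j hj ε' e =>
      hi (h i (mem_insert_self _ _) j (mem_insert_of_mem hj) ε ε' e ▸ hj)
    refine ⟨σ₂, fun j hj => ?_, fun l' v hv => ?_⟩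
    · rcases mem_insert.1 hj with rfl | hj'
      · rw [h3, k]
      · have : ∀ ε, ed σ₁ (l j) (u j true) ≠ ed σ₁ (l i) (u i ε) := fun ε e => by
          rw [ed_congr (k ε)] at e
          rcases ed_swap (h1 j hj') with e' | e' <;> rw [e'] at e <;>
            exact hi (h j hj i (mem_insert_self _ _) _ _ e ▸ hj')
        rw [h4 _ _ (this _) (this _), h1 j hj']
    · have e := h2 l' v fun j hj => hv j (mem_insert_of_mem hj)
      have : ∀ ε, ed σ₁ l' v ≠ ed σ₁ (l i) (u i ε) := fun ε => by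
        rw [ed_congr (k ε), ed_congr e]
        exact hv i (mem_insert_self _ _) ε
      rw [h4 _ _ (this _) (this _), e]

/-- The periodic sequence that starts at `a`. -/
def pu (W : ℕ → α × Bool) (a d : ℕ) : ℕ → α × Bool := fun t => W (a + t % d)

/-- A maximal periodic run of length `s` and the length `c` of the cycle on which it is put. -/
structure Dat (W : ℕ → α × Bool) (M x y a s c d : ℕ) : Prop where
  d0 : 0 < d
  dM : d ≤ M
  dc : d ∣ c
  xa : x < a
  ay : a + s ≤ y
  sM : M * M < s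
  sc : s + 2 * (M * M + 1) ≤ c
  per : ∀ t < s, W (a + t) = pu W a d t
  rb : W (a + s) ≠ pu W a d s
  lb : W (a - 1) ≠ W (a + (d - 1))

/-- The walk together with closed cycles. -/
def RealC (W : ℕ → α × Bool) (x y : ℕ) (D : Finset ℕ) (c d : ℕ → ℕ) (n : ℕ) : Prop :=
  ∃ (Y : Type) (σ : α → Perm Y) (p : ℕ → Y) (S : Finset Y), S.card ≤ n ∧
    (∀ t, x ≤ t → t ≤ y + 1 → p t ∈ S) ∧
    (∀ t, x ≤ t → t ≤ y → p (t + 1) = st σ (W t) (p t)) ∧
    (∀ t t', (t = x ∨ t = y) → x ≤ t' → t' ≤ y → ed σ (W t) (p t) = ed σ (W t') (p t') → t = t') ∧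
    ∀ a ∈ D, walk σ (pu W a (d a)) (p a) (c a) = p a ∧ ∀ t < c a,
      walk σ (pu W a (d a)) (p a) t ∈ S ∧
        ∀ t', (t' = x ∨ t' = y) → edg σ (pu W a (d a)) (p a) t ≠ ed σ (W t') (p t')

theorem pu_add (W : ℕ → α × Bool) (a : ℕ) {d k : ℕ} (h : d ∣ k) (t : ℕ) :
    pu W a d (t + k) = pu W a d t := by
  obtain ⟨j, rfl⟩ := h
  simp [pu]

/-- The two rays that leave the main path. -/
def br (W : ℕ → α × Bool) (a c d : ℕ) (ε : Bool) : ℕ → α × Bool := fun t =>
  if t < a then W t else cond ε (pu W a d (t - a)) (iv (pu W a d (c - 1 - (t - a))))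

variable {W : ℕ → α × Bool} {M x y a s c d : ℕ}

theorem Dat.red (h : Dat W M x y a s c d) (hW : Red W) : Red (pu W a d) := fun t => by
  have h1 := Nat.mod_lt t h.d0
  have h2 : M ≤ M * M := Nat.le_mul_self M
  have h3 := h.per (t % d + 1) (by have := h.dM; have := h.sM; omega)
  have e : pu W a d (t + 1) = pu W a d (t % d + 1) := by simp [pu]
  rw [e, ← h3]
  exact hW (a + t % d)

theorem Dat.red_br (h : Dat W M x y a s c d) (hW : Red W) (ε : Bool) : Red (br W a c d ε) := by
  intro t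
  have hc := h.sc
  rcases lt_trichotomy (t + 1) a with ht | ht | ht
  · simp only [br, if_pos ht, if_pos (show t < a by omega)]
    exact hW t
  · subst ht
    simp only [br, lt_irrefl, if_false, if_pos (Nat.lt_succ_self t), Nat.sub_self]
    cases ε
    · intro e
      refine h.lb ?_
      obtain ⟨k, hk⟩ := h.dc
      have hd := h.d0
      obtain ⟨k, rfl⟩ : ∃ j, k = j + 1 := ⟨k - 1, by rcases k with _ | k <;> simp_all⟩
      have e1 : c - 1 - 0 = d - 1 + d * k := by rw [hk, mul_add]; omega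
      have e2 := iv_inj e
      rw [e1, pu_add W _ (dvd_mul_right d k), pu, Nat.mod_eq_of_lt (by omega)] at e2
      exact e2.symm
    · simpa [pu] using hW t
  · simp only [br, if_neg (show ¬ t + 1 < a by omega), if_neg (show ¬ t < a by omega)]
    cases ε
    · simp only [cond_false, iv_iv]
      by_cases h0 : c - 1 - (t - a) = 0
      · rw [h0, show c - 1 - (t + 1 - a) = 0 by omega]
        exact iv_ne _
      · rw [show c - 1 - (t - a) = c - 1 - (t + 1 - a) + 1 by omega]
        exact (h.red hW _).symm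
    · rw [show t + 1 - a = t - a + 1 by omega]
      exact h.red hW _

theorem Dat.br_lt (h : Dat W M x y a s c d) {ε : Bool} {t : ℕ} (ht : t < a + cond ε s 0) :
    br W a c d ε t = W t := by
  rw [br]
  split_ifs with h1
  · rfl
  · cases ε
    · exact absurd ht h1
    · rw [cond_true] at ht ⊢
      rw [← h.per _ (by omega), Nat.add_sub_cancel' (not_lt.1 h1)]

theorem Dat.br_ne (h : Dat W M x y a s c d) (hW : Red W) (ε : Bool) :
    br W a c d ε (a + cond ε s 0) ≠ W (a + cond ε s 0) := by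
  rw [br, if_neg (by omega)]
  cases ε
  · have := h.red hW (c - 1)
    have hc := h.sc
    rw [show c - 1 + 1 = 0 + c by omega, pu_add W a h.dc] at this
    simpa [pu] using this.symm
  · simpa using h.rb.symm

theorem Dat.clash {a' s' c' d' : ℕ} (h : Dat W M x y a s c d) (h' : Dat W M x y a' s' c' d')
    (hW : Red W) (e : a + s = a') :
    ∃ j < M * M, br W a c d true (a' + j) ≠ br W a' c' d' false (a' + j) := by
  have h1 : d * d' ≤ M * M := Nat.mul_le_mul h.dM h'.dM
  have h2 : 0 < d * d' := Nat.mul_pos h.d0 h'.d0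
  have h3 := h'.sc
  have h4 := h.sM
  refine ⟨d * d' - 1, by omega, fun e' => hW (a + (s - 1)) ?_⟩
  rw [br, br, if_neg (by omega), if_neg (by omega), cond_true, cond_false,
    show a' + (d * d' - 1) - a = s - 1 + d * d' by omega, pu_add W a (dvd_mul_right d d'),
    ← h.per _ (by omega), show c' - 1 - (a' + (d * d' - 1) - a') = 0 + (c' - d * d') by omega,
    pu_add W a' (Nat.dvd_sub h'.dc (dvd_mul_left d' d))] at e'
  rw [e', iv_iv, show a + (s - 1) + 1 = a' by omega]
  simp [pu]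

theorem realC_tree (hW : Red W) (D : Finset ℕ) (s c d : ℕ → ℕ)
    (h : ∀ a ∈ D, Dat W M x y a (s a) (c a) (d a))
    (hi : ∀ a ∈ D, ∀ a' ∈ D, a + s a = a' + s a' → a = a') :
    RealC W x y D c d (y + 2 - x + ∑ a ∈ D, c a) := by
  classical
  obtain ⟨Z, hZ⟩ : ∃ Z : ℕ → Bool → ℕ → α × Bool, Z = fun a => br W a (c a) (d a) := ⟨_, rfl⟩
  obtain ⟨μ, hμ⟩ : ∃ μ : ℕ → Bool → ℕ, ∀ a ε,
    μ a ε = a + cond ε (s a + (M * M + 1)) (c a - s a - (M * M + 1) - 1) := ⟨_, fun _ _ => rfl⟩
  have zr : ∀ a ∈ D, ∀ ε, Red (Z a ε) := fun a ha ε => hZ ▸ (h a ha).red_br hW ε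
  have zl : ∀ a ∈ D, ∀ ε t, t < a + cond ε (s a) 0 → Z a ε t = W t := fun a ha ε t ht =>
    hZ ▸ (h a ha).br_lt ht
  have zn : ∀ a ∈ D, ∀ ε, Z a ε (a + cond ε (s a) 0) ≠ W (a + cond ε (s a) 0) := fun a ha ε =>
    hZ ▸ (h a ha).br_ne hW ε
  have zt : ∀ a t, Z a true (a + t) = pu W a (d a) t := fun a t => by simp [hZ, br]
  have zf : ∀ a t, Z a false (a + t) = iv (pu W a (d a) (c a - 1 - t)) := fun a t => by
    simp [hZ, br]
  have hm : ∀ a ∈ D, ∀ ε, a + cond ε (s a) 0 + M * M ≤ μ a ε := fun a ha ε => by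
    have := (h a ha).sc
    rw [hμ]
    cases ε <;> simp only [cond_true, cond_false] <;> omega
  have K1 : ∀ a ∈ D, ∀ ε t t', edg (tree α) (Z a ε) 1 t = edg (tree α) W 1 t' →
      t = t' ∧ t < a + cond ε (s a) 0 := fun a ha ε t t' e => by
    have := edg_tree (zr a ha ε) hW e
    exact ⟨this.1, not_le.1 fun hle => zn a ha ε (this.2 _ hle)⟩
  have K2 : ∀ a ∈ D, ∀ a' ∈ D, ∀ ε ε' t, edg (tree α) (Z a ε) 1 (μ a ε) =
      edg (tree α) (Z a' ε') 1 t → a = a' ∧ ε = ε' ∧ μ a ε = t := fun a ha a' ha' ε ε' t e => by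
    obtain ⟨e1, e2⟩ := edg_tree (zr a ha ε) (zr a' ha' ε') e
    have h1 := hm a ha ε
    rcases lt_trichotomy (a + cond ε (s a) 0) (a' + cond ε' (s a') 0) with hlt | heq | hlt
    · exact absurd ((e2 _ (by omega)).trans (zl a' ha' ε' _ hlt)) (zn a ha ε)
    · cases ε <;> cases ε' <;> simp only [cond_true, cond_false, add_zero] at heq h1
      · exact ⟨heq, rfl, e1⟩
      · obtain ⟨j, hj, hne⟩ := (h a' ha').clash (h a ha) hW heq.symm
        exact absurd (by simpa only [hZ] using (e2 (a + j) (by omega)).symm) hne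
      · obtain ⟨j, hj, hne⟩ := (h a ha).clash (h a' ha') hW heq
        exact absurd (by simpa only [hZ] using e2 (a' + j) (by omega)) hne
      · exact ⟨hi a ha a' ha' heq, rfl, e1⟩
    · exact absurd ((e2 _ (by omega)).symm.trans (zl a ha ε _ hlt)) (zn a' ha' ε')
  have back : ∀ a t, t < c a → st (tree α) (pu W a (d a) t)
      (walk (tree α) (Z a false) 1 (a + (c a - t))) = walk (tree α) (Z a false) 1 (a + (c a - (t + 1))) ∧
      ed (tree α) (pu W a (d a) t) (walk (tree α) (Z a false) 1 (a + (c a - t))) =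
        edg (tree α) (Z a false) 1 (a + (c a - (t + 1))) := fun a t ht => by
    have e := zf a (c a - (t + 1))
    rw [show c a - 1 - (c a - (t + 1)) = t by omega] at e
    rw [show a + (c a - t) = a + (c a - (t + 1)) + 1 by omega, walk, ← iv_iv (pu W a (d a) t), ← e]
    exact ⟨st_iv _ _ _, ed_iv _ _ _⟩
  obtain ⟨u, hu⟩ : ∃ u : ℕ → Bool → FreeGroup α, ∀ a ε, u a ε =
    walk (tree α) (Z a ε) 1 (a + cond ε (s a + (M * M + 1)) (c a - (s a + (M * M + 1)))) :=
    ⟨_, fun _ _ => rfl⟩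
  have eu : ∀ a ∈ D, ∀ ε, ed (tree α) (pu W a (d a) (s a + (M * M + 1))) (u a ε) =
      edg (tree α) (Z a ε) 1 (μ a ε) := fun a ha ε => by
    have := (h a ha).sc
    rw [hu, hμ]
    cases ε
    · rw [cond_false, cond_false, (back a _ (by omega)).2]
      congr 2
      omega
    · rw [cond_true, cond_true, edg, zt]
  obtain ⟨σ, s1, s2⟩ := multi_swap (tree α) D (fun a => pu W a (d a) (s a + (M * M + 1))) u
    fun a ha a' ha' ε ε' e => (K2 a ha a' ha' ε ε' _ ((eu a ha ε).symm.trans (e.trans (eu a' ha' ε')))).1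
  have main : ∀ t, st σ (W t) (walk (tree α) W 1 t) = st (tree α) (W t) (walk (tree α) W 1 t) :=
    fun t => s2 _ _ fun a ha ε e => by
      have := K1 a ha ε _ t ((eu a ha ε).symm.trans e.symm)
      have := hm a ha ε
      omega
  have side : ∀ a ∈ D, ∀ ε t l v, t < μ a ε → ed (tree α) l v = edg (tree α) (Z a ε) 1 t →
      st σ l v = st (tree α) l v := fun a ha ε t l v ht e => s2 _ _ fun a' ha' ε' e' => by
    obtain ⟨rfl, rfl, h3⟩ := K2 a' ha' a ha ε' ε t ((eu a' ha' ε').symm.trans (e'.symm.trans e))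
    omega
  obtain ⟨cy, hcy⟩ : ∃ cy : ℕ → ℕ → FreeGroup α, ∀ a t, cy a t = if t ≤ s a + (M * M + 1) then
    walk (tree α) (Z a true) 1 (a + t) else walk (tree α) (Z a false) 1 (a + (c a - t)) :=
    ⟨_, fun _ _ => rfl⟩
  have step : ∀ a ∈ D, ∀ t < c a, st σ (pu W a (d a) t) (cy a t) = cy a (t + 1) ∧
      ∃ ε j, ed σ (pu W a (d a) t) (cy a t) = edg (tree α) (Z a ε) 1 (a + j) := by
    intro a ha t ht
    rcases lt_trichotomy t (s a + (M * M + 1)) with hlt | rfl | hlt
    · have e : ed (tree α) (pu W a (d a) t) (cy a t) = edg (tree α) (Z a true) 1 (a + t) := by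
        rw [hcy, if_pos hlt.le, edg, zt]
      have e' := side a ha true _ _ _ (by rw [hμ, cond_true]; omega) e
      refine ⟨?_, true, t, (ed_congr e').trans e⟩
      rw [e', hcy, hcy, if_pos hlt.le, if_pos (by omega), ← add_assoc, walk, zt]
    · have e : cy a (s a + (M * M + 1)) = u a true := by rw [hcy, if_pos le_rfl, hu, cond_true]
      rw [e]
      refine ⟨?_, ?_⟩
      · rw [s1 a ha, hu, cond_false, (back a _ ht).1, hcy, if_neg (by omega)]
      · rcases ed_swap (s1 a ha) with e' | e' <;> rw [e', eu a ha, hμ] <;> exact ⟨_, _, rfl⟩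
    · have e : ed (tree α) (pu W a (d a) t) (cy a t) =
          edg (tree α) (Z a false) 1 (a + (c a - (t + 1))) := by
        rw [hcy, if_neg (by omega), (back a t ht).2]
      have e' := side a ha false _ _ _ (by rw [hμ, cond_false]; omega) e
      refine ⟨?_, false, _, (ed_congr e').trans e⟩
      rw [e', hcy, hcy, if_neg (by omega), if_neg (by omega), (back a t ht).1]
  have w0 : ∀ a ∈ D, ∀ ε, walk (tree α) (Z a ε) 1 a = walk (tree α) W 1 a := fun a ha ε =>
    walk_congr _ _ fun i hi => zl a ha ε i (by omega)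
  have wc : ∀ a ∈ D, ∀ t ≤ c a, walk σ (pu W a (d a)) (walk (tree α) W 1 a) t = cy a t := by
    intro a ha t
    induction t with
    | zero => intro _; rw [hcy, if_pos (Nat.zero_le _), add_zero, w0 a ha, walk]
    | succ t ih => intro ht; rw [walk, ih (by omega), (step a ha t ht).1]
  refine ⟨_, σ, walk (tree α) W 1, (Icc x (y + 1)).image (walk (tree α) W 1) ∪
    D.biUnion fun a => (range (c a)).image (cy a), ?_, fun t h1 h2 => ?_,
    fun t _ _ => (main t).symm, fun t t' _ _ _ e => ?_, fun a ha => ⟨?_, fun t ht => ⟨?_, ?_⟩⟩⟩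
  · refine (card_union_le _ _).trans (add_le_add (card_image_le.trans (by simp))
      (card_biUnion_le.trans (sum_le_sum fun a _ => card_image_le.trans (by simp))))
  · exact mem_union_left _ (mem_image_of_mem _ (mem_Icc.2 ⟨h1, h2⟩))
  · rw [ed_congr (main t), ed_congr (main t')] at e
    exact (edg_tree hW hW e).1
  · have := (h a ha).sc
    rw [wc a ha _ le_rfl, hcy, if_neg (by omega), Nat.sub_self, add_zero, w0 a ha]
  · rw [wc a ha t ht.le]
    exact mem_union_right _ (mem_biUnion.2 ⟨a, ha, mem_image_of_mem _ (mem_range.2 ht)⟩)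
  · intro t' ht' e
    obtain ⟨-, ε, j, e'⟩ := step a ha t ht
    rw [edg, wc a ha t ht.le, e', ed_congr (main t')] at e
    have h1 := K1 a ha ε _ t' e
    have h2 := (h a ha).xa
    have h3 := (h a ha).ay
    cases ε <;> simp only [cond_true, cond_false] at h1 <;> omega

end Pool.Agent.P.MP_de9ecd_al.Law
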