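import Pool.Agent.P.MP_de9ecd_al.Law2

/-!
# Laws of symmetric groups: segments that are almost covered by periodic runs
-/

namespace Pool.Agent.P.MP_de9ecd_al.Law

open Equiv Finset

variable {α Y : Type} {W W' : ℕ → α × Bool} {M l x y q t a m d : ℕ}

/-- The window of length `l` at `t` has a period at most `M`. -/
def fb (W : ℕ → α × Bool) (M l t : ℕ) : Prop :=
  ∃ d, 0 < d ∧ d ≤ M ∧ ∀ i, i + d < l → W (t + i + d) = W (t + i)

theorem per_mul (h : ∀ i, i + d < l → W (t + i + d) = W (t + i)) (j i : ℕ) (hj : i + j * d < l) :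
    W (t + i + j * d) = W (t + i) := by
  induction j with
  | zero => simp
  | succ j ih =>
    rw [Nat.succ_mul] at hj ⊢
    rw [← ih (by omega), ← add_assoc, add_assoc t i, h _ (by omega)]

theorem fb_congr {t' : ℕ} (h : fb W M l t) (e : ∀ i < l, W' (t' + i) = W (t + i)) : fb W' M l t' := by
  obtain ⟨d, h0, h1, h2⟩ := h
  refine ⟨d, h0, h1, fun i hi => ?_⟩
  rw [add_assoc, e _ hi, e _ (by omega), ← add_assoc, h2 i hi]

theorem nofb (hd : d ≤ M) (per : ∀ j < m, W (a + j) = pu W a d j) (rb : W (a + m) ≠ pu W a d m)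
    (h0 : 0 < d) (hm : M * M ≤ m) (h1 : t + M * M ≤ a + m) (h2 : a + m < t + l) : ¬ fb W M l t := by
  rintro ⟨d', k0, k1, k2⟩
  have h3 : d * d' ≤ M * M := Nat.mul_le_mul hd k1
  have h4 : 0 < d * d' := Nat.mul_pos h0 k0
  have e := per_mul k2 d (a + m - d * d' - t) (by omega)
  rw [show t + (a + m - d * d' - t) + d * d' = a + m by omega,
    show t + (a + m - d * d' - t) = a + (m - d * d') by omega, per (m - d * d') (by omega),
    ← pu_add W a (dvd_mul_right d d'), show m - d * d' + d * d' = m by omega] at e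
  exact rb e

theorem exists_run (hq : ¬ fb W M l q) (ht : q ≤ t) (h : fb W M l t) (hy : t + l ≤ y + 1)
    (hy' : ¬ fb W M l (y + 1 - l)) (hl : M < l) : ∃ a m d, 0 < d ∧ d ≤ M ∧ q < a ∧ a ≤ t ∧
      t + l ≤ a + m ∧ a + m ≤ y ∧ (∀ j < m, W (a + j) = pu W a d j) ∧ W (a + m) ≠ pu W a d m ∧
      W (a - 1) ≠ W (a + (d - 1)) := by
  classical
  obtain ⟨d, h0, h1, h2⟩ := h
  have k : ∃ u, ∀ i, u ≤ i → i + d < t + l → W (i + d) = W i := ⟨t, fun i a b => by
    have := h2 (i - t) (by omega)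
    rwa [show t + (i - t) = i by omega] at this⟩
  have k1 := Nat.find_spec k
  have k2 : Nat.find k ≤ t := Nat.find_min' k fun i a b => by
    have := h2 (i - t) (by omega)
    rwa [show t + (i - t) = i by omega] at this
  have k3 : q < Nat.find k := by
    by_contra c
    exact hq ⟨d, h0, h1, fun i hi => k1 _ (by omega) (by omega)⟩
  have k4 := Nat.find_min k (m := Nat.find k - 1) (by omega)
  generalize Nat.find k = a at k1 k2 k3 k4
  have r : ∃ e, t + l ≤ e ∧ e ≤ y ∧ W e ≠ W (e - d) := by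
    by_contra c
    push Not at c
    refine hy' ⟨d, h0, h1, fun i hi => ?_⟩
    rcases lt_or_ge (y + 1 - l + i + d) (t + l) with c' | c'
    · exact k1 _ (by omega) c'
    · simpa using c _ c' (by omega)
  obtain ⟨r1, r2, r3⟩ := Nat.find_spec r
  have r4 := fun e => Nat.find_min r (m := e)
  generalize Nat.find r = b at r1 r2 r3 r4
  have per : ∀ j < b - a, W (a + j) = pu W a d j := by
    intro j
    induction j using Nat.strong_induction_on with
    | _ j ih =>
    intro hj
    rcases lt_or_ge j d with c | c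
    · rw [pu, Nat.mod_eq_of_lt c]
    · rw [show j = j - d + d by omega, pu_add W a dvd_rfl, ← ih (j - d) (by omega) (by omega),
        ← add_assoc]
      rcases lt_or_ge (a + (j - d) + d) (t + l) with c' | c'
      · exact k1 _ (by omega) c'
      · by_contra c''
        exact r4 (a + (j - d) + d) (by omega) ⟨c', by omega, by simpa using c''⟩
  refine ⟨a, b - a, d, h0, h1, k3, k2, by omega, by omega, per, fun e => r3 ?_, fun e => k4 ?_⟩
  · rw [show a + (b - a) = b by omega, show b - a = b - a - d + d by omega, pu_add W a dvd_rfl,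
      ← per _ (by omega)] at e
    rw [e]
    congr 1
    omega
  · intro i a1 a2
    rcases a1.lt_or_eq with c | rfl
    · exact k1 i (by omega) a2
    · rw [e]
      congr 1
      omega

theorem walk_per (σ : α → Perm Y) {V : ℕ → α × Bool} {v : Y} {c : ℕ} (hV : ∀ t, V (t + c) = V t)
    (h : walk σ V v c = v) (k t : ℕ) : walk σ V v (t + c * k) = walk σ V v t ∧ V (t + c * k) = V t := by
  have h1 : ∀ t, walk σ V v (t + c) = walk σ V v t := fun t => by
    induction t with
    | zero => simpa [walk] using h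
    | succ t ih => rw [add_right_comm, walk, walk, ih, hV]
  induction k with
  | zero => simp
  | succ k ih => rw [Nat.mul_succ, ← add_assoc, h1, hV]; exact ih

/-- The walk goes round the cycle several times. -/
theorem RealC.unwrap {D : Finset ℕ} {c dd : ℕ → ℕ} {n k : ℕ}
    (h : RealC W' x y (insert a D) c dd n) (hx : x < a) (hy : a ≤ y) (hd : dd a ∣ c a)
    (hc : 0 < c a) (e1 : ∀ t < a, W' t = W t) (e2 : ∀ t, a ≤ t → W' t = W (t + c a * k))
    (e3 : ∀ j < c a * k, W (a + j) = pu W' a (dd a) j)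
    (hD : ∀ a' ∈ D, a' < a ∧ pu W' a' (dd a') = pu W a' (dd a')) :
    RealC W x (y + c a * k) D c dd n := by
  obtain ⟨Y, σ, p, S, h1, h2, h3, h4, h5⟩ := h
  obtain ⟨g1, g2⟩ := h5 a (mem_insert_self _ _)
  have g3 := walk_per σ (pu_add W' a hd) g1
  have g4 : ∀ j, ∃ i < c a, walk σ (pu W' a (dd a)) (p a) j = walk σ (pu W' a (dd a)) (p a) i ∧
      pu W' a (dd a) j = pu W' a (dd a) i := fun j =>
    ⟨j % c a, Nat.mod_lt _ hc, by simpa [Nat.mod_add_div] using g3 (j / c a) (j % c a)⟩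
  obtain ⟨K, hK⟩ : ∃ K, K = c a * k := ⟨_, rfl⟩
  have g5 : walk σ (pu W' a (dd a)) (p a) K = p a := by simpa [walk, hK] using (g3 k 0).1
  rw [← hK] at e2 e3 ⊢
  obtain ⟨P, p1, p2, p3⟩ : ∃ P : ℕ → Y, (∀ t ≤ a, P t = p t) ∧
      (∀ j ≤ K, P (a + j) = walk σ (pu W' a (dd a)) (p a) j) ∧ ∀ t, a ≤ t → P (t + K) = p t := by
    refine ⟨fun t => if t < a then p t else if t < a + K then
      walk σ (pu W' a (dd a)) (p a) (t - a) else p (t - K), fun t ht => ?_, fun j hj => ?_,
      fun t ht => ?_⟩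
    · beta_reduce
      split_ifs with c1 c2
      · rfl
      · rw [show t = a by omega, Nat.sub_self, walk]
      · congr 1
        omega
    · beta_reduce
      rw [if_neg (by omega)]
      split_ifs with c1
      · rw [Nat.add_sub_cancel_left]
      · rw [show j = K by omega, g5, Nat.add_sub_cancel]
    · beta_reduce
      rw [if_neg (by omega), if_neg (by omega), Nat.add_sub_cancel]
  have cs : ∀ t, t < a ∨ (∃ j < K, t = a + j) ∨ ∃ u, a ≤ u ∧ t = u + K := fun t => by
    rcases lt_or_ge t a with c1 | c1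
    · exact .inl c1
    rcases lt_or_ge t (a + K) with c2 | c2
    · exact .inr (.inl ⟨t - a, by omega, by omega⟩)
    · exact .inr (.inr ⟨t - K, by omega, by omega⟩)
  have ct : ∀ t, t = x ∨ t = y + K → ∃ u, (u = x ∨ u = y) ∧ ed σ (W t) (P t) = ed σ (W' u) (p u) ∧
      (u < a → t = u) ∧ (a ≤ u → t = u + K) := by
    rintro t (rfl | rfl)
    · exact ⟨t, .inl rfl, by rw [e1 t hx, p1 t hx.le], fun _ => rfl, by omega⟩
    · exact ⟨y, .inr rfl, by rw [e2 y hy, p3 y hy], by omega, fun _ => rfl⟩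
  refine ⟨Y, σ, P, S, h1, fun t a1 a2 => ?_, fun t a1 a2 => ?_, fun t t' a0 a1 a2 e => ?_,
    fun a' ha' => ?_⟩
  · rcases cs t with c1 | ⟨j, c1, rfl⟩ | ⟨u, c1, rfl⟩
    · rw [p1 t c1.le]
      exact h2 t a1 (by omega)
    · obtain ⟨i, i1, i2, -⟩ := g4 j
      rw [p2 j c1.le, i2]
      exact (g2 i i1).1
    · rw [p3 u c1]
      exact h2 u (by omega) (by omega)
  · rcases cs t with c1 | ⟨j, c1, rfl⟩ | ⟨u, c1, rfl⟩
    · rw [p1 t c1.le, p1 _ c1, h3 t a1 (by omega), e1 t c1]
    · rw [add_assoc, p2 j c1.le, p2 _ c1, walk, e3 j c1]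
    · rw [add_right_comm, p3 u c1, p3 _ (by omega), h3 u (by omega) (by omega), e2 u c1]
  · obtain ⟨u, u1, u2, u3, u4⟩ := ct t a0
    rw [u2] at e
    rcases cs t' with c1 | ⟨j, c1, rfl⟩ | ⟨u', c1, rfl⟩
    · rw [p1 t' c1.le, ← e1 t' c1] at e
      have := h4 u t' u1 a1 (by omega) e
      omega
    · obtain ⟨i, i1, i2, i3⟩ := g4 j
      rw [p2 j c1.le, e3 j c1, i2, i3] at e
      exact absurd e.symm ((g2 i i1).2 u u1)
    · rw [p3 u' c1, ← e2 u' c1] at e
      have := h4 u u' u1 (by omega) (by omega) e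
      omega
  · obtain ⟨b1, b2⟩ := hD a' ha'
    obtain ⟨b3, b4⟩ := h5 a' (mem_insert_of_mem ha')
    rw [← b2, p1 a' b1.le]
    refine ⟨b3, fun t ht => ⟨(b4 t ht).1, fun t' a0 => ?_⟩⟩
    obtain ⟨u, u1, u2, -⟩ := ct t' a0
    rw [u2]
    exact (b4 t ht).2 u u1

theorem Dat.congr {s c y' : ℕ} (h : Dat W M x y a s c d) (e : ∀ t ≤ a + s, W' t = W t)
    (hy : a + s ≤ y') : Dat W' M x y' a s c d ∧ pu W' a d = pu W a d := by
  have h1 := h.dM
  have h2 := h.sM
  have h3 : M ≤ M * M := Nat.le_mul_self M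
  have k : pu W' a d = pu W a d := funext fun t => e _ (by have := Nat.mod_lt t h.d0; omega)
  refine ⟨⟨h.d0, h.dM, h.dc, h.xa, hy, h.sM, h.sc, fun t ht => ?_, ?_, ?_⟩, k⟩
  · rw [k, e _ (by omega), h.per t ht]
  · rw [k, e _ le_rfl]
    exact h.rb
  · rw [e _ (by omega), e _ (by omega)]
    exact h.lb

/-- Every point after `q + h` is close to a periodic window. -/
def Cov (W : ℕ → α × Bool) (M l w q h y : ℕ) : Prop :=
  ∀ z, q + h ≤ z → z ≤ y → ∃ t, q ≤ t ∧ fb W M l t ∧ t ≤ z + w ∧ z ≤ t + l + w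

theorem gad {U C w : ℕ} (hl : M * M + M < l)
    (hc : ∀ d m, 0 < d → d ≤ M → l ≤ m → m ≤ U →
      ∃ c, d ∣ c ∧ M * M < m % c ∧ m % c + 2 * (M * M + 1) ≤ c ∧ c ≤ C) (F : ℕ) :
    ∀ (W : ℕ → α × Bool) (y q h : ℕ) (D : Finset ℕ) (s c d : ℕ → ℕ), Red W → y ≤ U → x ≤ q →
      y ≤ q + F * (l - M * M) → ¬ fb W M l q → (q + l ≤ y + 1 → ¬ fb W M l (y + 1 - l)) →
      Cov W M l w q h y → (∀ a ∈ D, Dat W M x y a (s a) (c a) (d a) ∧ a + s a ≤ q + M * M) →
      (∀ a ∈ D, ∀ a' ∈ D, a + s a = a' + s a' → a = a') →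
      RealC W x y D c d (q - x + ∑ a ∈ D, c a + h + w + l + 2 + F * (2 * C + 2 * w + 1)) := by
  have mono : ∀ {W : ℕ → α × Bool} {y D c d n n'}, RealC W x y D c d n → n ≤ n' →
      RealC W x y D c d n' := fun ⟨Y, σ, p, S, h1, h2⟩ hn => ⟨Y, σ, p, S, h1.trans hn, h2⟩
  induction F with
  | zero =>
    intro W y q h D s c d hW _ hx hy _ _ _ hD hi
    exact mono (realC_tree hW D s c d (fun a ha => (hD a ha).1) hi) (by omega)
  | succ F ih =>
    intro W y q h D s c d hW hU hx hy hq hy' hv hD hi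
    by_cases hs : y ≤ q + h + w + l
    · exact mono (realC_tree hW D s c d (fun a ha => (hD a ha).1) hi) (by omega)
    obtain ⟨t, t1, t2, t3, t4⟩ := hv (q + h) le_rfl (by omega)
    obtain ⟨a, m, d₀, r1, r2, r3, r4, r5, r6, r7, r8, r9⟩ :=
      exists_run hq t1 t2 (by omega) (hy' (by omega)) (by omega)
    obtain ⟨c₀, c1, c2, c3, c4⟩ := hc d₀ m r1 r2 (by omega) (by omega)
    have c5 := Nat.mod_add_div m c₀
    have c6 : d₀ ∣ c₀ * (m / c₀) := c1.mul_right _
    generalize m % c₀ = s₀ at c2 c3 c5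
    generalize m / c₀ = k at c5 c6
    obtain ⟨K, hK⟩ : ∃ K, K = c₀ * k := ⟨_, rfl⟩
    rw [← hK] at c5 c6
    have hM : M ≤ M * M := Nat.le_mul_self M
    obtain ⟨W', e1, e2⟩ : ∃ W' : ℕ → α × Bool, (∀ t < a, W' t = W t) ∧
        ∀ t, a ≤ t → W' t = W (t + K) :=
      ⟨fun t => if t < a then W t else W (t + K), fun t ht => if_pos ht, fun t ht => if_neg (by omega)⟩
    have e3 : ∀ t < a + s₀, W' t = W t := fun t ht => by
      rcases lt_or_ge t a with c | c
      · exact e1 t c
      · obtain ⟨j, rfl⟩ := Nat.exists_eq_add_of_le c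
        rw [e2 _ c, add_assoc, r7 _ (by omega), r7 _ (by omega), pu_add W a c6]
    have e4 : pu W' a d₀ = pu W a d₀ := funext fun t => e3 _ (by have := Nat.mod_lt t r1; omega)
    have hW' : Red W' := fun t => by
      rcases lt_or_ge t a with c | c
      · rw [e3 _ (by omega), e1 t c]
        exact hW t
      · rw [e2 t c, e2 _ (by omega), add_right_comm]
        exact hW _
    have na : ∀ a' ∈ D, a' < a := fun a' ha' => by
      have := (hD a' ha').1.sM
      have := (hD a' ha').2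
      omega
    have na' : a ∉ D := fun h => (na a h).false
    have dt : Dat W' M x (y - K) a s₀ c₀ d₀ := by
      refine ⟨r1, r2, c1, by omega, by omega, c2, c3, fun t ht => ?_, ?_, ?_⟩
      · rw [e4, e3 _ (by omega), r7 t (by omega)]
      · rw [e4, e2 _ (by omega), add_assoc, c5, ← pu_add W a c6, c5]
        exact r8
      · rw [e3 _ (by omega), e3 _ (by omega)]
        exact r9
    have up : ∀ (f : ℕ → ℕ) (v : ℕ), ∀ a' ∈ D, Function.update f a v a' = f a' := fun f v a' ha' =>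
      Function.update_of_ne (na a' ha').ne _ _
    have old := fun a' (ha' : a' ∈ D) => (hD a' ha').1.congr (W' := W') (y' := y - K)
      (fun t ht => e3 t (by have := (hD a' ha').2; omega)) (by have := (hD a' ha').2; omega)
    rw [Nat.succ_mul] at hy ⊢
    have R := ih W' (y - K) (a + s₀ - M * M) (M * M + w + 1) (insert a D) (Function.update s a s₀)
      (Function.update c a c₀) (Function.update d a d₀) hW' (by omega) (by omega) (by omega)
      (nofb r2 dt.per dt.rb r1 c2.le (by omega) (by omega))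
      (fun k f => hy' (by omega) (fb_congr f fun i _ => by
        rw [e2 _ (by omega)]; congr 1; omega))
      (fun z z1 z2 => ?_) (fun a' ha' => ?_) (fun a' ha' a'' ha'' e => ?_)
    · have R' := R.unwrap (W := W) (k := k) (by omega) (by omega) (by simpa using c1)
        (by simp; omega) e1 (by simpa [← hK] using e2)
        (fun j hj => by
          rw [Function.update_self, ← hK] at hj
          rw [Function.update_self, e4, r7 j (by omega)])
        fun a' ha' => ⟨na a' ha', by rw [up d d₀ a' ha', (old a' ha').2]⟩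
      rw [Function.update_self, ← hK, show y - K + K = y by omega, sum_insert na',
        Function.update_self, sum_congr rfl (up c c₀)] at R'
      obtain ⟨Y, σ, p, S, h1, h2, h3, h4, h5⟩ := R'
      refine ⟨Y, σ, p, S, h1.trans ?_, h2, h3, h4, fun a' ha' => ?_⟩
      · change _ ≤ _ + D.sum c + _ + _ + _ + _ + _
        generalize M * M = N at *
        omega
      · have := h5 a' ha'
        rwa [up c c₀ a' ha', up d d₀ a' ha'] at this
    · obtain ⟨t', u1, u2, u3, u4⟩ := hv (z + K) (by omega) (by omega)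
      have u5 : a + m - M * M ≤ t' := by
        by_contra c
        exact nofb r2 r7 r8 r1 (by omega) (by omega) (by omega) u2
      exact ⟨t' - K, by omega, fb_congr u2 fun i _ => by rw [e2 _ (by omega)]; congr 1; omega,
        by omega, by omega⟩
    · rcases mem_insert.1 ha' with rfl | ha'
      · simp only [Function.update_self]
        exact ⟨dt, by omega⟩
      · rw [up s s₀ a' ha', up c c₀ a' ha', up d d₀ a' ha']
        exact ⟨(old a' ha').1, by have := (hD a' ha').2; omega⟩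
    · rcases mem_insert.1 ha' with rfl | k1 <;> rcases mem_insert.1 ha'' with rfl | k2
      · rfl
      · rw [up s s₀ _ k2, Function.update_self] at e
        have := (hD _ k2).2
        omega
      · rw [up s s₀ _ k1, Function.update_self] at e
        have := (hD _ k1).2
        omega
      · rw [up s s₀ _ k1, up s s₀ _ k2] at e
        exact hi _ k1 _ k2 e

theorem exists_mod {U R : ℕ} (hR : (R + 1) * (U * (U + 1)) < 2 ^ R) (h0 : 0 < d) (hd : d ≤ M)
    (hm : 2 * (M * M + 1) + M ≤ m) (hU : m ≤ U) : ∃ c, d ∣ c ∧ M * M < m % c ∧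
      m % c + 2 * (M * M + 1) ≤ c ∧ c ≤ (2 * (M * M + 1) + M) * R := by
  generalize M * M = N at *
  have a1 := Nat.div_add_mod (2 * (N + 1)) d
  have a2 := Nat.mod_lt (2 * (N + 1)) h0
  obtain ⟨D, hD⟩ : ∃ D, D = d * (2 * (N + 1) / d + 1) := ⟨_, rfl⟩
  have a3 : 2 * (N + 1) < D ∧ D ≤ 2 * (N + 1) + M := by rw [hD, mul_add d]; omega
  have a4 : 0 < m / D := Nat.div_pos (by omega) (by omega)
  have a5 : m / D ≤ U := (Nat.div_le_self _ _).trans hU
  obtain ⟨ρ, r1, r2, r3⟩ : ∃ ρ ∈ Icc 1 R, ¬ ρ ∣ m / D ∧ ¬ ρ ∣ m / D + 1 := by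
    by_contra c
    push Not at c
    have : Nat.lcmUpto R ∣ m / D * (m / D + 1) := Finset.lcm_dvd fun ρ hρ =>
      (em (ρ ∣ m / D)).elim (fun h => h.mul_right _) fun h => (c ρ hρ h).mul_left _
    have h1 := (Nat.le_of_dvd (by positivity) this).trans
      (Nat.mul_le_mul a5 (Nat.succ_le_succ a5))
    exact absurd ((Chebyshev.two_pow_le_mul_lcmUpto R).trans (Nat.mul_le_mul_left _ h1)) hR.not_ge
  rw [mem_Icc] at r1
  have b1 := Nat.mod_lt (m / D) r1.1
  have b2 : 1 ≤ m / D % ρ := Nat.pos_of_ne_zero fun h => r2 (Nat.dvd_of_mod_eq_zero h)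
  have b3 : m / D % ρ + 2 ≤ ρ := by
    by_contra c
    refine r3 ⟨m / D / ρ + 1, ?_⟩
    have := Nat.div_add_mod (m / D) ρ
    rw [mul_add]
    omega
  have b4 := Nat.mod_lt m (show 0 < D by omega)
  have b5 := Nat.mul_le_mul_left D b2
  have b6 := Nat.mul_le_mul_left D b3
  refine ⟨D * ρ, (hD ▸ dvd_mul_right _ _ : d ∣ D).mul_right _, ?_, ?_, Nat.mul_le_mul a3.2 r1.2⟩
  · rw [Nat.mod_mul]
    omega
  · rw [Nat.mod_mul]
    rw [mul_add] at b6
    omega

theorem gadget {ι : Type} {i : ι} {a b : ι → ℕ} {U R w h F : ℕ} (hW : Red W)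
    (hR : (R + 1) * (U * (U + 1)) < 2 ^ R) (hl : 2 * (M * M + 1) + M ≤ l) (hab : a i < b i)
    (hU : b i ≤ U) (hF : b i ≤ a i + F * (l - M * M)) (h1 : ¬ fb W M l (a i))
    (h2 : ¬ fb W M l (b i + 1 - l)) (hv : Cov W M l w (a i) h (b i)) :
    Real W {i} a b (h + w + l + 2 + F * (2 * ((2 * (M * M + 1) + M) * R) + 2 * w + 1)) := by
  obtain ⟨Y, σ, p, S, k1, k2, k3, k4, -⟩ := gad (x := a i) (by omega)
    (fun d m h0 hd hm hU => exists_mod hR h0 hd (hl.trans hm) hU) F W (b i) (a i) h ∅ id id id hW hU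
    le_rfl hF h1 (fun _ => h2) hv (by simp) (by simp)
  refine ⟨by simpa using hab, Y, σ, fun _ => p, S, by simpa using k1, by simpa using k2,
    by simpa using k3, fun j hj j' hj' t t' a1 a2 a3 e => ?_⟩
  rw [mem_singleton] at hj hj'
  subst hj hj'
  exact ⟨rfl, k4 t t' a1 a2 a3 e⟩

end Pool.Agent.P.MP_de9ecd_al.Law
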