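import Pool.Agent.P.MP_de9ecd_al.Law1

/-!
# Laws of symmetric groups: random permutations are locally like a tree
-/

namespace Pool.Agent.P.MP_de9ecd_al.Law

open Equiv Finset

variable {α Y : Type} [DecidableEq α]

/-- The step of the letter `l` is followed by `π`. -/
def sw (σ : α → Perm Y) (l : α × Bool) (π : Perm Y) : α → Perm Y :=
  Function.update σ l.1 (cond l.2 (σ l.1 * π⁻¹) (π * σ l.1))

theorem st_sw (σ : α → Perm Y) (l : α × Bool) (π : Perm Y) : st (sw σ l π) l = π * st σ l := by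
  obtain ⟨x, _ | _⟩ := l <;> simp [st, sw]

theorem st_sw_iv (σ : α → Perm Y) (l : α × Bool) (π : Perm Y) :
    st (sw σ l π) (iv l) = st σ (iv l) * π⁻¹ := by
  obtain ⟨x, _ | _⟩ := l <;> simp [st, sw, iv]

theorem st_sw_ne (σ : α → Perm Y) {l l' : α × Bool} (π : Perm Y) (h : l' ≠ l) (h' : l' ≠ iv l) :
    st (sw σ l π) l' = st σ l' := by
  have : l'.1 ≠ l.1 := fun e => by
    obtain ⟨x, _ | _⟩ := l <;> obtain ⟨x', _ | _⟩ := l' <;> simp_all [iv]
  simp [st, sw, Function.update_of_ne this]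

theorem sw_inj {σ σ' : α → Perm Y} {l : α × Bool} {π : Perm Y} (h : sw σ l π = sw σ' l π) :
    σ = σ' := by
  funext x
  have := congrFun h x
  by_cases e : x = l.1
  · subst e
    obtain ⟨x, _ | _⟩ := l <;> simpa [sw] using this
  · simpa [sw, Function.update_of_ne e] using this

variable [DecidableEq Y] {Z : ℕ → α × Bool}

theorem walk_sw (hZ : Red Z) {σ : α → Perm Y} {u y : Y} {t : ℕ}
    (h : ∀ i ≤ t, ∀ j ≤ t, walk σ Z u i = walk σ Z u j → i = j) (hy : ∀ i ≤ t, walk σ Z u i ≠ y) :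
    (∀ i ≤ t, walk (sw σ (Z t) (swap (walk σ Z u (t + 1)) y)) Z u i = walk σ Z u i) ∧
      walk (sw σ (Z t) (swap (walk σ Z u (t + 1)) y)) Z u (t + 1) = y := by
  have k : ∀ i ≤ t, walk (sw σ (Z t) (swap (walk σ Z u (t + 1)) y)) Z u i = walk σ Z u i := by
    intro i
    induction i with
    | zero => exact fun _ => rfl
    | succ i ih =>
      intro hi
      rw [walk, ih (by omega)]
      by_cases c : Z i = Z t
      · rw [c, st_sw, Perm.mul_apply, ← c]
        refine swap_apply_of_ne_of_ne (fun e => ?_) (hy (i + 1) hi)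
        rw [walk, ← c] at e
        have := h i (by omega) t le_rfl ((st σ (Z i)).injective e)
        omega
      by_cases c' : Z i = iv (Z t)
      · rw [c', st_sw_iv, Perm.mul_apply, ← c', swap_inv, swap_apply_of_ne_of_ne (fun e => ?_)
          (hy i (by omega)), walk]
        have e' : walk σ Z u (i + 1) = walk σ Z u t := by rw [walk, e, walk, c', st_iv]
        obtain rfl := h _ hi _ le_rfl e'
        exact hZ i (by rw [c', iv_iv])
      · rw [st_sw_ne _ _ c c', walk]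
  refine ⟨k, ?_⟩
  rw [walk, k t le_rfl, st_sw, Perm.mul_apply]
  exact swap_apply_left _ _

variable [Fintype α] [Fintype Y]

theorem card_first (hZ : Red Z) (u : Y) {t j : ℕ} (hj : j ≤ t) :
    #{σ : α → Perm Y | (∀ i ≤ t, ∀ j ≤ t, walk σ Z u i = walk σ Z u j → i = j) ∧
      walk σ Z u (t + 1) = walk σ Z u j} * (Fintype.card Y - (t + 1)) ≤
      Fintype.card (α → Perm Y) := by
  classical
  obtain ⟨A, hA⟩ : ∃ A : Finset (α → Perm Y), A = univ.filter fun σ : α → Perm Y =>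
    (∀ i ≤ t, ∀ j ≤ t, walk σ Z u i = walk σ Z u j → i = j) ∧
      walk σ Z u (t + 1) = walk σ Z u j := ⟨_, rfl⟩
  rw [← hA]
  have h1 : #A * (Fintype.card Y - (t + 1)) ≤
      #(A.sigma fun σ => univ \ (range (t + 1)).image (walk σ Z u)) := by
    rw [card_sigma, ← smul_eq_mul]
    refine card_nsmul_le_sum _ _ _ fun σ _ => ?_
    have := card_image_le (s := range (t + 1)) (f := walk σ Z u)
    rw [card_univ_sdiff]
    rw [card_range] at this
    omega
  refine h1.trans (card_le_card_of_injOn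
    (fun p => sw p.1 (Z t) (swap (walk p.1 Z u (t + 1)) p.2)) (fun _ _ => mem_univ _) ?_)
  rintro ⟨σ, y⟩ h ⟨σ', y'⟩ h' e
  simp only [hA, coe_sigma, Set.mem_sigma_iff, coe_filter, mem_univ, true_and, Set.mem_ofPred_eq,
    coe_sdiff, coe_univ, coe_image, coe_range, Set.mem_sdiff, Set.mem_univ, Set.mem_image,
    Set.mem_Iio, not_exists, not_and] at h h' e
  obtain ⟨a1, a2⟩ := walk_sw hZ h.1.1 fun i hi => h.2 i (by omega)
  obtain ⟨b1, b2⟩ := walk_sw hZ h'.1.1 fun i hi => h'.2 i (by omega)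
  rw [e] at a1 a2
  obtain rfl : y = y' := a2.symm.trans b2
  rw [h.1.2, h'.1.2, ← a1 j hj, b1 j hj] at e
  rw [sw_inj e]

theorem card_close (hZ : Red Z) (u : Y) {m : ℕ} (h0 : 0 < m) (hm : 2 * m ≤ Fintype.card Y) :
    #{σ : α → Perm Y | walk σ Z u m = u} * Fintype.card Y ≤
      2 * (m * m) * Fintype.card (α → Perm Y) := by
  classical
  have h1 : ({σ : α → Perm Y | walk σ Z u m = u} : Finset _) ⊆ (range m ×ˢ range m).biUnion fun p =>
      {σ : α → Perm Y | p.2 ≤ p.1 ∧ (∀ i ≤ p.1, ∀ j ≤ p.1, walk σ Z u i = walk σ Z u j → i = j) ∧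
        walk σ Z u (p.1 + 1) = walk σ Z u p.2} := fun σ hσ => by
    have k : ∃ t, ∃ j ≤ t, walk σ Z u (t + 1) = walk σ Z u j :=
      ⟨m - 1, 0, Nat.zero_le _, by rw [Nat.sub_add_cancel h0]; exact (mem_filter.1 hσ).2⟩
    obtain ⟨j, j1, j2⟩ := Nat.find_spec k
    have k1 : Nat.find k ≤ m - 1 := Nat.find_min' k
      ⟨0, Nat.zero_le _, by rw [Nat.sub_add_cancel h0]; exact (mem_filter.1 hσ).2⟩
    have k2 := fun t => Nat.find_min k (m := t)
    generalize Nat.find k = t at j1 j2 k1 k2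
    refine mem_biUnion.2 ⟨(t, j), by simp; omega, mem_filter.2 ⟨mem_univ _, j1, ?_, j2⟩⟩
    intro a ha b hb e
    rcases lt_trichotomy a b with c | c | c
    · exact absurd ⟨a, by omega, by rw [Nat.sub_add_cancel (by omega), e]⟩ (k2 (b - 1) (by omega))
    · exact c
    · exact absurd ⟨b, by omega, by rw [Nat.sub_add_cancel (by omega), e]⟩ (k2 (a - 1) (by omega))
  refine (Nat.mul_le_mul_right _ ((card_le_card h1).trans card_biUnion_le)).trans ?_
  rw [sum_mul]
  refine (sum_le_card_nsmul _ _ (2 * Fintype.card (α → Perm Y)) fun p hp => ?_).trans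
    (by simp only [card_product, card_range, smul_eq_mul]; exact le_of_eq (by ring))
  by_cases c : p.2 ≤ p.1
  · have h2 := card_first hZ u c
    have h3 : p.1 < m := mem_range.1 (mem_product.1 hp).1
    simp only [c, true_and]
    refine le_trans (Nat.mul_le_mul_left _
      (show Fintype.card Y ≤ 2 * (Fintype.card Y - (p.1 + 1)) by omega)) ?_
    rw [mul_left_comm]
    exact Nat.mul_le_mul_left _ h2
  · simp [c]

theorem sum_fix {z : FreeGroup α} (hz : z ≠ 1) {m : ℕ} (h : z.norm ≤ m)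
    (hm : 2 * m ≤ Fintype.card Y) (h0 : 0 < Fintype.card Y) :
    ∑ σ : α → Perm Y, #{u | (FreeGroup.lift σ z)⁻¹ u = u} ≤
      2 * (m * m) * Fintype.card (α → Perm Y) := by
  obtain ⟨Z, hZ, e⟩ := exists_red hz
  have h1 : 0 < z.norm := Nat.pos_of_ne_zero fun h => hz (FreeGroup.norm_eq_zero.1 h)
  have h2 : ∑ σ : α → Perm Y, #{u | (FreeGroup.lift σ z)⁻¹ u = u} =
      ∑ u : Y, #{σ : α → Perm Y | walk σ Z u z.norm = u} := by
    simp only [card_filter, walk_eq, e]
    exact sum_comm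
  refine Nat.le_of_mul_le_mul_right ?_ h0
  rw [h2, sum_mul]
  refine (sum_le_card_nsmul _ _ _ fun u _ => (card_close hZ u h1 (by omega)).trans
    (Nat.mul_le_mul_right _ (Nat.mul_le_mul_left 2 (Nat.mul_le_mul h h)))).trans ?_
  rw [card_univ, smul_eq_mul, mul_comm]

open Classical in
/-- the number of bad starting points -/
noncomputable def nb (σ : α → Perm Y) (V V' : ℕ → α × Bool) (K : ℕ) : ℕ := #{v | ¬ TL σ V V' K v}

theorem sum_nb (V V' : ℕ → α × Bool) {K : ℕ} (hK : 4 * K ≤ Fintype.card Y)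
    (h0 : 0 < Fintype.card Y) : ∑ σ : α → Perm Y, nb σ V V' K ≤
      8 * (K + 1) ^ 4 * Fintype.card (α → Perm Y) := by
  classical
  have h1 : ∀ σ : α → Perm Y, nb σ V V' K ≤ ∑ p ∈ (range (K + 1) ×ˢ range (K + 1)) with
      pre V p.1 ≠ pre V' p.2, #{u | (FreeGroup.lift σ ((pre V p.1)⁻¹ * pre V' p.2))⁻¹ u = u} := by
    intro σ
    have : ∀ g h : FreeGroup α, #{u | (FreeGroup.lift σ (g⁻¹ * h))⁻¹ u = u} =
        #{v | (FreeGroup.lift σ g)⁻¹ v = (FreeGroup.lift σ h)⁻¹ v} := fun g h =>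
      card_bijective _ (FreeGroup.lift σ g).bijective fun u => by simp [eq_comm]
    simp only [this]
    refine le_trans (card_le_card fun v hv => ?_) card_biUnion_le
    have := (mem_filter.1 hv).2
    simp only [TL, not_forall, walk_eq] at this
    obtain ⟨s, s1, s', s2, e, e'⟩ := this
    exact mem_biUnion.2 ⟨(s, s'), by simp [s1, s2, e'], by simpa using e⟩
  refine (sum_le_sum fun σ _ => h1 σ).trans ?_
  rw [sum_comm]
  refine (sum_le_card_nsmul _ _ (2 * (2 * K * (2 * K)) * Fintype.card (α → Perm Y))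
    fun p hp => ?_).trans ?_
  · obtain ⟨a, b⟩ := mem_filter.1 hp
    simp only [mem_product, mem_range] at a
    refine sum_fix (fun e => b (inv_mul_eq_one.1 e)) ?_ (by omega) h0
    have := FreeGroup.norm_mul_le (pre V p.1)⁻¹ (pre V' p.2)
    rw [FreeGroup.norm_inv_eq] at this
    have := norm_pre V p.1
    have := norm_pre V' p.2
    omega
  · rw [smul_eq_mul, ← mul_assoc]
    refine Nat.mul_le_mul_right _ ((Nat.mul_le_mul_right _ (card_filter_le _ _)).trans ?_)
    simp only [card_product, card_range]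
    nlinarith [Nat.zero_le (K ^ 3), Nat.zero_le (K ^ 2)]

/-- a good choice for a finite family of pairs of sequences with weights -/
theorem exists_tl {κ : Type} (P : Finset κ) (V V' : κ → ℕ → α × Bool) (c : κ → ℝ)
    (hc : ∀ k ∈ P, 0 ≤ c k) {K : ℕ} (hK : 4 * K ≤ Fintype.card Y) (h0 : 0 < Fintype.card Y) :
    ∃ σ : α → Perm Y, ∑ k ∈ P, c k * nb σ (V k) (V' k) K ≤ (∑ k ∈ P, c k) * (8 * (K + 1) ^ 4) := by
  obtain ⟨σ, -, h⟩ := exists_le_of_sum_le (s := univ) univ_nonempty
    (f := fun σ : α → Perm Y => ∑ k ∈ P, c k * nb σ (V k) (V' k) K)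
    (g := fun _ => (∑ k ∈ P, c k) * (8 * (K + 1) ^ 4 : ℝ)) (by
      rw [sum_comm, sum_const, card_univ, nsmul_eq_mul, sum_mul, mul_sum]
      refine sum_le_sum fun k hk => ?_
      rw [← mul_sum, mul_left_comm, mul_comm _ (8 * _ : ℝ)]
      exact mul_le_mul_of_nonneg_left (by exact_mod_cast sum_nb (V k) (V' k) hK h0) (hc k hk))
  exact ⟨σ, h⟩

end Pool.Agent.P.MP_de9ecd_al.Law
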