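import Mathlib

/-!
# Laws of symmetric groups: finite probability
-/

namespace Pool.Agent.P.MP_de9ecd_al.Law

open Finset

variable {ι E Y Ω : Type}

section pick
variable [Fintype ι] [DecidableEq ι]

theorem sum_update (S : ι → Finset Y) (g : (ι → Y) → ℝ) (i : ι) :
    (∑ v ∈ Fintype.piFinset S, g v) * #(S i) =
      ∑ v ∈ Fintype.piFinset S, ∑ a ∈ S i, g (Function.update v i a) := by
  rw [← sum_product', mul_comm, ← nsmul_eq_mul, ← sum_const, ← sum_product_right']
  refine sum_nbij' (fun p => (Function.update p.1 i p.2, p.1 i))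
    (fun p => (Function.update p.1 i p.2, p.1 i)) ?_ ?_ ?_ ?_ ?_
  iterate 2
    rintro ⟨v, a⟩ h
    simp only [mem_product, Fintype.mem_piFinset] at h ⊢
    refine ⟨fun j => ?_, h.1 i⟩
    by_cases e : j = i
    · simpa [e] using h.2
    · simpa [Function.update_of_ne e] using h.1 j
  all_goals simp

theorem exists_pick (S : ι → Finset Y) (hS : ∀ i, (S i).Nonempty) (P : Finset (ι × ι))
    (hP : ∀ p ∈ P, p.1 ≠ p.2) (C : ι × ι → Y → Y → ℝ) : ∃ v : ι → Y, (∀ i, v i ∈ S i) ∧
      ∑ p ∈ P, C p (v p.1) (v p.2) ≤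
        ∑ p ∈ P, (∑ a ∈ S p.1, ∑ b ∈ S p.2, C p a b) / (#(S p.1) * #(S p.2)) := by
  obtain ⟨v, hv, h⟩ := exists_le_of_sum_le (Fintype.piFinset_nonempty.2 hS)
    (f := fun v => ∑ p ∈ P, C p (v p.1) (v p.2))
    (g := fun _ => ∑ p ∈ P, (∑ a ∈ S p.1, ∑ b ∈ S p.2, C p a b) / (#(S p.1) * #(S p.2))) (by
      rw [sum_comm, sum_comm (s := Fintype.piFinset S)]
      refine le_of_eq (sum_congr rfl fun p hp => ?_)
      have h1 : (0 : ℝ) < #(S p.1) := Nat.cast_pos.2 (hS _).card_pos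
      have h2 : (0 : ℝ) < #(S p.2) := Nat.cast_pos.2 (hS _).card_pos
      rw [← sum_div, eq_div_iff (by positivity), ← mul_assoc, sum_update, sum_update]
      refine sum_congr rfl fun v _ => ?_
      rw [sum_comm]
      simp [Function.update_of_ne (hP p hp).symm])
  exact ⟨v, Fintype.mem_piFinset.1 hv, h⟩

end pick

section av
variable [Fintype Ω]

/-- The average. -/
noncomputable def av (f : Ω → ℝ) : ℝ := (∑ ω, f ω) / Fintype.card Ω

theorem av_mono {f g : Ω → ℝ} (h : ∀ ω, f ω ≤ g ω) : av f ≤ av g :=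
  div_le_div_of_nonneg_right (sum_le_sum fun ω _ => h ω) (Nat.cast_nonneg _)

theorem av_add (f g : Ω → ℝ) : av (fun ω => f ω + g ω) = av f + av g := by
  simp only [av, sum_add_distrib, add_div]

theorem av_sum (s : Finset ι) (f : ι → Ω → ℝ) :
    av (fun ω => ∑ i ∈ s, f i ω) = ∑ i ∈ s, av (f i) := by
  simp only [av, ← sum_div]
  rw [sum_comm]

theorem av_mul (c : ℝ) (f : Ω → ℝ) : av (fun ω => c * f ω) = c * av f := by
  simp only [av, ← mul_sum, mul_div_assoc]

theorem av_const [Nonempty Ω] (c : ℝ) : av (fun _ : Ω => c) = c := by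
  have : (Fintype.card Ω : ℝ) ≠ 0 := Nat.cast_ne_zero.2 Fintype.card_ne_zero
  simp only [av, sum_const, card_univ, nsmul_eq_mul]
  field_simp

theorem exists_le_av [Nonempty Ω] (f : Ω → ℝ) : ∃ ω, f ω ≤ av f := by
  have : (Fintype.card Ω : ℝ) ≠ 0 := Nat.cast_ne_zero.2 Fintype.card_ne_zero
  obtain ⟨ω, -, h⟩ := exists_le_of_sum_le (s := univ) univ_nonempty (f := f) (g := fun _ => av f)
    (le_of_eq (by simp only [av, sum_const, card_univ, nsmul_eq_mul]; field_simp))
  exact ⟨ω, h⟩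

end av

variable {l : ℕ}

/-- The elements of `A` are marked and those of `B` are not. -/
def ind (A B : Finset E) (ω : E → Fin (l + 1)) : ℝ :=
  if (∀ e ∈ A, ω e = 0) ∧ ∀ e ∈ B, ω e ≠ 0 then 1 else 0

/-- The probability of a pattern. -/
noncomputable def pb (l a b : ℕ) : ℝ := (1 / (l + 1)) ^ a * (l / (l + 1)) ^ b

theorem pb_nonneg (l a b : ℕ) : 0 ≤ pb l a b := by unfold pb; positivity

theorem pb_add (l a b a' b' : ℕ) : pb l (a + a') (b + b') = pb l a b * pb l a' b' := by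
  simp only [pb, pow_add]
  ring

theorem ind_nonneg (A B : Finset E) (ω : E → Fin (l + 1)) : 0 ≤ ind A B ω := by
  unfold ind
  split_ifs <;> norm_num

variable [DecidableEq E]

theorem ind_mul (A B A' B' : Finset E) (ω : E → Fin (l + 1)) :
    ind A B ω * ind A' B' ω = ind (A ∪ A') (B ∪ B') ω := by
  simp only [ind, forall_mem_union, ite_zero_mul_ite_zero, mul_one]
  exact if_congr (by tauto) rfl rfl

variable [Fintype E]

theorem av_ind {A B : Finset E} (h : Disjoint A B) : av (ind (l := l) A B) = pb l #A #B := by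
  have h1 : ∀ ω : E → Fin (l + 1), ind A B ω = ∏ e, if e ∈ A then (if ω e = 0 then (1 : ℝ) else 0)
      else if e ∈ B then (if ω e = 0 then 0 else 1) else 1 := fun ω => by
    unfold ind
    split_ifs with c
    · refine (prod_eq_one fun e _ => ?_).symm
      split_ifs with a b b' b''
      exacts [rfl, absurd (c.1 e a) b, absurd b'' (c.2 e b'), rfl, rfl]
    · rcases not_and_or.1 c with c | c
      · push Not at c
        obtain ⟨e, a, b⟩ := c
        exact (prod_eq_zero (mem_univ e) (by rw [if_pos a, if_neg b])).symm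
      · push Not at c
        obtain ⟨e, a, b⟩ := c
        exact (prod_eq_zero (mem_univ e) (by
          rw [if_neg (disjoint_right.1 h a), if_pos a, if_pos b])).symm
  have h0 : (l + 1 : ℝ) ≠ 0 := by positivity
  rw [av, sum_congr rfl fun ω _ => h1 ω, ← Fintype.piFinset_univ, ← prod_univ_sum (fun _ => univ)
    fun e (c : Fin (l + 1)) => if e ∈ A then (if c = 0 then (1 : ℝ) else 0)
      else if e ∈ B then (if c = 0 then 0 else 1) else 1, Fintype.card_pi, Nat.cast_prod,
    ← prod_div_distrib, pb, ← prod_const, ← prod_const, ← prod_ite_mem_eq A, ← prod_ite_mem_eq B,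
    ← prod_mul_distrib]
  refine prod_congr rfl fun e _ => ?_
  by_cases a : e ∈ A
  · simp [a, disjoint_left.1 h a]
  by_cases b : e ∈ B
  · simp [a, b, Fin.sum_univ_succ]
  · simp [a, b, h0]

theorem av_ind_le (A B : Finset E) : av (ind (l := l) A B) ≤ pb l #A #B := by
  by_cases h : Disjoint A B
  · exact (av_ind h).le
  · obtain ⟨e, a, b⟩ := not_disjoint_iff.1 h
    refine le_trans (av_mono (g := fun _ => 0) fun ω => ?_) ((av_const 0).trans_le (pb_nonneg _ _ _))
    exact (if_neg fun c => c.2 e b (c.1 e a)).le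

theorem pb_anti {a b a' b' : ℕ} (ha : a ≤ a') (hb : b ≤ b') : pb l a' b' ≤ pb l a b := by
  have : (0 : ℝ) ≤ l := Nat.cast_nonneg l
  refine mul_le_mul (pow_le_pow_of_le_one (by positivity) ?_ ha)
    (pow_le_pow_of_le_one (by positivity) ?_ hb) (by positivity) (by positivity) <;>
  rw [div_le_one (by positivity)] <;> linarith

theorem pb_pos (hl : 0 < l) (a b : ℕ) : 0 < pb l a b := by unfold pb; positivity

/-- The second moment bound. -/
theorem av_small [Fintype Y] [Nonempty Y] (hl : 0 < l) (G : Finset Y) (A B : Y → Finset E) {r D : ℕ}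
    (h : ∀ v ∈ G, #(A v) = 2 ∧ #(B v) = r ∧ Disjoint (A v) (B v))
    (hD : ∀ v, #{v' | ¬ Disjoint (A v ∪ B v) (A v' ∪ B v')} ≤ D) :
    av (fun ω : E → Fin (l + 1) => if ∑ v ∈ G, ind (A v) (B v) ω < pb l 2 r * Fintype.card Y / 4
      then (1 : ℝ) else 0) ≤ 2 * (Fintype.card Y - #G) / Fintype.card Y +
        8 * D / (pb l 2 r * Fintype.card Y) := by
  have hn : (0 : ℝ) < Fintype.card Y := Nat.cast_pos.2 Fintype.card_pos
  have hp := pb_pos hl 2 r
  have hG : (#G : ℝ) ≤ Fintype.card Y := Nat.cast_le.2 (card_le_univ G)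
  rcases le_total (2 * #G : ℝ) (Fintype.card Y) with c | c
  · refine (av_mono (g := fun _ => 1) fun ω => by split_ifs <;> norm_num).trans ?_
    rw [av_const]
    refine le_add_of_le_of_nonneg ((one_le_div hn).2 (by linarith)) (by positivity)
  refine le_add_of_nonneg_of_le (div_nonneg (by linarith) hn.le) ?_
  generalize hq : pb l 2 r = p at hp
  obtain ⟨μ, hμ⟩ : ∃ μ, μ = p * #G := ⟨_, rfl⟩
  have m1 : p * Fintype.card Y ≤ 2 * μ := by rw [hμ]; nlinarith
  have m0 : 0 < μ := by nlinarith [mul_pos hp hn]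
  have e1 : av (fun ω : E → Fin (l + 1) => ∑ v ∈ G, ind (A v) (B v) ω) = μ := by
    rw [av_sum, sum_congr rfl fun v hv => by rw [av_ind (h v hv).2.2, (h v hv).1, (h v hv).2.1, hq],
      sum_const, nsmul_eq_mul, hμ, mul_comm]
  have e2 : av (fun ω : E → Fin (l + 1) => (∑ v ∈ G, ind (A v) (B v) ω) *
      ∑ v ∈ G, ind (A v) (B v) ω) ≤ μ * μ + D * μ := by
    simp only [sum_mul_sum, av_sum, ind_mul]
    refine (sum_le_card_nsmul _ _ (p * μ + D * p) fun v hv => ?_).trans
      (le_of_eq (by rw [nsmul_eq_mul, hμ]; ring))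
    refine (sum_le_sum (s := G) (g := fun v' : Y => p * p + if ¬ Disjoint (A v ∪ B v) (A v' ∪ B v') then p else 0)
      fun v' hv' => (av_ind_le _ _).trans ?_).trans ?_
    · split_ifs with d
      · rw [card_union_of_disjoint (d.mono subset_union_left subset_union_left),
          card_union_of_disjoint (d.mono subset_union_right subset_union_right), pb_add, (h v hv).1,
          (h v hv).2.1, (h v' hv').1, (h v' hv').2.1, hq, add_zero]
      · refine le_add_of_nonneg_of_le (by positivity) (hq ▸ pb_anti ?_ ?_)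
        exacts [(h v hv).1 ▸ card_le_card subset_union_left,
          (h v hv).2.1 ▸ card_le_card subset_union_left]
    · rw [sum_add_distrib, sum_const, nsmul_eq_mul, ← sum_filter, sum_const, nsmul_eq_mul]
      refine add_le_add (le_of_eq (by rw [hμ]; ring)) (mul_le_mul_of_nonneg_right
        (Nat.cast_le.2 ((card_le_card (filter_subset_filter _ (subset_univ G))).trans (hD v))) hp.le)
  refine (av_mono (g := fun ω => 4 / μ ^ 2 * ((∑ v ∈ G, ind (A v) (B v) ω) *
    ∑ v ∈ G, ind (A v) (B v) ω) + (-8 / μ * ∑ v ∈ G, ind (A v) (B v) ω + 4)) fun ω => ?_).trans ?_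
  · generalize ∑ v ∈ G, ind (A v) (B v) ω = x
    have : 4 / μ ^ 2 * (x * x) + (-8 / μ * x + 4) = (2 * (μ - x) / μ) ^ 2 := by field_simp; ring
    rw [this]
    split_ifs with d
    · exact one_le_pow₀ ((one_le_div m0).2 (by linarith))
    · positivity
  · rw [av_add, av_add, av_mul, av_mul, av_const, e1]
    refine (add_le_add (mul_le_mul_of_nonneg_left e2 (by positivity)) le_rfl).trans ?_
    rw [show 4 / μ ^ 2 * (μ * μ + D * μ) + (-8 / μ * μ + 4) = 8 * D / (2 * μ) by field_simp; ring]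
    exact div_le_div_of_nonneg_left (by positivity) (by positivity) m1

/-- The random marking of the edges. -/
theorem rstep [Fintype ι] [DecidableEq ι] [Fintype Y] [Nonempty Y] (hl : 0 < l) (G : ι → Finset Y)
    (A B : ι → Y → Finset E) (r : ι → ℕ) {D : ℕ}
    (h : ∀ i, ∀ v ∈ G i, #(A i v) = 2 ∧ #(B i v) = r i ∧ Disjoint (A i v) (B i v))
    (hD : ∀ i v, #{v' | ¬ Disjoint (A i v ∪ B i v) (A i v' ∪ B i v')} ≤ D) :
    ∃ (J : Finset ι) (v : ι → Y), (∀ i ∈ J, v i ∈ G i) ∧
      (∀ i ∈ J, ∀ j ∈ J, Disjoint (A i (v i)) (B j (v j)) ∧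
        (i ≠ j → Disjoint (A i (v i)) (A j (v j)))) ∧
      (Fintype.card ι : ℝ) ≤ #J + (∑ i, (2 * (Fintype.card Y - #(G i)) / Fintype.card Y +
        8 * D / (pb l 2 (r i) * Fintype.card Y)) +
        ∑ p ∈ univ.offDiag, 16 / (pb l 2 (r p.1) * pb l 2 (r p.2) * Fintype.card Y ^ 2) *
          ∑ v ∈ G p.1, ∑ v' ∈ G p.2, if Disjoint (A p.1 v) (A p.2 v') then 0 else
            pb l #(A p.1 v ∪ A p.2 v') #(B p.1 v ∪ B p.2 v')) := by
  classical
  have hn : (0 : ℝ) < Fintype.card Y := Nat.cast_pos.2 Fintype.card_pos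
  have hp := fun i => pb_pos hl 2 (r i)
  obtain ⟨ω, hω⟩ := exists_le_av fun ω : E → Fin (l + 1) =>
    ∑ i, (if ∑ v ∈ G i, ind (A i v) (B i v) ω < pb l 2 (r i) * Fintype.card Y / 4
      then (1 : ℝ) else 0) +
    ∑ p ∈ univ.offDiag, 16 / (pb l 2 (r p.1) * pb l 2 (r p.2) * Fintype.card Y ^ 2) *
      ∑ v ∈ G p.1, ∑ v' ∈ G p.2, if Disjoint (A p.1 v) (A p.2 v') then 0 else
        ind (A p.1 v) (B p.1 v) ω * ind (A p.2 v') (B p.2 v') ω
  rw [av_add, av_sum, av_sum] at hω
  replace hω := hω.trans (add_le_add (sum_le_sum fun i _ => av_small hl (G i) (A i) (B i) (h i) (hD i))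
    (sum_le_sum (g := fun p => 16 / (pb l 2 (r p.1) * pb l 2 (r p.2) * Fintype.card Y ^ 2) *
      ∑ v ∈ G p.1, ∑ v' ∈ G p.2, if Disjoint (A p.1 v) (A p.2 v') then 0 else
        pb l #(A p.1 v ∪ A p.2 v') #(B p.1 v ∪ B p.2 v')) fun p _ => by
      have := hp p.1
      have := hp p.2
      simp only [av_mul, av_sum]
      refine mul_le_mul_of_nonneg_left (sum_le_sum fun v _ => sum_le_sum fun v' _ => ?_)
        (by positivity)
      split_ifs
      · exact (av_const 0).le
      · simp only [ind_mul]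
        exact av_ind_le _ _))
  obtain ⟨S, hS⟩ : ∃ S : ι → Finset Y, ∀ i, S i =
    {v ∈ G i | (∀ e ∈ A i v, ω e = 0) ∧ ∀ e ∈ B i v, ω e ≠ 0} := ⟨_, fun _ => rfl⟩
  have e1 : ∀ i (f : Y → ℝ), ∑ v ∈ G i, ind (A i v) (B i v) ω * f v = ∑ v ∈ S i, f v := fun i f => by
    rw [hS, sum_filter]
    exact sum_congr rfl fun v _ => by unfold ind; split_ifs <;> simp
  have e2 : ∀ i, ∑ v ∈ G i, ind (A i v) (B i v) ω = #(S i) := fun i => by simpa using e1 i 1
  obtain ⟨Q, hQ⟩ : ∃ Q : Finset ι, ∀ i, i ∈ Q ↔ pb l 2 (r i) * Fintype.card Y / 4 ≤ #(S i) :=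
    ⟨univ.filter fun i => pb l 2 (r i) * Fintype.card Y / 4 ≤ #(S i), fun i => by simp⟩
  obtain ⟨v, v1, v2⟩ := exists_pick (fun i => if i ∈ Q then S i else univ) (fun i => by
      split_ifs with c
      · have := mul_pos (hp i) hn
        exact card_pos.1 (Nat.cast_pos.1 (lt_of_lt_of_le (by linarith) ((hQ i).1 c)))
      · exact univ_nonempty) Q.offDiag (fun p hp => (mem_offDiag.1 hp).2.2)
    fun p a b => if Disjoint (A p.1 a) (A p.2 b) then 0 else 1
  have v3 : ∀ i ∈ Q, v i ∈ G i ∧ (∀ e ∈ A i (v i), ω e = 0) ∧ ∀ e ∈ B i (v i), ω e ≠ 0 :=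
    fun i hi => by simpa [hi, hS] using v1 i
  refine ⟨{i ∈ Q | ∀ j ∈ Q, i ≠ j → Disjoint (A i (v i)) (A j (v j))}, v,
    fun i hi => (v3 i (mem_filter.1 hi).1).1, fun i hi j hj => ⟨disjoint_left.2 fun e a b =>
      (v3 j (mem_filter.1 hj).1).2.2 e b ((v3 i (mem_filter.1 hi).1).2.1 e a),
      (mem_filter.1 hi).2 j (mem_filter.1 hj).1⟩, le_trans ?_ (add_le_add le_rfl hω)⟩
  have k1 : (Fintype.card ι : ℝ) = #Q + ∑ i, (if ∑ v ∈ G i, ind (A i v) (B i v) ω <
      pb l 2 (r i) * Fintype.card Y / 4 then (1 : ℝ) else 0) := by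
    simp only [e2, ← not_le, ← hQ, sum_boole]
    exact_mod_cast (by simpa using (card_filter_add_card_filter_not (s := univ) (· ∈ Q)).symm)
  have k2 : (#Q : ℝ) ≤ #{i ∈ Q | ∀ j ∈ Q, i ≠ j → Disjoint (A i (v i)) (A j (v j))} +
      ∑ p ∈ Q.offDiag, if Disjoint (A p.1 (v p.1)) (A p.2 (v p.2)) then (0 : ℝ) else 1 := by
    simp only [← ite_not (Disjoint _ _), sum_boole]
    rw [← card_filter_add_card_filter_not (s := Q)
      (fun i => ∀ j ∈ Q, i ≠ j → Disjoint (A i (v i)) (A j (v j))), Nat.cast_add]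
    refine add_le_add le_rfl (Nat.cast_le.2 (le_trans (card_le_card fun i hi => ?_)
      (card_image_le (f := Prod.fst))))
    obtain ⟨a, b⟩ := mem_filter.1 hi
    push Not at b
    obtain ⟨j, b1, b2, b3⟩ := b
    exact mem_image.2 ⟨(i, j), mem_filter.2 ⟨mem_offDiag.2 ⟨a, b1, b2⟩, b3⟩, rfl⟩
  have k3 := v2.trans (sum_le_sum (g := fun p =>
    16 / (pb l 2 (r p.1) * pb l 2 (r p.2) * Fintype.card Y ^ 2) *
      ∑ v ∈ G p.1, ∑ v' ∈ G p.2, if Disjoint (A p.1 v) (A p.2 v') then 0 else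
        ind (A p.1 v) (B p.1 v) ω * ind (A p.2 v') (B p.2 v') ω) fun p hp' => by
    obtain ⟨a, b, -⟩ := mem_offDiag.1 hp'
    have a1 := (hQ _).1 a
    have b1 := (hQ _).1 b
    have a2 := hp p.1
    have b2 := hp p.2
    rw [if_pos a, if_pos b, ← e1, div_eq_inv_mul]
    refine mul_le_mul ?_ (le_of_eq (sum_congr rfl fun u _ => ?_)) ?_ (by positivity)
    · rw [← inv_div]
      refine inv_anti₀ (by positivity) (le_trans (le_of_eq (by ring))
        (mul_le_mul a1 b1 (by positivity) (by positivity)))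
    · rw [← e1, mul_sum]
      exact sum_congr rfl fun u' _ => by split_ifs <;> simp
    · exact sum_nonneg fun u _ => mul_nonneg (ind_nonneg _ _ _)
        (sum_nonneg fun _ _ => by split_ifs <;> norm_num))
  have k4 := k3.trans (sum_le_sum_of_subset_of_nonneg (offDiag_mono (subset_univ Q)) fun p _ _ => by
    have := hp p.1
    have := hp p.2
    refine mul_nonneg (by positivity) (sum_nonneg fun _ _ => sum_nonneg fun _ _ => ?_)
    split_ifs
    exacts [le_rfl, mul_nonneg (ind_nonneg _ _ _) (ind_nonneg _ _ _)])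
  linarith

end Pool.Agent.P.MP_de9ecd_al.Law
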