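import Pool.Agent.P.MP_de9ecd_al.Law3
import Pool.Agent.P.MP_de9ecd_al.Law4
import Pool.Agent.P.MP_de9ecd_al.Law5

/-!
# Laws of symmetric groups: conflicts between two walks
-/

namespace Pool.Agent.P.MP_de9ecd_al.Law

open Equiv Finset

variable {α Y ι : Type} {W ρ ρ' : ℕ → α × Bool} {σ : α → Perm Y} {l K m m' : ℕ}

/-- The segment read from the left or from the right end. -/
def ray (W : ℕ → α × Bool) (c : ℕ × ℕ) (ε : Bool) : ℕ → α × Bool :=
  cond ε (sh W c.1) fun t => iv (W (c.2 - t))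

/-- The two ends of the walk. -/
def base (σ : α → Perm Y) (W : ℕ → α × Bool) (c : ℕ × ℕ) (ε : Bool) (v : Y) : Y :=
  cond ε v (walk σ (sh W c.1) v (c.2 - c.1 + 1))

theorem red_ray (hW : Red W) (c : ℕ × ℕ) (ε : Bool) : Red (ray W c ε) := by
  cases ε
  · intro t
    simp only [ray, cond_false, iv_iv]
    rcases lt_or_ge t c.2 with h | h
    · have := hW (c.2 - (t + 1))
      rw [show c.2 - (t + 1) + 1 = c.2 - t by omega] at this
      exact this.symm
    · rw [show c.2 - (t + 1) = c.2 - t by omega]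
      exact iv_ne _
  · exact hW.sh _

theorem base_inj (σ : α → Perm Y) (W : ℕ → α × Bool) (c : ℕ × ℕ) (ε : Bool) :
    Function.Injective (base σ W c ε) := by
  cases ε
  · exact walk_inj σ _ _
  · exact fun _ _ h => h

theorem edg_inj (σ : α → Perm Y) (V : ℕ → α × Bool) (t : ℕ) :
    Function.Injective fun v => edg σ V v t := fun _ _ h =>
  (ed_eq h).elim (fun e => walk_inj σ V t e.2.symm) fun e => absurd e.1.symm (iv_ne _)

theorem walk_back {c : ℕ × ℕ} (h : c.1 ≤ c.2) (v : Y) : ∀ t ≤ c.2 - c.1 + 1,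
    walk σ (ray W c false) (base σ W c false v) t = walk σ (sh W c.1) v (c.2 - c.1 + 1 - t) := by
  intro t
  induction t with
  | zero => exact fun _ => rfl
  | succ t ih =>
    intro ht
    rw [walk, ih (by omega), show c.2 - c.1 + 1 - t = c.2 - c.1 + 1 - (t + 1) + 1 by omega, walk]
    have : ray W c false t = iv (sh W c.1 (c.2 - c.1 + 1 - (t + 1))) := by
      simp only [ray, cond_false, sh]
      congr 2
      omega
    rw [this, st_iv]

theorem edg_back {c : ℕ × ℕ} (h : c.1 ≤ c.2) (v : Y) {t : ℕ} (ht : t ≤ c.2 - c.1) :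
    edg σ (ray W c false) (base σ W c false v) t = edg σ (sh W c.1) v (c.2 - c.1 - t) := by
  have : ray W c false t = iv (sh W c.1 (c.2 - c.1 - t)) := by
    simp only [ray, cond_false, sh]
    congr 2
    omega
  rw [edg, walk_back h v t (by omega), show c.2 - c.1 + 1 - t = c.2 - c.1 - t + 1 by omega, walk,
    this, ed_iv, edg]

theorem walk_sh (σ : α → Perm Y) (V : ℕ → α × Bool) (v : Y) (t : ℕ) :
    walk σ V v (1 + t) = walk σ (sh V 1) (st σ (V 0) v) t := by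
  induction t with
  | zero => rfl
  | succ t ih => rw [← add_assoc, walk, walk, ih]; rfl

theorem pb_four (hl : 0 < l) : 1 ≤ 4 * pb l 0 l := by
  have h0 : (0 : ℝ) < l := Nat.cast_pos.2 hl
  have h1 : ((l + 1 : ℝ) / l) ^ l ≤ 4 := by
    have h2 : ((l + 1 : ℝ) / l) ^ l ≤ Real.exp (1 / l) ^ l :=
      pow_le_pow_left₀ (by positivity) (by
        have := Real.add_one_le_exp (1 / (l : ℝ))
        rw [add_div, div_self h0.ne']
        linarith) _
    rw [← Real.exp_nat_mul, mul_one_div_cancel h0.ne'] at h2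
    linarith [Real.exp_one_lt_three]
  have h3 : ((l + 1 : ℝ) / l) ^ l * pb l 0 l = 1 := by
    rw [pb, pow_zero, one_mul, ← mul_pow, div_mul_div_cancel₀ h0.ne', div_self (by positivity),
      one_pow]
  nlinarith [pb_pos hl 0 l]

theorem pb_beta (hl : 0 < l) {j : ℕ} (h : K ≤ j * l) : 1 ≤ 4 ^ j * pb l 0 K := by
  have h1 : ∀ j : ℕ, 1 ≤ 4 ^ j * pb l 0 (j * l) := fun j => by
    induction j with
    | zero => simp [pb]
    | succ j ih =>
      rw [Nat.succ_mul, ← add_zero 0, pb_add, pow_succ, mul_mul_mul_comm]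
      exact one_le_mul_of_one_le_of_one_le ih (pb_four hl)
  exact (h1 j).trans (mul_le_mul_of_nonneg_left (pb_anti le_rfl h) (by positivity))

theorem pb_one (a b : ℕ) : (l + 1 : ℝ) * pb l (a + 1) b = pb l a b := by
  have : (l + 1 : ℝ) ≠ 0 := by positivity
  simp only [pb, pow_succ]
  field_simp

variable [DecidableEq α] [DecidableEq Y]

/-- The first and the last edge. -/
def AA (σ : α → Perm Y) (ρ : ℕ → α × Bool) (u : Y) (m : ℕ) : Finset (α × Y) :=
  {edg σ ρ u 0, edg σ ρ u m}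

/-- The inner edges. -/
def BB (σ : α → Perm Y) (ρ : ℕ → α × Bool) (u : Y) (m : ℕ) : Finset (α × Y) :=
  (Ioo 0 m).image (edg σ ρ u)

theorem AA_ray {c : ℕ × ℕ} (h : c.1 ≤ c.2) (ε : Bool) (v : Y) :
    AA σ (ray W c ε) (base σ W c ε v) (c.2 - c.1) = AA σ (sh W c.1) v (c.2 - c.1) := by
  cases ε
  · rw [AA, edg_back h v (Nat.zero_le _), edg_back h v le_rfl, Nat.sub_self, Nat.sub_zero, AA,
      pair_comm]
  · rfl

theorem BB_ray {c : ℕ × ℕ} (h : c.1 ≤ c.2) (ε : Bool) (v : Y) :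
    BB σ (ray W c ε) (base σ W c ε v) (c.2 - c.1) = BB σ (sh W c.1) v (c.2 - c.1) := by
  cases ε
  · ext e
    simp only [BB, mem_image, mem_Ioo]
    refine ⟨?_, ?_⟩ <;> rintro ⟨t, ht, rfl⟩
    · exact ⟨c.2 - c.1 - t, by omega, (edg_back h v ht.2.le).symm⟩
    · exact ⟨c.2 - c.1 - t, by omega, by rw [edg_back h v (by omega)]; congr 1; omega⟩
  · rfl

theorem TL.cards {u : Y} (h : TL σ ρ ρ K u) (hρ : Red ρ) (h0 : 0 < m) (hm : m < K) :
    #(AA σ ρ u m) = 2 ∧ #(BB σ ρ u m) = m - 1 ∧ Disjoint (AA σ ρ u m) (BB σ ρ u m) := by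
  refine ⟨card_pair fun e => ?_, ?_, disjoint_right.2 fun e he he' => ?_⟩
  · have := (h.edg hρ hρ (by omega) hm e).1
    omega
  · rw [BB, card_image_of_injOn, Nat.card_Ioo, Nat.sub_zero]
    intro t ht t' ht' e
    simp only [coe_Ioo, Set.mem_Ioo] at ht ht'
    exact (h.edg hρ hρ (by omega) (by omega) e).1
  · obtain ⟨t, ht, rfl⟩ := mem_image.1 he
    rw [mem_Ioo] at ht
    rcases mem_insert.1 he' with e | e
    · have := (h.edg hρ hρ (by omega) (by omega) e).1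
      omega
    · have := (h.edg hρ hρ (by omega) (by omega) (mem_singleton.1 e)).1
      omega

theorem card_meet [Fintype Y] (σ : α → Perm Y) (ρ : ℕ → α × Bool) (v : Y) (hm : m < K) :
    #{v' | ¬ Disjoint (AA σ ρ v m ∪ BB σ ρ v m) (AA σ ρ v' m ∪ BB σ ρ v' m)} ≤ K * K := by
  have h1 : ∀ v, AA σ ρ v m ∪ BB σ ρ v m ⊆ (range K).image (edg σ ρ v) := fun v e he => by
    simp only [AA, BB, mem_union, mem_insert, mem_singleton, mem_image, mem_Ioo, mem_range] at he ⊢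
    rcases he with (rfl | rfl) | ⟨t, ht, rfl⟩
    exacts [⟨0, by omega, rfl⟩, ⟨m, hm, rfl⟩, ⟨t, by omega, rfl⟩]
  refine (card_le_card (t := (range K ×ˢ range K).biUnion fun p =>
    {v' | edg σ ρ v' p.2 = edg σ ρ v p.1}) fun v' hv' => ?_).trans (card_biUnion_le.trans ?_)
  · obtain ⟨e, a, b⟩ := not_disjoint_iff.1 (mem_filter.1 hv').2
    obtain ⟨t, ht, rfl⟩ := mem_image.1 (h1 _ a)
    obtain ⟨t', ht', e'⟩ := mem_image.1 (h1 _ b)
    exact mem_biUnion.2 ⟨(t, t'), mem_product.2 ⟨ht, ht'⟩, mem_filter.2 ⟨mem_univ _, e'⟩⟩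
  · refine (sum_le_card_nsmul _ _ 1 fun p _ => card_le_one.2 fun a ha b hb => ?_).trans (by simp)
    exact edg_inj σ ρ p.2 ((mem_filter.1 ha).2.trans (mem_filter.1 hb).2.symm)

/-- The second ray, seen from the start of the first one. -/
def pt (ρ ρ' : ℕ → α × Bool) : ℕ → α × Bool := if ρ 0 = ρ' 0 then ρ' else sh ρ' 1

/-- Agreement of the first letters. -/
def ag (k : ℕ) (ρ ρ' : ℕ → α × Bool) : Prop := ∀ t < k, ρ t = ρ' t

instance (k : ℕ) (ρ ρ' : ℕ → α × Bool) : Decidable (ag k ρ ρ') := Nat.decidableBallLT _ _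

omit [DecidableEq Y] in
theorem TL.meet {u u' : Y} (h : TL σ ρ (pt ρ ρ') K u) (hρ : Red ρ) (hρ' : Red ρ')
    (e0 : Law.edg σ ρ u 0 = Law.edg σ ρ' u' 0) {t t' : ℕ} (ht : t < K) (h0 : 0 < t') (ht' : t' < K)
    (e : Law.edg σ ρ u t = Law.edg σ ρ' u' t') : t = t' ∧ ∀ i ≤ t, ρ i = ρ' i := by
  rcases ed_eq e0 with ⟨e1, e2⟩ | ⟨e1, e2⟩
  · obtain rfl : u' = u := e2
    rw [pt, if_pos e1.symm] at h
    exact h.edg hρ hρ' ht ht' e
  · rw [pt, if_neg fun c => iv_ne _ (c.trans e1).symm] at h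
    obtain ⟨k, rfl⟩ : ∃ k, t' = 1 + k := ⟨t' - 1, by omega⟩
    have e3 : Law.edg σ ρ' u' (1 + k) = Law.edg σ (sh ρ' 1) u k := by
      rw [Law.edg, walk_sh, e1, show u' = st σ (ρ 0) u from e2, st_iv]
      rfl
    have := (h.edg hρ (hρ'.sh 1) ht (by omega) (e.trans e3)).2 0 (Nat.zero_le _)
    exact absurd (this.symm.trans (by rw [e1, iv_iv])) (hρ' 0)

open Classical in
/-- The probability that two walks with a common end edge both have the right pattern. -/
theorem core {u u' : Y} {β : ℝ} (hl : 0 < l) (hβ : 1 ≤ β * pb l 0 K) (hρ : Red ρ) (hρ' : Red ρ')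
    (e0 : edg σ ρ u 0 = edg σ ρ' u' 0) (hm0 : l ≤ m) (hm : m < K) (hm0' : 0 < m') (hm' : m' < K)
    (hA : #(AA σ ρ u m) = 2) (hA' : #(AA σ ρ' u' m') = 2) (hB : #(BB σ ρ u m) = m - 1)
    (hB' : #(BB σ ρ' u' m') = m' - 1) :
    pb l #(AA σ ρ u m ∪ AA σ ρ' u' m') #(BB σ ρ u m ∪ BB σ ρ' u' m') ≤
      pb l 2 (m - 1) * pb l 2 (m' - 1) * ((l + 1) * (4 + ((if ag (l + 1) ρ ρ' then β else 0) +
        if ag (l + 1) ρ ρ' ∧ m = m' then β * (l + 1) else 0)) +
        if TL σ ρ (pt ρ ρ') K u then 0 else β * (l + 1) ^ 2) := by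
  have hp := pb_pos hl 2 (m - 1)
  have hp' := pb_pos hl 2 (m' - 1)
  have hβ0 : 0 < β := by
    by_contra c
    nlinarith [pb_pos hl 0 K]
  have hL : (0 : ℝ) < l + 1 := by positivity
  have h1 : 1 ≤ pb l 2 (m' - 1) * (β * (l + 1) ^ 2) := by
    have a1 := pb_one (l := l) 1 (m' - 1)
    have a2 := pb_one (l := l) 0 (m' - 1)
    have a3 := mul_le_mul_of_nonneg_left (pb_anti (l := l) (le_refl 0) (show m' - 1 ≤ K by omega)) hβ0.le
    rw [← a2, ← a1] at a3
    refine (hβ.trans a3).trans (le_of_eq ?_)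
    ring
  have b1 : m - 1 ≤ #(BB σ ρ u m ∪ BB σ ρ' u' m') := hB ▸ card_le_card subset_union_left
  have h2 : pb l #(AA σ ρ u m ∪ AA σ ρ' u' m') #(BB σ ρ u m ∪ BB σ ρ' u' m') ≤
      pb l 2 (m - 1) * pb l 2 (m' - 1) * (β * (l + 1) ^ 2) :=
    (pb_anti (hA ▸ card_le_card subset_union_left) b1).trans (by
      rw [mul_assoc]
      exact le_mul_of_one_le_right hp.le h1)
  by_cases c1 : TL σ ρ (pt ρ ρ') K u
  swap
  · rw [if_neg c1]
    refine h2.trans (mul_le_mul_of_nonneg_left (le_add_of_nonneg_left ?_) (by positivity))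
    split_ifs <;> positivity
  rw [if_pos c1, add_zero]
  by_cases c2 : ag (l + 1) ρ ρ' ∧ m = m'
  · rw [if_pos c2, if_pos c2.1]
    refine h2.trans (mul_le_mul_of_nonneg_left ?_ (by positivity))
    nlinarith [mul_pos hL hβ0]
  rw [if_neg c2, add_zero]
  have a3 : 3 ≤ #(AA σ ρ u m ∪ AA σ ρ' u' m') := by
    have n1 : edg σ ρ' u' m' ∉ AA σ ρ u m := fun h => by
      rcases mem_insert.1 h with e | e
      · rw [AA, e, e0] at hA'
        simp at hA'
      · have := c1.meet hρ hρ' e0 hm hm0' hm' (mem_singleton.1 e).symm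
        exact c2 ⟨fun t ht => this.2 t (by omega), this.1⟩
    have := card_le_card (show insert (edg σ ρ' u' m') (AA σ ρ u m) ⊆ AA σ ρ u m ∪ AA σ ρ' u' m' from
      insert_subset (mem_union_right _ (by simp [AA])) subset_union_left)
    rw [card_insert_of_notMem n1] at this
    omega
  by_cases c3 : ag (l + 1) ρ ρ'
  · rw [if_pos c3]
    refine (pb_anti a3 b1).trans (le_of_mul_le_mul_left ?_ hL)
    rw [pb_one]
    refine (le_mul_of_one_le_right hp.le h1).trans ?_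
    have := mul_pos (mul_pos hp hp') (mul_pos hL hL)
    nlinarith
  · rw [if_neg c3, add_zero]
    have b2 : #(BB σ ρ u m ∩ BB σ ρ' u' m') ≤ l := by
      refine (card_le_card (t := (Ioo 0 (l + 1)).image (edg σ ρ u)) fun e he => ?_).trans
        (card_image_le.trans (by simp))
      obtain ⟨a, b⟩ := mem_inter.1 he
      obtain ⟨t, ht, rfl⟩ := mem_image.1 a
      obtain ⟨t', ht', e'⟩ := mem_image.1 b
      rw [mem_Ioo] at ht ht'
      refine mem_image_of_mem _ (mem_Ioo.2 ⟨ht.1, ?_⟩)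
      by_contra c
      exact c3 fun i hi => (c1.meet hρ hρ' e0 (by omega) ht'.1 (by omega) e'.symm).2 i (by omega)
    have b3 := card_union_add_card_inter (BB σ ρ u m) (BB σ ρ' u' m')
    have b4 := pb_anti (l := l) (le_refl (2 + 2))
      (show m - 1 + (m' - 1) ≤ #(BB σ ρ u m ∪ BB σ ρ' u' m') + l by omega)
    rw [pb_add _ 2 (m - 1), show 2 + 2 = 3 + 1 + 0 from rfl, pb_add] at b4
    refine (pb_anti a3 le_rfl).trans ?_
    rw [← pb_one 3]
    have b5 := pb_four hl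
    have b6 := pb_pos hl (3 + 1) #(BB σ ρ u m ∪ BB σ ρ' u' m')
    have b7 := mul_le_mul_of_nonneg_left b5 b6.le
    nlinarith

end Pool.Agent.P.MP_de9ecd_al.Law
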