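import Pool.Agent.P.MP_de9ecd_al.Law6

/-!
# Laws of symmetric groups: the choice of the cuts and the sum over conflicts
-/

namespace Pool.Agent.P.MP_de9ecd_al.Law

open Equiv Finset

variable {α Y ι : Type} {W ρ : ℕ → α × Bool} {σ : α → Perm Y} {l K M Q k w x y : ℕ} {β : ℝ}

/-- No periodic window is close to `z`. -/
def Fr (W : ℕ → α × Bool) (M k w z : ℕ) : Prop := ∀ t, t ≤ z + w → z ≤ t + k + w → ¬ fb W M k t

theorem card_sep {T : Finset ℕ} {u : ℕ} (hT : T ⊆ Ico u (u + M * Q))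
    (h : ∀ a ∈ T, ∀ a' ∈ T, a < a' → a + M ≤ a') : #T ≤ Q := by
  rcases Nat.eq_zero_or_pos M with rfl | hM
  · simp at hT
    simp [hT]
  have key : ∀ a ∈ T, ∀ a' ∈ T, a < a' → (a - u) / M < (a' - u) / M := fun a ha a' ha' c => by
    have h1 := h a ha a' ha' c
    have h2 := (mem_Ico.1 (hT ha)).1
    have h3 := Nat.div_le_div_right (c := M) (show a - u + M ≤ a' - u by omega)
    rwa [Nat.add_div_right _ hM] at h3
  refine (card_le_card_of_injOn (t := range Q) (fun a => (a - u) / M) (fun a ha => ?_)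
    fun a ha a' ha' e => ?_).trans (card_range Q).le
  · have := mem_Ico.1 (hT ha)
    exact mem_coe.2 (mem_range.2 ((Nat.div_lt_iff_lt_mul hM).2 (by rw [mul_comm]; omega)))
  · rcases lt_trichotomy a a' with c | c | c
    exacts [absurd e (key a ha a' ha' c).ne, c, absurd e (key a' ha' a ha c).ne']

/-- The possible cuts. -/
def cuts (D x y : ℕ) : Finset (ℕ × ℕ) := Ico (x + 1) (x + 1 + D) ×ˢ Ico (y - D) (y - D + D)

theorem card_cuts (D x y : ℕ) : #(cuts D x y) = D * D := by simp [cuts]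

variable [DecidableEq α]

theorem cnt_ag (hx : Fr W M k (M * Q) x) (hy : Fr W M k (M * Q) y) (h : x + k + 2 * (M * Q) ≤ y)
    (ε : Bool) (m : ℕ) : #{c ∈ cuts (M * Q) x y | ag k ρ (ray W c ε)} ≤ Q * (M * Q) ∧
      #{c ∈ cuts (M * Q) x y | ag k ρ (ray W c ε) ∧ m = c.2 - c.1} ≤ Q := by
  cases ε
  · have h1 : #{b ∈ Ico (y - M * Q) (y - M * Q + M * Q) | ag k ρ fun t => iv (W (b - t))} ≤ Q := by
      refine card_sep (filter_subset _ _) fun b hb b' hb' c => ?_
      simp only [mem_filter, mem_Ico] at hb hb'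
      by_contra c'
      refine hy (b' + 1 - k) (by omega) (by omega) ⟨b' - b, by omega, by omega, fun i hi => ?_⟩
      have := iv_inj ((hb'.2 (k - 1 - i - (b' - b)) (by omega)).symm.trans (hb.2 _ (by omega)))
      rw [show b' + 1 - k + i + (b' - b) = b' - (k - 1 - i - (b' - b)) by omega, this]
      congr 1
      omega
    refine ⟨(card_le_card (t := Ico (x + 1) (x + 1 + M * Q) ×ˢ {b ∈ Ico (y - M * Q) (y - M * Q + M * Q) |
      ag k ρ fun t => iv (W (b - t))}) fun c hc => ?_).trans (by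
      rw [card_product, Nat.card_Ico, Nat.add_sub_cancel_left, mul_comm]
      exact Nat.mul_le_mul_right _ h1), le_trans (card_le_card_of_injOn Prod.snd (fun c hc => ?_)
        fun c hc c' hc' e => ?_) h1⟩
    · obtain ⟨a, b⟩ := mem_filter.1 hc
      exact mem_product.2 ⟨(mem_product.1 a).1, mem_filter.2 ⟨(mem_product.1 a).2, b⟩⟩
    · obtain ⟨a, b⟩ := mem_filter.1 hc
      exact mem_filter.2 ⟨(mem_product.1 a).2, b.1⟩
    · simp only [cuts, coe_filter, mem_product, mem_Ico, Set.mem_ofPred_eq] at hc hc'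
      exact Prod.ext (by omega) e
  · have h1 : #{a ∈ Ico (x + 1) (x + 1 + M * Q) | ag k ρ (sh W a)} ≤ Q := by
      refine card_sep (filter_subset _ _) fun a ha a' ha' c => ?_
      simp only [mem_filter, mem_Ico] at ha ha'
      by_contra c'
      refine hx a (by omega) (by omega) ⟨a' - a, by omega, by omega, fun i hi => ?_⟩
      rw [show a + i + (a' - a) = a' + i by omega]
      exact (ha'.2 i (by omega)).symm.trans (ha.2 i (by omega))
    refine ⟨(card_le_card (t := {a ∈ Ico (x + 1) (x + 1 + M * Q) | ag k ρ (sh W a)} ×ˢ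
      Ico (y - M * Q) (y - M * Q + M * Q)) fun c hc => ?_).trans (by
      rw [card_product, Nat.card_Ico, Nat.add_sub_cancel_left]
      exact Nat.mul_le_mul_right _ h1), le_trans (card_le_card_of_injOn Prod.fst (fun c hc => ?_)
        fun c hc c' hc' e => ?_) h1⟩
    · obtain ⟨a, b⟩ := mem_filter.1 hc
      exact mem_product.2 ⟨mem_filter.2 ⟨(mem_product.1 a).1, b⟩, (mem_product.1 a).2⟩
    · obtain ⟨a, b⟩ := mem_filter.1 hc
      exact mem_filter.2 ⟨(mem_product.1 a).1, b.1⟩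
    · simp only [cuts, coe_filter, mem_product, mem_Ico, Set.mem_ofPred_eq] at hc hc'
      exact Prod.ext e (by omega)

/-- The weight of a pair of cuts. -/
noncomputable def cw (W : ℕ → α × Bool) (β : ℝ) (l : ℕ) (c c' : ℕ × ℕ) (ε : Bool × Bool) : ℝ :=
  (if ag (l + 1) (ray W c ε.1) (ray W c' ε.2) then β else 0) +
    if ag (l + 1) (ray W c ε.1) (ray W c' ε.2) ∧ c.2 - c.1 = c'.2 - c'.1 then β * (l + 1) else 0

theorem exists_cuts [Fintype ι] [DecidableEq ι] {x y : ι → ℕ} (h0 : 0 < M * Q) (hβ : 0 ≤ β)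
    (h1 : β ≤ M) (h2 : β * (l + 1) ≤ M * (M * Q)) (hx : ∀ i, Fr W M (l + 1) (M * Q) (x i))
    (hy : ∀ i, Fr W M (l + 1) (M * Q) (y i)) (h : ∀ i, x i + (l + 1) + 2 * (M * Q) ≤ y i) :
    ∃ c : ι → ℕ × ℕ, (∀ i, c i ∈ cuts (M * Q) (x i) (y i)) ∧
      ∑ p ∈ univ.offDiag, ∑ ε, cw W β l (c p.1) (c p.2) ε ≤ 8 * (Fintype.card ι : ℝ) ^ 2 := by
  obtain ⟨c, c1, c2⟩ := exists_pick (fun i => cuts (M * Q) (x i) (y i))
    (fun i => card_pos.1 (by rw [card_cuts]; positivity)) univ.offDiag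
    (fun p hp => (mem_offDiag.1 hp).2.2) fun _ a b => ∑ ε, cw W β l a b ε
  refine ⟨c, c1, c2.trans ((sum_le_card_nsmul _ _ 8 fun p _ => ?_).trans ?_)⟩
  · have hD : (0 : ℝ) < M * Q := by exact_mod_cast h0
    rw [card_cuts, card_cuts, div_le_iff₀ (by positivity)]
    refine (sum_le_card_nsmul _ _ (8 * (M * Q * (M * Q) : ℕ) : ℝ) fun a _ => ?_).trans
      (le_of_eq (by rw [card_cuts, nsmul_eq_mul]; ring))
    rw [sum_comm]
    refine (sum_le_card_nsmul _ _ (2 * (M * Q * (M * Q) : ℕ) : ℝ) fun ε _ => ?_).trans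
      (le_of_eq (by simp; ring))
    obtain ⟨a1, a2⟩ := cnt_ag (ρ := ray W a ε.1) (hx p.2) (hy p.2) (h p.2) ε.2 (a.2 - a.1)
    simp only [cw, sum_add_distrib, ← sum_filter, sum_const, nsmul_eq_mul]
    have b1 := mul_le_mul (Nat.cast_le.2 a1) h1 hβ (Nat.cast_nonneg (α := ℝ) _)
    have b2 := mul_le_mul (Nat.cast_le.2 a2) h2 (by positivity) (Nat.cast_nonneg (α := ℝ) _)
    refine (add_le_add b1 b2).trans (le_of_eq ?_)
    push_cast
    ring
  · rw [nsmul_eq_mul, mul_comm, offDiag_card, card_univ, sq]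
    exact mul_le_mul_of_nonneg_left (by exact_mod_cast Nat.sub_le _ _) (by norm_num)

variable [DecidableEq Y] [Fintype Y]

open Classical in
theorem pair_sum (hW : Red W) (hl : 0 < l) (hβ : 1 ≤ β * pb l 0 K) {c c' : ℕ × ℕ}
    (h1 : c.1 + l ≤ c.2) (h2 : c.2 < c.1 + K) (h1' : c'.1 + l ≤ c'.2) (h2' : c'.2 < c'.1 + K) :
    ∑ v with TL σ (sh W c.1) (sh W c.1) K v, ∑ v' with TL σ (sh W c'.1) (sh W c'.1) K v',
      (if Disjoint (AA σ (sh W c.1) v (c.2 - c.1)) (AA σ (sh W c'.1) v' (c'.2 - c'.1)) then 0 else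
        pb l #(AA σ (sh W c.1) v (c.2 - c.1) ∪ AA σ (sh W c'.1) v' (c'.2 - c'.1))
          #(BB σ (sh W c.1) v (c.2 - c.1) ∪ BB σ (sh W c'.1) v' (c'.2 - c'.1))) ≤
      pb l 2 (c.2 - c.1 - 1) * pb l 2 (c'.2 - c'.1 - 1) * ∑ ε : Bool × Bool,
        (Fintype.card Y * ((l + 1) * (4 + cw W β l c c' ε)) +
          β * (l + 1) ^ 2 * nb σ (ray W c ε.1) (pt (ray W c ε.1) (ray W c' ε.2)) K) := by
  have hβ0 : 0 < β := by
    by_contra c
    nlinarith [pb_pos hl 0 K]
  have hp := pb_pos hl 2 (c.2 - c.1 - 1)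
  have hp' := pb_pos hl 2 (c'.2 - c'.1 - 1)
  obtain ⟨F, hF⟩ : ∃ F : Bool × Bool → Y → ℝ, ∀ ε u, F ε u =
      pb l 2 (c.2 - c.1 - 1) * pb l 2 (c'.2 - c'.1 - 1) * ((l + 1) * (4 + cw W β l c c' ε) +
        if TL σ (ray W c ε.1) (pt (ray W c ε.1) (ray W c' ε.2)) K u then 0 else β * (l + 1) ^ 2) :=
    ⟨_, fun _ _ => rfl⟩
  have F0 : ∀ ε u, 0 ≤ F ε u := fun ε u => by
    rw [hF, cw]
    split_ifs <;> positivity
  have hA : ∀ {c : ℕ × ℕ} {v : Y} {e : α × Y}, c.1 ≤ c.2 → e ∈ AA σ (sh W c.1) v (c.2 - c.1) →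
      ∃ ε, edg σ (ray W c ε) (base σ W c ε v) 0 = e := fun h he => by
    rcases mem_insert.1 he with e | e
    · exact ⟨true, e.symm⟩
    · exact ⟨false, (edg_back h _ (Nat.zero_le _)).trans (mem_singleton.1 e).symm⟩
  refine (sum_le_sum (g := fun v => ∑ ε, F ε (base σ W c ε.1 v)) fun v hv => ?_).trans
    ((sum_le_sum_of_subset_of_nonneg (filter_subset _ _) fun _ _ _ =>
      sum_nonneg fun _ _ => F0 _ _).trans (le_of_eq ?_))
  · refine (sum_le_sum (g := fun v' => ∑ ε : Bool × Bool, if edg σ (ray W c ε.1)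
      (base σ W c ε.1 v) 0 = edg σ (ray W c' ε.2) (base σ W c' ε.2 v') 0 then
        F ε (base σ W c ε.1 v) else 0) fun v' hv' => ?_).trans ?_
    · have nn : ∀ ε ∈ (univ : Finset (Bool × Bool)), 0 ≤ if edg σ (ray W c ε.1)
          (base σ W c ε.1 v) 0 = edg σ (ray W c' ε.2) (base σ W c' ε.2 v') 0 then
            F ε (base σ W c ε.1 v) else 0 := fun ε _ => by
        split_ifs
        exacts [F0 _ _, le_rfl]
      split_ifs with d
      · exact sum_nonneg nn
      obtain ⟨e, a, b⟩ := not_disjoint_iff.1 d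
      obtain ⟨ε, a⟩ := hA (by omega) a
      obtain ⟨ε', b⟩ := hA (by omega) b
      refine le_trans ?_ (single_le_sum nn (mem_univ (ε, ε')))
      rw [if_pos (a.trans b.symm), hF]
      obtain ⟨a1, a2, -⟩ := (mem_filter.1 hv).2.cards (m := c.2 - c.1) (hW.sh _) (by omega) (by omega)
      obtain ⟨b1, b2, -⟩ := (mem_filter.1 hv').2.cards (m := c'.2 - c'.1) (hW.sh _) (by omega)
        (by omega)
      rw [← AA_ray (by omega) ε] at a1 ⊢
      rw [← BB_ray (by omega) ε] at a2 ⊢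
      rw [← AA_ray (c := c') (by omega) ε'] at b1 ⊢
      rw [← BB_ray (c := c') (by omega) ε'] at b2 ⊢
      exact core hl hβ (red_ray hW c ε) (red_ray hW c' ε') (a.trans b.symm) (by omega) (by omega)
        (by omega) (by omega) a1 b1 a2 b2
    · rw [sum_comm]
      refine sum_le_sum fun ε _ => ?_
      rw [← sum_filter, sum_const, nsmul_eq_mul]
      refine mul_le_of_le_one_left (F0 _ _) (Nat.cast_le_one.2 (card_le_one.2 fun a ha b hb => ?_))
      exact base_inj σ W c' ε.2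
        (edg_inj σ _ 0 ((mem_filter.1 ha).2.symm.trans (mem_filter.1 hb).2))
  · rw [sum_comm, mul_sum]
    refine sum_congr rfl fun ε _ => ?_
    rw [(Finite.injective_iff_bijective.1 (base_inj σ W c ε.1)).sum_comp (F ε)]
    simp only [hF, ← mul_sum, sum_add_distrib, sum_const, card_univ, nsmul_eq_mul, nb,
      ← ite_not (TL _ _ _ _ _), ← sum_filter]
    ring

end Pool.Agent.P.MP_de9ecd_al.Law
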