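import Pool.Agent.P.MP_de9ecd_al.Law7

/-!
# Laws of symmetric groups: many aperiodic segments on few points
-/

namespace Pool.Agent.P.MP_de9ecd_al.Law

open Equiv Finset

variable {α ι κ : Type} {W : ℕ → α × Bool} {l K M Q n : ℕ} {β : ℝ}

theorem pb_low (hl : 0 < l) (hβ : 1 ≤ β * pb l 0 K) {r : ℕ} (hr : r ≤ K) :
    1 ≤ pb l 2 r * (β * (l + 1) ^ 2) := by
  have hβ0 : 0 < β := by
    by_contra c
    nlinarith [pb_pos hl 0 K]
  have a3 := mul_le_mul_of_nonneg_left (pb_anti (l := l) (le_refl 0) hr) hβ0.le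
  rw [← pb_one 0 r, ← pb_one 1 r] at a3
  exact (hβ.trans a3).trans (le_of_eq (by ring))

theorem num_end {N n L k β T : ℝ} (hN : 0 ≤ N) (hn : 0 < n) (hL : 1 ≤ L) (hk : 0 ≤ k) (hβ : 1 ≤ β)
    (h1 : 4096 * L * N ≤ n) (h2 : 128 * β * L ^ 2 * (k + 1) ^ 4 ≤ n)
    (hT : T ≤ (N * (2 / n) + N * N * 4 * (16 / n ^ 2 * (β * L ^ 2))) * (8 * (k + 1) ^ 4)) :
    T + N * (8 * (k * k) * (β * L ^ 2) / n) + 16 / n ^ 2 * (n * (L * (24 * N ^ 2))) ≤ N / 2 := by
  have a1 : L * N / n ≤ 1 / 4096 := by rw [div_le_iff₀ hn]; linarith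
  have a2 : β * L ^ 2 * (k + 1) ^ 4 / n ≤ 1 / 128 := by rw [div_le_iff₀ hn]; linarith
  have a3 : 1 ≤ β * L ^ 2 := one_le_mul_of_one_le_of_one_le hβ (one_le_pow₀ hL)
  have a4 : (k + 1) ^ 4 / n ≤ 1 / 128 :=
    (div_le_div_of_nonneg_right (le_mul_of_one_le_left (by positivity) a3) hn.le).trans a2
  have a5 : N / n ≤ 1 / 4096 :=
    (div_le_div_of_nonneg_right (le_mul_of_one_le_left hN hL) hn.le).trans a1
  have a6 : k * k * (β * L ^ 2) / n ≤ 1 / 128 := by
    refine (div_le_div_of_nonneg_right ?_ hn.le).trans a2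
    rw [mul_comm]
    exact mul_le_mul_of_nonneg_left (by nlinarith [pow_nonneg hk 3, pow_nonneg hk 4]) (by positivity)
  have a7 := mul_le_mul a5 a2 (by positivity) (by norm_num)
  have e1 : (N * (2 / n) + N * N * 4 * (16 / n ^ 2 * (β * L ^ 2))) * (8 * (k + 1) ^ 4) =
      N * (16 * ((k + 1) ^ 4 / n) + 512 * (N / n * (β * L ^ 2 * (k + 1) ^ 4 / n))) := by
    field_simp
    ring
  have e2 : 16 / n ^ 2 * (n * (L * (24 * N ^ 2))) = N * (384 * (L * N / n)) := by
    field_simp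
    ring
  rw [e2, mul_assoc 8, mul_div_assoc 8]
  rw [e1] at hT
  nlinarith [mul_le_mul_of_nonneg_left a1 hN, mul_le_mul_of_nonneg_left a4 hN,
    mul_le_mul_of_nonneg_left a6 hN, mul_le_mul_of_nonneg_left a7 hN]

variable [DecidableEq α]

theorem real_walk {Y : Type} [Fintype Y] [DecidableEq Y] (hW : Red W) {σ : α → Perm Y} {J : Finset ι}
    {c : ι → ℕ × ℕ} {v : ι → Y} (h : ∀ i ∈ J, (c i).1 < (c i).2 ∧ (c i).2 < (c i).1 + K ∧
      TL σ (sh W (c i).1) (sh W (c i).1) K (v i))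
    (hd : ∀ i ∈ J, ∀ j ∈ J, Disjoint (AA σ (sh W (c i).1) (v i) ((c i).2 - (c i).1))
      (BB σ (sh W (c j).1) (v j) ((c j).2 - (c j).1)) ∧
      (i ≠ j → Disjoint (AA σ (sh W (c i).1) (v i) ((c i).2 - (c i).1))
        (AA σ (sh W (c j).1) (v j) ((c j).2 - (c j).1)))) :
    Real W J (fun i => (c i).1) (fun i => (c i).2) (Fintype.card Y) := by
  have e : ∀ i t, (c i).1 ≤ t → ed σ (W t) (walk σ (sh W (c i).1) (v i) (t - (c i).1)) =
      edg σ (sh W (c i).1) (v i) (t - (c i).1) := fun i t ht => by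
    rw [edg, sh, Nat.add_sub_cancel' ht]
  refine ⟨fun i hi => (h i hi).1, Y, σ, fun i t => walk σ (sh W (c i).1) (v i) (t - (c i).1), univ,
    le_rfl, fun _ _ _ _ _ => mem_univ _, fun i _ t ht _ => ?_, fun i hi j hj t t' a1 a2 a3 a4 => ?_⟩
  · beta_reduce at *
    rw [Nat.succ_sub ht, walk, sh, Nat.add_sub_cancel' ht]
  · beta_reduce at *
    obtain ⟨b1, b2, b3⟩ := h i hi
    obtain ⟨b4, b5, -⟩ := h j hj
    rw [e i t (by omega), e j t' a2] at a4
    have m1 : edg σ (sh W (c i).1) (v i) (t - (c i).1) ∈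
        AA σ (sh W (c i).1) (v i) ((c i).2 - (c i).1) := by
      rcases a1 with rfl | rfl <;> simp [AA]
    obtain rfl : i = j := by
      by_contra c'
      rw [a4] at m1
      by_cases c'' : t' = (c j).1 ∨ t' = (c j).2
      · refine disjoint_left.1 ((hd i hi j hj).2 c') m1 ?_
        rcases c'' with rfl | rfl <;> simp [AA]
      · exact disjoint_left.1 (hd i hi j hj).1 m1 (mem_image_of_mem _ (mem_Ioo.2 (by omega)))
    have := (b3.edg (hW.sh _) (hW.sh _) (by omega) (by omega) a4).1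
    exact ⟨rfl, by omega⟩

variable [Fintype α]

theorem round [Fintype ι] {x y : ι → ℕ} (hW : Red W) (hl : 0 < l) (h0 : 0 < M * Q)
    (hβ : 1 ≤ β * pb l 0 K) (h1 : β ≤ M) (h2 : β * (l + 1) ≤ M * (M * Q))
    (hx : ∀ i, Fr W M (l + 1) (M * Q) (x i)) (hy : ∀ i, Fr W M (l + 1) (M * Q) (y i))
    (h : ∀ i, x i + (l + 1) + 2 * (M * Q) ≤ y i ∧ y i ≤ x i + K)
    (hn1 : 4096 * (l + 1) * Fintype.card ι ≤ n) (hn2 : 128 * β * (l + 1) ^ 2 * (K + 1) ^ 4 ≤ n) :
    ∃ J : Finset ι, Fintype.card ι ≤ 2 * #J ∧ Real W J x y (n + #J * (2 * (M * Q) + 4)) := by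
  classical
  have hβ1 : 1 ≤ β := by
    have := pb_anti (l := l) (le_refl 0) (Nat.zero_le K)
    rw [show pb l 0 0 = 1 by simp [pb]] at this
    by_contra c
    nlinarith [pb_pos hl 0 K]
  have hK : 4 * K + 1 ≤ n := by
    have a1 : (1 : ℝ) ≤ β * (l + 1) ^ 2 :=
      one_le_mul_of_one_le_of_one_le hβ1 (one_le_pow₀ (by simp))
    have a2 : (K + 1 : ℝ) ≤ (K + 1) ^ 4 := le_self_pow₀ (by simp) (by norm_num)
    have a3 := mul_le_mul a1 a2 (by positivity) (by positivity)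
    have : (4 * K + 1 : ℝ) ≤ n := by linarith [Nat.cast_nonneg (α := ℝ) K]
    exact_mod_cast this
  have hn : (0 : ℝ) < n := Nat.cast_pos.2 (by omega)
  have : Nonempty (Fin n) := ⟨⟨0, by omega⟩⟩
  obtain ⟨c, c1, c2⟩ := exists_cuts h0 (by linarith) h1 h2 hx hy fun i => (h i).1
  have c3 : ∀ i, x i < (c i).1 ∧ (c i).1 ≤ x i + M * Q ∧ (c i).2 < y i ∧ y i ≤ (c i).2 + M * Q ∧
      (c i).1 + l < (c i).2 ∧ (c i).2 < (c i).1 + K := fun i => by
    have a1 := c1 i
    have a2 := h i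
    simp only [cuts, mem_product, mem_Ico] at a1
    omega
  obtain ⟨σ, hσ⟩ := exists_tl (Y := Fin n) (κ := ι ⊕ (ι × ι) × Bool × Bool) univ
    (Sum.elim (fun i => sh W (c i).1) fun q => ray W (c q.1.1) q.2.1)
    (Sum.elim (fun i => sh W (c i).1) fun q => pt (ray W (c q.1.1) q.2.1) (ray W (c q.1.2) q.2.2))
    (Sum.elim (fun _ => 2 / (n : ℝ)) fun _ => 16 / (n : ℝ) ^ 2 * (β * (l + 1) ^ 2))
    (by rintro (_ | _) - <;> simp only [Sum.elim_inl, Sum.elim_inr] <;> positivity) (K := K)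
    (by rw [Fintype.card_fin]; omega) (by rw [Fintype.card_fin]; omega)
  obtain ⟨J, v, j1, j2, j3⟩ := rstep hl (fun i => {v | TL σ (sh W (c i).1) (sh W (c i).1) K v})
    (fun i v => AA σ (sh W (c i).1) v ((c i).2 - (c i).1))
    (fun i v => BB σ (sh W (c i).1) v ((c i).2 - (c i).1)) (fun i => (c i).2 - (c i).1 - 1)
    (D := K * K) (fun i v hv => (mem_filter.1 hv).2.cards (hW.sh _) (by have := c3 i; omega)
      (by have := c3 i; omega)) fun i v => card_meet σ _ v (by have := c3 i; omega)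
  refine ⟨J, ?_, ?_⟩
  swap
  · have := real_walk hW (K := K) (fun i hi => ⟨by have := c3 i; omega, (c3 i).2.2.2.2.2,
      (mem_filter.1 (j1 i hi)).2⟩) j2
    rw [Fintype.card_fin] at this
    exact this.ext hW (fun i _ => ⟨(c3 i).1, (c3 i).2.1⟩) fun i _ => ⟨(c3 i).2.2.1, (c3 i).2.2.2.1⟩
  replace j3 := j3.trans (add_le_add le_rfl (add_le_add
    (sum_le_sum (g := fun i => 2 / (n : ℝ) * nb σ (sh W (c i).1) (sh W (c i).1) K +
      8 * (K * K) * (β * (l + 1) ^ 2) / n) fun i _ => ?_)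
    (sum_le_sum (g := fun p => 16 / (n : ℝ) ^ 2 * (n * ((l + 1) *
      (16 + ∑ ε, cw W β l (c p.1) (c p.2) ε))) + ∑ ε : Bool × Bool, 16 / (n : ℝ) ^ 2 *
        (β * (l + 1) ^ 2) * nb σ (ray W (c p.1) ε.1) (pt (ray W (c p.1) ε.1) (ray W (c p.2) ε.2)) K)
      fun p _ => ?_)))
  · rw [Fintype.sum_sum_type, Fintype.sum_sum_type, Fintype.sum_prod_type] at hσ
    simp only [Sum.elim_inl, Sum.elim_inr, sum_const, card_univ, nsmul_eq_mul, Fintype.card_prod,
      Fintype.card_bool, Nat.cast_mul] at hσ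
    have a1 := num_end (Nat.cast_nonneg (Fintype.card ι)) hn (L := l + 1) (by simp)
      (Nat.cast_nonneg K) hβ1 (by exact_mod_cast hn1) hn2 (hσ.trans (le_of_eq (by norm_num)))
    have a2 := sum_le_sum_of_subset_of_nonneg (f := fun p : ι × ι => ∑ ε : Bool × Bool,
      16 / (n : ℝ) ^ 2 * (β * (l + 1) ^ 2) *
        nb σ (ray W (c p.1) ε.1) (pt (ray W (c p.1) ε.1) (ray W (c p.2) ε.2)) K)
      (subset_univ univ.offDiag) fun _ _ _ => by positivity
    have a3 : ∑ p ∈ univ.offDiag, (16 + ∑ ε, cw W β l (c p.1) (c p.2) ε) ≤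
        24 * (Fintype.card ι : ℝ) ^ 2 := by
      have : (#(univ : Finset ι).offDiag : ℝ) ≤ (Fintype.card ι : ℝ) ^ 2 := by
        rw [offDiag_card, card_univ, sq]
        exact_mod_cast Nat.sub_le _ _
      rw [sum_add_distrib, sum_const, nsmul_eq_mul]
      linarith
    have a4 := mul_le_mul_of_nonneg_left (mul_le_mul_of_nonneg_left (mul_le_mul_of_nonneg_left a3
      (show (0 : ℝ) ≤ l + 1 by positivity)) hn.le) (show 0 ≤ 16 / (n : ℝ) ^ 2 by positivity)
    rw [sum_add_distrib, sum_add_distrib, sum_const, card_univ, nsmul_eq_mul, ← mul_sum univ.offDiag,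
      ← mul_sum univ.offDiag, ← mul_sum univ.offDiag] at j3
    have : (Fintype.card ι : ℝ) ≤ 2 * #J := by linarith
    exact_mod_cast this
  · have a1 := pb_low hl hβ (r := (c i).2 - (c i).1 - 1) (by have := c3 i; omega)
    have a2 := pb_pos hl 2 ((c i).2 - (c i).1 - 1)
    have a3 := card_filter_add_card_filter_not (s := univ)
      fun v => TL σ (sh W (c i).1) (sh W (c i).1) K v
    rw [card_univ] at a3
    refine add_le_add (le_of_eq ?_) ?_
    · rw [← a3, Nat.cast_add, add_sub_cancel_left, ← Nat.cast_add, a3, Fintype.card_fin, nb]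
      ring
    · rw [Fintype.card_fin, div_le_div_iff₀ (by positivity) hn, Nat.cast_mul]
      refine le_trans (le_mul_of_one_le_right (by positivity) a1) (le_of_eq (by ring))
  · have a1 := c3 p.1
    have a2 := c3 p.2
    have a3 := pb_pos hl 2 ((c p.1).2 - (c p.1).1 - 1)
    have a4 := pb_pos hl 2 ((c p.2).2 - (c p.2).1 - 1)
    refine (mul_le_mul_of_nonneg_left (pair_sum hW hl hβ (by omega) (by omega) (by omega) (by omega))
      (by positivity)).trans (le_of_eq ?_)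
    simp only [sum_add_distrib, ← mul_sum, sum_const, card_univ, Fintype.card_prod,
      Fintype.card_bool, Fintype.card_fin, nsmul_eq_mul]
    field_simp
    ring

omit [DecidableEq α] [Fintype α] in
theorem Real.map [Nonempty κ] {J : Finset κ} {a b : ι → ℕ} (e : κ ↪ ι)
    (h : Real W J (fun k => a (e k)) (fun k => b (e k)) n) : Real W (J.map e) a b n := by
  have hl := Function.leftInverse_invFun e.injective
  refine h.reidx (Function.invFun e) (fun i hi => ?_) fun i hi j hj => ?_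
  · obtain ⟨k, hk, rfl⟩ := mem_map.1 hi
    rw [hl k]
    exact ⟨hk, rfl, rfl⟩
  · obtain ⟨k, -, rfl⟩ := mem_map.1 hi
    obtain ⟨k', -, rfl⟩ := mem_map.1 hj
    rw [hl k, hl k']
    exact congrArg e

/-- Aperiodic segments are cheap. -/
theorem real_rand {x y : ι → ℕ} {n₀ : ℕ} (hW : Red W) (hl : 0 < l) (h0 : 0 < M * Q)
    (hβ : 1 ≤ β * pb l 0 K) (h1 : β ≤ M) (h2 : β * (l + 1) ≤ M * (M * Q))
    (hn : 128 * β * (l + 1) ^ 2 * (K + 1) ^ 4 ≤ n₀) (I : Finset ι)
    (h : ∀ i ∈ I, Fr W M (l + 1) (M * Q) (x i) ∧ Fr W M (l + 1) (M * Q) (y i) ∧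
      x i + (l + 1) + 2 * (M * Q) ≤ y i ∧ y i ≤ x i + K) :
    Real W I x y (#I * (8192 * (l + 1) + (2 * (M * Q) + 4)) + n₀ * (K + 2)) := by
  classical
  induction I using Finset.strongInduction with
  | _ I ih =>
  rcases le_or_gt (#I) n₀ with c | c
  · refine (real_sum (c := fun _ => K + 2) fun i hi => (real_plain hW ?_).mono ?_).mono ?_
    · have := h i hi
      omega
    · have := h i hi
      omega
    · rw [sum_const, smul_eq_mul]
      exact (Nat.mul_le_mul_right _ c).trans (Nat.le_add_left _ _)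
  have : Nonempty I := (card_pos.1 (by omega)).to_subtype
  obtain ⟨J, j1, j2⟩ := round (ι := I) (x := fun i => x i) (y := fun i => y i)
    (n := 4096 * (l + 1) * #I) hW hl h0 hβ h1 h2 (fun i => (h i i.2).1) (fun i => (h i i.2).2.1)
    (fun i => (h i i.2).2.2) (by rw [Fintype.card_coe])
    (hn.trans (Nat.cast_le.2 (c.le.trans (Nat.le_mul_of_pos_left _ (by omega)))))
  rw [Fintype.card_coe] at j1
  have j3 := Real.map (Function.Embedding.subtype _) j2
  have j4 : J.map (Function.Embedding.subtype _) ⊆ I := fun i hi => by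
    obtain ⟨k, -, rfl⟩ := mem_map.1 hi
    exact k.2
  rw [← card_map (Function.Embedding.subtype _)] at j1 j3
  generalize J.map (Function.Embedding.subtype _) = J' at j1 j3 j4
  have j5 := j3.union (ih (I \ J') (sdiff_ssubset j4 (card_pos.1 (by omega)))
    fun i hi => h i (mem_sdiff.1 hi).1)
  rw [union_sdiff_of_subset j4] at j5
  refine j5.mono ?_
  have j6 := Nat.mul_le_mul_left (4096 * (l + 1)) j1
  rw [← card_sdiff_add_card_eq_card j4] at j6 ⊢
  nlinarith

end Pool.Agent.P.MP_de9ecd_al.Law
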