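import Pool.Agent.P.MP_de9ecd_al.Law8

/-!
# Laws of symmetric groups: decomposition of a word into segments
-/

namespace Pool.Agent.P.MP_de9ecd_al.Law

open Equiv Finset

variable {α : Type} {W : ℕ → α × Bool} {l k w K M Q R x y : ℕ} {β : ℝ}

/-- Segments with aperiodic ends. -/
def RT (W : ℕ → α × Bool) (M k w K a b : ℕ) : Prop :=
  Fr W M k w a ∧ Fr W M k w b ∧ a + k + 2 * w ≤ b ∧ b ≤ a + K

/-- Segments that are covered by periodic windows. -/
def GT (W : ℕ → α × Bool) (M k w a b : ℕ) : Prop :=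
  a < b ∧ ¬ fb W M k a ∧ ¬ fb W M k (b + 1 - k) ∧ ∀ z, a + k + 2 * w ≤ z → z < b → ¬ Fr W M k w z

/-- Chains of segments. -/
def Ch (W : ℕ → α × Bool) (M k w K x y q : ℕ) : Prop :=
  ∃ c : ℕ → ℕ, c 0 = x ∧ c q = y ∧
    ∀ i < q, c (i + 1) ≤ y ∧ (RT W M k w K (c i) (c (i + 1)) ∨ GT W M k w (c i) (c (i + 1)))

theorem Ch.cons {z q : ℕ} (h : Ch W M k w K z y q) (hz : z ≤ y)
    (hx : RT W M k w K x z ∨ GT W M k w x z) : Ch W M k w K x y (q + 1) := by
  obtain ⟨c, h0, h1, h2⟩ := h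
  refine ⟨fun i => Nat.casesOn i x c, rfl, h1, fun i hi => ?_⟩
  cases i with
  | zero =>
    subst h0
    exact ⟨hz, hx⟩
  | succ i => exact h2 i (by omega)

theorem Fr.left {z : ℕ} (h : Fr W M k w z) : ¬ fb W M k z := h z (by omega) (by omega)

theorem Fr.right {z : ℕ} (hk : 0 < k) (h : Fr W M k w z) : ¬ fb W M k (z + 1 - k) :=
  h _ (by omega) (by omega)

theorem GT.cov {a b : ℕ} (h : GT W M k w a b) : Cov W M k (w + 1) a (k + 2 * w + 1) b := by
  intro z h1 h2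
  have := h.2.2.2 (z - 1) (by omega) (by omega)
  unfold Fr at this
  push Not at this
  obtain ⟨t, t1, t2, t3⟩ := this
  exact ⟨t, by omega, t3, by omega, by omega⟩

theorem chain_fr (hk : 0 < k) (hy : ¬ fb W M k (y + 1 - k)) (m : ℕ) :
    ∀ x, (x = y ∨ (Fr W M k w x ∧ x < y)) → y ≤ x + m * K → ∃ q ≤ 2 * m, Ch W M k w K x y q := by
  classical
  induction m with
  | zero =>
    intro x hx h
    exact ⟨0, le_rfl, fun _ => y, show y = x by omega, rfl, by omega⟩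
  | succ m ih =>
    rintro x (rfl | ⟨hx, hxy⟩) h
    · exact ⟨0, by omega, fun _ => x, rfl, rfl, by omega⟩
    obtain ⟨u, u1, u2, u3, u4⟩ : ∃ u, x ≤ u ∧ u ≤ x + K ∧ (Fr W M k w u ∧ u < y) ∧
        ∀ z, u < z → z ≤ x + K → ¬ (Fr W M k w z ∧ z < y) :=
      ⟨Nat.findGreatest (fun z => Fr W M k w z ∧ z < y) (x + K),
        Nat.le_findGreatest (by omega) ⟨hx, hxy⟩, Nat.findGreatest_le _,
        Nat.findGreatest_spec (P := fun z => Fr W M k w z ∧ z < y) (m := x) (by omega) ⟨hx, hxy⟩,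
        fun z h1 h2 => Nat.findGreatest_is_greatest h1 h2⟩
    have hex : ∃ z, z = y ∨ (x + K < z ∧ Fr W M k w z) := ⟨y, Or.inl rfl⟩
    obtain ⟨f, f1, f2, f3⟩ : ∃ f, (f = y ∨ (x + K < f ∧ Fr W M k w f)) ∧ f ≤ y ∧
        ∀ z < f, ¬ (z = y ∨ (x + K < z ∧ Fr W M k w z)) :=
      ⟨Nat.find hex, Nat.find_spec hex, Nat.find_min' hex (Or.inl rfl),
        fun z hz => Nat.find_min hex hz⟩
    have g1 : ∀ z, u < z → z < f → ¬ Fr W M k w z := fun z h1 h2 h3 => by
      by_cases c : z ≤ x + K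
      · exact u4 z h1 c ⟨h3, by omega⟩
      · exact f3 z h2 (Or.inr ⟨by omega, h3⟩)
    have g2 : u < f := by omega
    have g3 : ¬ fb W M k (f + 1 - k) := by
      rcases f1 with rfl | ⟨-, f1⟩
      · exact hy
      · exact f1.right hk
    obtain ⟨q, hq, hc⟩ := ih f (by
      rcases f1 with rfl | ⟨-, f1⟩
      · exact Or.inl rfl
      · exact f2.eq_or_lt.imp id fun e => ⟨f1, e⟩) (by rw [Nat.succ_mul] at h; omega)
    by_cases c : u < x + k + 2 * w
    · exact ⟨q + 1, by omega, hc.cons f2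
        (Or.inr ⟨by omega, hx.left, g3, fun z h1 h2 => g1 z (by omega) h2⟩)⟩
    · exact ⟨q + 1 + 1, by omega, (hc.cons f2
        (Or.inr ⟨g2, u3.1.left, g3, fun z h1 h2 => g1 z (by omega) h2⟩)).cons u3.2.le
        (Or.inl ⟨hx, u3.1, by omega, u2⟩)⟩

theorem chain_all (hk : 0 < k) (hx : ¬ fb W M k x) (hy : ¬ fb W M k (y + 1 - k)) (hxy : x < y)
    {m : ℕ} (hm : y ≤ m * K) : ∃ q ≤ 2 * m, Ch W M k w K x y (q + 1) := by
  classical
  have hex : ∃ z, z = y ∨ (x + k + 2 * w ≤ z ∧ Fr W M k w z) := ⟨y, Or.inl rfl⟩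
  obtain ⟨f, f1, f2, f3⟩ : ∃ f, (f = y ∨ (x + k + 2 * w ≤ f ∧ Fr W M k w f)) ∧ f ≤ y ∧
      ∀ z < f, ¬ (z = y ∨ (x + k + 2 * w ≤ z ∧ Fr W M k w z)) :=
    ⟨Nat.find hex, Nat.find_spec hex, Nat.find_min' hex (Or.inl rfl),
      fun z hz => Nat.find_min hex hz⟩
  obtain ⟨q, hq, hc⟩ := chain_fr (w := w) (K := K) hk hy m f (by
    rcases f1 with rfl | ⟨-, f1⟩
    · exact Or.inl rfl
    · exact f2.eq_or_lt.imp id fun e => ⟨f1, e⟩) (by omega)
  refine ⟨q, hq, hc.cons f2 (Or.inr ⟨by omega, hx, ?_, fun z h1 h2 h3 => f3 z h2 (Or.inr ⟨h1, h3⟩)⟩)⟩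
  rcases f1 with rfl | ⟨-, f1⟩
  · exact hy
  · exact f1.right hk

theorem real_all [DecidableEq α] [Fintype α] {n₀ m G : ℕ} (hW : Red W) (hl : 0 < l)
    (h0 : 0 < M * Q) (hβ : 1 ≤ β * pb l 0 K) (h1 : β ≤ M) (h2 : β * (l + 1) ≤ M * (M * Q))
    (hn : 128 * β * (l + 1) ^ 2 * (K + 1) ^ 4 ≤ n₀) (hR : (R + 1) * (y * (y + 1)) < 2 ^ R)
    (hM : 2 * (M * M + 1) + M ≤ l + 1) (hx : ¬ fb W M (l + 1) x)
    (hy : ¬ fb W M (l + 1) (y + 1 - (l + 1))) (hxy : x < y) (hm : y ≤ m * K)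
    (hG : 2 * ((2 * (M * M + 1) + M) * R) + 2 * (M * Q + 1) + 1 ≤ G) :
    Real W {0} (fun _ => x) (fun _ => y)
      ((2 * m + 1) * (8194 * (l + 1) + 5 * (M * Q) + 8 + G) + n₀ * (K + 2) +
        y / (l + 1 - M * M) * G) := by
  classical
  obtain ⟨q, hq, c, c0, c1, c2⟩ := chain_all (w := M * Q) (by omega) hx hy hxy hm
  have hD : 0 < l + 1 - M * M := by omega
  have r1 := real_rand (x := c) (y := fun i => c (i + 1)) hW hl h0 hβ h1 h2 hn
    ((range (q + 1)).filter fun i => RT W M (l + 1) (M * Q) K (c i) (c (i + 1)))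
    fun i hi => (mem_filter.1 hi).2
  have r2 := real_sum (W := W) (a := c) (b := fun i => c (i + 1))
    (I := (range (q + 1)).filter fun i => ¬ RT W M (l + 1) (M * Q) K (c i) (c (i + 1)))
    (c := fun i => 2 * (l + 1) + 3 * (M * Q) + 4 + G + (c (i + 1) - c i) / (l + 1 - M * M) * G)
    fun i hi => by
      obtain ⟨i1, i2⟩ := mem_filter.1 hi
      obtain ⟨j1, j2⟩ := c2 i (mem_range.1 i1)
      have g := j2.resolve_left i2
      refine (gadget (a := c) (b := fun i => c (i + 1)) (F := (c (i + 1) - c i) / (l + 1 - M * M) + 1) hW hR hM g.1 j1 ?_ g.2.1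
        g.2.2.1 g.cov).mono ?_
      · have := Nat.lt_mul_div_succ (c (i + 1) - c i) hD
        rw [mul_comm] at this
        omega
      · have := Nat.mul_le_mul_left ((c (i + 1) - c i) / (l + 1 - M * M) + 1) hG
        rw [Nat.succ_mul _ G] at this
        omega
  have r3 := r1.union r2
  rw [filter_union_filter_not_eq] at r3
  have r4 := r3.chain
  rw [c0, c1] at r4
  refine r4.mono ?_
  have t1 : ∀ j ≤ q + 1, ∑ i ∈ range j, (c (i + 1) - c i) ≤ c j := by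
    intro j
    induction j with
    | zero => simp
    | succ j ih =>
      intro hj
      have := ih (by omega)
      have e : c j < c (j + 1) := by
        rcases (c2 j (by omega)).2 with e | e
        · have := e.2.2.1
          omega
        · exact e.1
      rw [sum_range_succ]
      omega
  have t2 : ∑ i ∈ range (q + 1), (c (i + 1) - c i) / (l + 1 - M * M) ≤ y / (l + 1 - M * M) := by
    rw [Nat.le_div_iff_mul_le hD, sum_mul, ← c1]
    exact (sum_le_sum fun i _ => Nat.div_mul_le_self _ _).trans (t1 _ le_rfl)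
  have t3 := (sum_le_sum_of_subset (f := fun i => 2 * (l + 1) + 3 * (M * Q) + 4 + G +
    (c (i + 1) - c i) / (l + 1 - M * M) * G) (filter_subset
    (fun i => ¬ RT W M (l + 1) (M * Q) K (c i) (c (i + 1))) (range (q + 1))))
  rw [sum_add_distrib (s := range (q + 1)), ← sum_mul, sum_const, card_range, smul_eq_mul] at t3
  have t4 := Nat.mul_le_mul_right (8192 * (l + 1) + (2 * (M * Q) + 4)) (card_filter_le
    (range (q + 1)) fun i => RT W M (l + 1) (M * Q) K (c i) (c (i + 1)))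
  rw [card_range] at t4
  have t5 := Nat.mul_le_mul_right G t2
  have t6 := Nat.mul_le_mul_right (8194 * (l + 1) + 5 * (M * Q) + 8 + G)
    (show q + 1 ≤ 2 * m + 1 by omega)
  have t7 : (q + 1) * (8194 * (l + 1) + 5 * (M * Q) + 8 + G) =
      (q + 1) * (8192 * (l + 1) + (2 * (M * Q) + 4)) +
        (q + 1) * (2 * (l + 1) + 3 * (M * Q) + 4 + G) := by ring
  omega

end Pool.Agent.P.MP_de9ecd_al.Law
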