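import Mathlib
import Pool.Agent.P.MP_de9ecd_al.Blocks

/-! Chebyshev type estimates for the blocks. -/

set_option autoImplicit false

namespace Pool.Agent.P.MP_de9ecd_al

open Filter Real

lemma theta_big : ∀ᶠ Q : ℕ in atTop, 3 * Q * log 2 ≤ Chebyshev.theta ((4 * Q : ℕ) : ℝ) := by
  have h0 := isLittleO_log_id_atTop.bound (show (0 : ℝ) < 1 / 100 by norm_num)
  have t1 : Tendsto (fun Q : ℕ => √((4 * Q : ℕ) : ℝ)) atTop atTop :=
    tendsto_sqrt_atTop.comp (tendsto_natCast_atTop_atTop.comp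
      (tendsto_id.const_mul_atTop' (by norm_num : 0 < 4)))
  have t2 : Tendsto (fun Q : ℕ => ((4 * Q : ℕ) : ℝ) + 1) atTop atTop :=
    tendsto_atTop_add_const_right _ _ (tendsto_natCast_atTop_atTop.comp
      (tendsto_id.const_mul_atTop' (by norm_num : 0 < 4)))
  filter_upwards [t1.eventually h0, t2.eventually h0, eventually_ge_atTop 1] with Q h1 h2 h3
  have h4 := Chebyshev.theta_ge (4 * Q)
  have hQ : (1 : ℝ) ≤ Q := by exact_mod_cast h3
  have e4 : ((4 * Q : ℕ) : ℝ) = 4 * Q := by push_cast; ring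
  simp only [id, norm_eq_abs] at h1 h2
  rw [e4] at h1 h2 h4 ⊢
  have s0 : 0 ≤ √(4 * (Q : ℝ)) := sqrt_nonneg _
  have s1 : √(4 * (Q : ℝ)) * √(4 * (Q : ℝ)) = 4 * Q := mul_self_sqrt (by positivity)
  rw [abs_of_nonneg s0] at h1
  rw [abs_of_nonneg (show (0 : ℝ) ≤ 4 * Q + 1 by positivity)] at h2
  have h5 := (le_abs_self _).trans h1
  have h6 := (le_abs_self _).trans h2
  rw [log_sqrt (by positivity)] at h5
  have h7 : √(4 * (Q : ℝ)) * log (4 * Q) ≤ √(4 * (Q : ℝ)) * (1 / 50 * √(4 * (Q : ℝ))) :=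
    mul_le_mul_of_nonneg_left (by linarith) s0
  have h8 := log_two_gt_d9
  nlinarith

lemma primes_big : ∀ᶠ Q : ℕ in atTop, ∀ W : ℕ, W ≠ 0 →
    (∀ p : ℕ, p.Prime → Q < p → p ≤ 4 * Q → p ∣ W) → 2 ^ Q ≤ W := by
  filter_upwards [theta_big] with Q hQ W hW h
  have h1 : primorial (4 * Q) ∣ primorial Q * W := by
    unfold primorial
    apply Finset.prod_primes_dvd
    · intro p hp; exact (Finset.mem_filter.1 hp).2.prime
    · intro p hp
      obtain ⟨h2, h3⟩ := Finset.mem_filter.1 hp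
      by_cases h4 : p ≤ Q
      · exact Dvd.dvd.mul_right (h3.dvd_primorial_iff.2 h4) _
      · exact Dvd.dvd.mul_left (h p h3 (not_le.1 h4) (by simp at h2; omega)) _
  have h2 : primorial (4 * Q) ≤ 4 ^ Q * W :=
    (Nat.le_of_dvd (Nat.mul_pos (primorial_pos _) (Nat.pos_of_ne_zero hW)) h1).trans
      (Nat.mul_le_mul_right _ (primorial_le_four_pow _))
  rw [Chebyshev.theta_eq_log_primorial, Nat.floor_natCast] at hQ
  have h3 : (8 : ℝ) ^ Q ≤ primorial (4 * Q) := by
    rw [← log_le_log_iff (by positivity) (by exact_mod_cast primorial_pos _), log_pow,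
      show (8 : ℝ) = 2 ^ 3 by norm_num, log_pow]
    push_cast
    linarith
  have h4 : 8 ^ Q ≤ primorial (4 * Q) := by exact_mod_cast h3
  have h5 : 4 ^ Q * 2 ^ Q ≤ 4 ^ Q * W := by
    rw [← mul_pow]; exact h4.trans h2
  exact Nat.le_of_mul_le_mul_left h5 (by positivity)

lemma start_le (m : ℕ) : start (m + 1) ≤ Nat.primeCounting m * (m + 1) := by
  unfold start
  rw [← Nat.primesLE_card_eq_primeCounting]
  calc _ ≤ ∑ q ∈ Nat.primesLE m, (q + 1) := by
        apply Finset.sum_le_sum_of_subset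
        intro q hq
        simp only [Finset.mem_filter, Finset.mem_range] at hq
        exact Nat.mem_primesLE.2 ⟨by omega, hq.2.1⟩
    _ ≤ _ := by
        rw [← smul_eq_mul]
        exact Finset.sum_le_card_nsmul _ _ _ fun q hq => by
          have := Nat.le_of_mem_primesLE hq; omega

lemma tendsto_X : Tendsto (fun n : ℕ => √((n : ℝ) * log n)) atTop atTop :=
  tendsto_sqrt_atTop.comp (tendsto_natCast_atTop_atTop.atTop_mul_atTop₀
    (tendsto_log_atTop.comp tendsto_natCast_atTop_atTop))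

lemma fit : ∀ᶠ n : ℕ in atTop, ∀ p : ℕ, p.Prime → 2 < p → (p : ℝ) ≤ √((n : ℝ) * log n) / 4 →
    Fit n p := by
  have t1 : Tendsto (fun n : ℕ => √((n : ℝ) * log n) / 4) atTop atTop :=
    tendsto_X.atTop_div_const (by norm_num)
  have h0 := Chebyshev.eventually_primeCounting_le (show (0 : ℝ) < 1 / 2 by norm_num)
  filter_upwards [t1.eventually h0, t1.eventually (eventually_ge_atTop 2),
    eventually_ge_atTop 256] with n h1 h2 h3 p hp hp2 hpy
  refine ⟨hp, hp2, ?_⟩
  have hn : (256 : ℝ) ≤ n := by exact_mod_cast h3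
  have hl : 1 ≤ log (n : ℝ) := by
    rw [le_log_iff_exp_le (by linarith)]
    have := exp_one_lt_d9
    linarith
  have s1 : √((n : ℝ) * log n) * √((n : ℝ) * log n) = n * log n := mul_self_sqrt (by positivity)
  set y := √((n : ℝ) * log n) / 4 with hy
  have y2 : y * y = n * log n / 16 := by rw [hy]; linarith
  have y4 : (n : ℝ) ≤ y ^ 4 := by
    have a1 : (n : ℝ) / 16 ≤ y * y := by rw [y2]; nlinarith
    have a2 : (n : ℝ) / 16 * (n / 16) ≤ (y * y) * (y * y) :=
      mul_le_mul a1 a1 (by positivity) (by positivity)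
    nlinarith
  have ly : log (n : ℝ) ≤ 4 * log y := by
    have := log_le_log (by linarith) y4
    rwa [log_pow] at this
  have l4 : log (4 : ℝ) ≤ 3 / 2 := by
    rw [show (4 : ℝ) = 2 ^ 2 by norm_num, log_pow]
    have := log_two_lt_d9
    push_cast
    linarith
  have ly0 : 0 < log y := by linarith
  have h4 : (Nat.primeCounting ⌊y⌋₊ : ℝ) * log y ≤ 2 * y := by
    rw [le_div_iff₀ ly0] at h1
    nlinarith
  have h5 : p ≤ ⌊y⌋₊ := Nat.le_floor hpy
  have h6 : start p + (p + 1) ≤ Nat.primeCounting ⌊y⌋₊ * (⌊y⌋₊ + 1) := by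
    rw [← start_succ hp hp2]
    exact (start_mono (by omega)).trans (start_le _)
  have h7 : ((⌊y⌋₊ : ℕ) : ℝ) ≤ y := Nat.floor_le (by linarith)
  have h8 : (Nat.primeCounting ⌊y⌋₊ : ℝ) * (⌊y⌋₊ + 1) ≤ 3 / 4 * n := by
    have c0 : (0 : ℝ) ≤ Nat.primeCounting ⌊y⌋₊ := by positivity
    generalize (Nat.primeCounting ⌊y⌋₊ : ℝ) = c at *
    have b1 : c * log n ≤ 8 * y := by nlinarith
    have b2 : c * (⌊y⌋₊ + 1) ≤ c * (3 / 2 * y) := mul_le_mul_of_nonneg_left (by linarith) c0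
    have b3 : c * (3 / 2 * y) * log n ≤ 3 / 4 * n * log n := by nlinarith
    exact b2.trans (le_of_mul_le_mul_right b3 (by linarith))
  have h9 : ((start p + (p + 1) : ℕ) : ℝ) ≤ 3 / 4 * n := by
    refine le_trans ?_ h8
    exact_mod_cast h6
  have : ((start p + p + 3 : ℕ) : ℝ) ≤ n := by
    push_cast at h9 ⊢
    linarith
  exact_mod_cast this

lemma main : ∀ᶠ n : ℕ in atTop, ∀ b : Equiv.Perm (Fin n), (∀ x, (b x : ℕ) = gen n x) →
    ∀ w : List Letter, w ≠ [] → w.IsChain NotInv → ev (finRotate n) b w = 1 →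
      1 / 100 * √((n : ℝ) * log n) ≤ w.length := by
  have t1 : Tendsto (fun n : ℕ => ⌊√((n : ℝ) * log n) / 16⌋₊) atTop atTop :=
    tendsto_nat_floor_atTop.comp (tendsto_X.atTop_div_const (by norm_num))
  filter_upwards [fit, t1.eventually primes_big, t1.eventually (eventually_ge_atTop 100)]
    with n h1 h2 h3 b hb w w0 wr we
  by_contra hlt
  rw [not_le] at hlt
  have s0 : 0 ≤ √((n : ℝ) * log n) := sqrt_nonneg _
  generalize √((n : ℝ) * log n) = X at *
  have q1 : (⌊X / 16⌋₊ : ℝ) ≤ X / 16 := Nat.floor_le (by positivity)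
  have q2 : X / 16 < ⌊X / 16⌋₊ + 1 := Nat.lt_floor_add_one _
  generalize ⌊X / 16⌋₊ = Q at *
  have q3 : 25 * w.length < 4 * (Q + 1) := by
    have : (25 * w.length : ℝ) < 4 * (Q + 1) := by linarith
    exact_mod_cast this
  have h4 := h2 (wit w).natAbs (Int.natAbs_ne_zero.2 (wit_ne w0 wr)) (by
    intro p hp a1 a2
    have a3 : (p : ℝ) ≤ 4 * Q := by exact_mod_cast a2
    have a4 : (p : ℝ) ≤ X / 4 := by linarith
    exact Int.natCast_dvd.1 (dvd_wit (h1 p hp (by omega) a4) hb w we (by omega)))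
  have h5 : (wit w).natAbs ≤ 35 * 9 ^ w.length := by
    have := wit_bound w
    rw [← Int.natCast_natAbs] at this
    exact_mod_cast this
  have h6 : 35 * 9 ^ w.length < 2 ^ (6 + 4 * w.length) := by
    rw [pow_add, pow_mul]
    have : 9 ^ w.length ≤ (2 ^ 4) ^ w.length := Nat.pow_le_pow_left (by norm_num) _
    have : 0 < 9 ^ w.length := by positivity
    omega
  have h7 : 2 ^ (6 + 4 * w.length) ≤ 2 ^ Q := Nat.pow_le_pow_right (by norm_num) (by omega)
  omega

end Pool.Agent.P.MP_de9ecd_al
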