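import Pool.Agent.P.MP_de9ecd_al.RSWord

/-! A short relation from the cycle structure of one generator; counting permutations. -/

set_option autoImplicit false

namespace Pool.Agent.P.MP_de9ecd_al.RS

open FreeGroup Equiv Finset Function

variable {α : Type} [Fintype α] [DecidableEq α]

/-- permutations preserving a labelling -/
def presK (lab : α → ℕ) : Subgroup (Perm α) where
  carrier := {π | ∀ a, lab (π a) = lab a}
  mul_mem' {π ρ} h h' a := by rw [Perm.mul_apply, h, h']
  one_mem' _ := rfl
  inv_mem' {π} h a := by rw [← h (π⁻¹ a)]; simp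

/-- permutations fixing the points with a given label -/
def fixN (lab : α → ℕ) (i : ℕ) : Subgroup (Perm α) where
  carrier := {π | ∀ a, lab a = i → π a = a}
  mul_mem' {π ρ} h h' a ha := by rw [Perm.mul_apply, h' a ha, h a ha]
  one_mem' _ _ := rfl
  inv_mem' {π} h a ha := by rw [Perm.inv_eq_iff_eq, h a ha]

theorem egirth_le_of_lab {x : Fin 2 → Perm α} (hx : Free2 x) (lab : α → ℕ)
    (h0 : ∀ a, lab (x 0 a) = lab a)
    (h1 : ∀ a, lab a ≠ 0 → (x 0 ^ lab a) a = a ∧ lab a ≤ Fintype.card α) {s u d : ℕ}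
    (hs : #{a | lab a = 0} ≤ s) (hd : #(univ.image lab) ≤ 2 ^ d) (hu : Fintype.card α ≤ 2 ^ u) :
    (SimpleGraph.mulCayley (Set.range x)).egirth ≤
      (4 ^ d * (Fintype.card α + 6 * (u * s + d * Fintype.card α + 1) + 9) : ℕ) := by
  obtain ⟨L, hL⟩ : ∃ L, L = u * s + d * Fintype.card α + 1 := ⟨_, rfl⟩
  rw [← hL]
  let P : (Fin L → Fin 2) → Perm α := fun f =>
    ev x ((List.ofFn f).map (·, true) ++ [(1, true)])
  let F : (Fin L → Fin 2) → (({a | lab a = 0} : Finset α) → α) × (α → univ.image lab) :=
    fun f => (fun a => P f a, fun a => ⟨lab ((P f)⁻¹ a), mem_image_of_mem _ (mem_univ _)⟩)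
  have hc : Fintype.card ((({a | lab a = 0} : Finset α) → α) × (α → univ.image lab)) <
      Fintype.card (Fin L → Fin 2) := by
    simp only [Fintype.card_prod, Fintype.card_fun, Fintype.card_coe, Fintype.card_fin]
    calc _ ≤ (2 ^ u) ^ s * (2 ^ d) ^ Fintype.card α :=
          Nat.mul_le_mul ((Nat.pow_le_pow_left hu _).trans (Nat.pow_le_pow_right (by positivity) hs))
            (Nat.pow_le_pow_left hd _)
      _ < 2 ^ L := by
          rw [← pow_mul, ← pow_mul, ← pow_add]
          exact Nat.pow_lt_pow_right one_lt_two (by omega)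
  obtain ⟨f, f', hne, hF⟩ := Fintype.exists_ne_map_eq_of_card_lt F hc
  obtain ⟨g, g1, g2, g3⟩ := exists_quot x (List.ofFn f) (List.ofFn f') (by simp)
    fun h => hne (List.ofFn_injective h)
  rw [List.length_ofFn] at g2
  have gK : ev x g ∈ presK lab := fun a => by
    have : lab ((P f)⁻¹ (P f' a)) = lab ((P f')⁻¹ (P f' a)) :=
      congrArg Subtype.val (congrFun (congrArg Prod.snd hF) (P f' a))
    rw [g3]
    exact this.trans (by simp only [Perm.coe_inv, symm_apply_apply])
  have gN : ev x g ∈ fixN lab 0 := fun a ha => by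
    have : P f a = P f' a := congrFun (congrArg Prod.fst hF) ⟨a, by simpa using ha⟩
    rw [g3, Perm.mul_apply, Perm.inv_eq_iff_eq]
    exact this.symm
  have hN : ∀ i, ∀ k ∈ presK lab, ∀ π ∈ fixN lab i, k * π * k⁻¹ ∈ fixN lab i :=
    fun i k hk π hπ a ha => by
      rw [Perm.mul_apply, Perm.mul_apply, hπ _ (((presK lab).inv_mem hk a).trans ha)]
      simp
  have xK : x 0 ∈ presK lab := h0
  obtain ⟨W, ⟨b, w1⟩, w2, -, w4⟩ := exists_tree x (presK lab) (fixN lab) hN g1 xK gK
    (M := Fintype.card α + 2 * L + 4) (by omega) d _ hd fun i hi => by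
      rcases Nat.eq_zero_or_pos i with rfl | hi0
      · have e : ev x ([(0, true)] ++ g ++ [(0, false)]) = x 0 * ev x g * (x 0)⁻¹ := by
          simp [mul_assoc]
        refine ⟨[(0, true)] ++ g ++ [(0, false)], ⟨false, ((seg_one _).append g1 (by simp)).append
          (seg_one _) (by simp)⟩, by simp; omega, ?_, ?_⟩ <;> rw [e]
        · exact (presK lab).mul_mem ((presK lab).mul_mem xK gK) ((presK lab).inv_mem xK)
        · exact hN 0 _ xK _ gN
      · obtain ⟨a, -, rfl⟩ := mem_image.1 hi
        obtain ⟨k, hk⟩ := Nat.exists_eq_succ_of_ne_zero hi0.ne'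
        have := (h1 a hi0.ne').2
        refine ⟨List.replicate (lab a) (0, true), ⟨true, hk ▸ seg_replicate k⟩, by simp; omega,
          ?_, ?_⟩ <;> rw [ev_replicate]
        · exact (presK lab).pow_mem xK _
        · intro c hc
          rw [← hc]
          exact (h1 c (by omega)).1
  refine (egirth_le hx W w1.red w1.ne
    (Equiv.ext fun a => w4 _ (mem_image_of_mem _ (mem_univ a)) a rfl)).trans ?_
  have := Nat.mul_le_mul_left (4 ^ d) (show Fintype.card α + 2 * L + 4 + 2 * g.length + 1 ≤
    Fintype.card α + 6 * L + 9 by omega)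
  exact_mod_cast (by omega : W.length ≤ _)

/-- the length of the cycle through a point -/
noncomputable def per (σ : Perm α) (a : α) : ℕ := minimalPeriod σ a

/-- the number of points on cycles shorter than `m` -/
noncomputable def X (m : ℕ) (σ : Perm α) : ℕ := #{a | per σ a < m}

/-- the number of cycle lengths which are at least `m` -/
noncomputable def T (m : ℕ) (σ : Perm α) : ℕ := #(image (per σ) {a | m ≤ per σ a})

omit [DecidableEq α] in
theorem per_iter (σ : Perm α) (a : α) (i : ℕ) : per σ (σ^[i] a) = per σ a :=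
  minimalPeriod_apply_iterate (σ.injective.mem_periodicPts a) i

theorem egirth_le_of_per {x : Fin 2 → Perm α} (hx : Free2 x) {D s u d : ℕ} (hD : 0 < D)
    (hs : X D (x 0) ≤ s) (hd : T D (x 0) + 1 ≤ 2 ^ d) (hu : Fintype.card α ≤ 2 ^ u) :
    (SimpleGraph.mulCayley (Set.range x)).egirth ≤
      (4 ^ d * (Fintype.card α + 6 * (u * s + d * Fintype.card α + 1) + 9) : ℕ) := by
  refine egirth_le_of_lab hx (fun a => if per (x 0) a < D then 0 else per (x 0) a)
    (fun a => ?_) (fun a ha => ?_) (le_trans (card_le_card fun a ha => ?_) hs)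
    (le_trans ?_ hd) hu
  · have := per_iter (x 0) a 1
    simp only [iterate_one] at this
    rw [this]
  · split_ifs at ha ⊢
    · exact absurd rfl ha
    · exact ⟨by rw [Perm.coe_pow]; exact iterate_minimalPeriod, minimalPeriod_le_card⟩
  · simp only [mem_filter, mem_univ, true_and] at ha ⊢
    split_ifs at ha <;> omega
  · refine le_trans (card_le_card (t := insert 0 (image (per (x 0)) {a | D ≤ per (x 0) a}))
      fun i hi => ?_) (card_insert_le _ _)
    obtain ⟨a, -, rfl⟩ := mem_image.1 hi
    split_ifs with h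
    · exact mem_insert_self _ _
    · exact mem_insert_of_mem (mem_image_of_mem _ (by simpa using h))

theorem card_per_eq (a : α) (l : ℕ) :
    #{σ : Perm α | per σ a = l} * (Fintype.card α - l) ≤ (Fintype.card α).factorial := by
  rcases Nat.eq_zero_or_pos l with rfl | hl
  · rw [filter_false_of_mem (p := fun σ : Perm α => per σ a = 0) fun σ _ =>
      (minimalPeriod_pos_of_mem_periodicPts (σ.injective.mem_periodicPts a)).ne']
    simp
  let S : Finset (Σ _ : Perm α, α) := ({σ : Perm α | per σ a = l} : Finset _).sigma fun σ =>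
    univ \ image (fun i => σ^[i] a) (range l)
  have key : ∀ p ∈ S, (swap a p.2 * p.1)^[l] a = p.2 := by
    rintro ⟨σ, b⟩ hp
    simp only [S, mem_sigma, mem_filter, mem_univ, true_and, mem_sdiff, mem_image, mem_range,
      not_exists, not_and] at hp
    obtain ⟨h1, h2⟩ := hp
    have h3 : ∀ i, i < l → (swap a b * σ)^[i] a = σ^[i] a := by
      intro i hi
      induction i with
      | zero => rfl
      | succ i ih =>
        rw [iterate_succ_apply', ih (by omega), Perm.mul_apply, ← iterate_succ_apply' σ]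
        exact swap_apply_of_ne_of_ne
          (not_isPeriodicPt_of_pos_of_lt_minimalPeriod i.succ_ne_zero (hi.trans_eq h1.symm))
          (h2 _ hi)
    obtain ⟨k, rfl⟩ := Nat.exists_eq_succ_of_ne_zero hl.ne'
    have h4 : σ^[k + 1] a = a := by rw [← k.succ_eq_add_one, ← h1]; exact iterate_minimalPeriod
    rw [iterate_succ_apply', h3 k (by omega), Perm.mul_apply, ← iterate_succ_apply' σ, h4,
      swap_apply_left]
  have h1 : #S ≤ (Fintype.card α).factorial := by
    rw [← Fintype.card_perm, ← card_univ]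
    refine card_le_card_of_injOn (fun p => swap a p.2 * p.1) (fun _ _ => mem_univ _) ?_
    rintro ⟨σ, b⟩ hp ⟨τ, c⟩ hq h
    have e1 := key _ hp
    have e2 := key _ hq
    simp only at h e1 e2
    rw [h, e2] at e1
    subst e1
    rw [mul_left_cancel h]
  refine le_trans ?_ h1
  rw [card_sigma, ← smul_eq_mul]
  refine card_nsmul_le_sum _ _ _ fun σ _ => ?_
  have := card_image_le (s := range l) (f := fun i => σ^[i] a)
  rw [card_range] at this
  rw [card_sdiff_of_subset (subset_univ _), card_univ]
  omega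

theorem card_per_lt (a : α) (m : ℕ) :
    #{σ : Perm α | per σ a < m} * Fintype.card α ≤ 2 * m * (Fintype.card α).factorial := by
  rcases le_total (Fintype.card α) (2 * m) with h | h
  · rw [mul_comm]
    exact Nat.mul_le_mul h ((card_le_univ _).trans Fintype.card_perm.le)
  · rw [card_eq_sum_card_fiberwise (f := fun σ => per σ a) (t := range m)
      fun σ hσ => by simpa using hσ, sum_mul]
    refine (sum_le_card_nsmul _ _ (2 * (Fintype.card α).factorial) fun l hl => ?_).trans_eq ?_
    · have h1 := card_per_eq a l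
      have h2 : #{σ ∈ ({σ : Perm α | per σ a < m} : Finset _) | per σ a = l} ≤
          #{σ : Perm α | per σ a = l} := card_le_card fun σ hσ => by simp_all
      have h3 := mem_range.1 hl
      calc _ ≤ #{σ : Perm α | per σ a = l} * (2 * (Fintype.card α - l)) :=
            Nat.mul_le_mul h2 (by omega)
        _ ≤ _ := by rw [mul_left_comm]; omega
    · rw [card_range, smul_eq_mul]; ring

theorem sum_X (m : ℕ) : ∑ σ : Perm α, X m σ ≤ 2 * m * (Fintype.card α).factorial := by
  rcases Nat.eq_zero_or_pos (Fintype.card α) with h | h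
  · have := Fintype.card_eq_zero_iff.1 h
    simp [X]
  have e : ∑ σ : Perm α, X m σ = ∑ a : α, #{σ : Perm α | per σ a < m} := by
    simp only [X, card_filter]
    exact sum_comm
  refine Nat.le_of_mul_le_mul_right ?_ h
  rw [e, sum_mul]
  refine (sum_le_card_nsmul _ _ _ fun a _ => card_per_lt a m).trans_eq ?_
  rw [card_univ, smul_eq_mul, mul_comm]

omit [DecidableEq α] in
theorem T_step (m : ℕ) (σ : Perm α) : m * T m σ ≤ m * T (2 * m) σ + X (2 * m) σ := by
  have h1 : T m σ ≤ T (2 * m) σ + #(image (per σ) {a | m ≤ per σ a ∧ per σ a < 2 * m}) := by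
    refine le_trans (card_le_card fun l hl => ?_) (card_union_le _ _)
    obtain ⟨a, ha, rfl⟩ := mem_image.1 hl
    rw [mem_union]
    rcases le_or_gt (2 * m) (per σ a) with h | h
    · exact .inl (mem_image_of_mem _ (by simpa using h))
    · exact .inr (mem_image_of_mem _ (by simpa using ⟨(mem_filter.1 ha).2, h⟩))
  have h2 : m * #(image (per σ) {a | m ≤ per σ a ∧ per σ a < 2 * m}) ≤ X (2 * m) σ := by
    refine (mul_card_image_le_card _ m fun l hl => ?_).trans (card_le_card fun a ha => ?_)
    · obtain ⟨a, ha, rfl⟩ := mem_image.1 hl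
      refine le_trans (mem_filter.1 ha).2.1 ?_
      rw [← card_range (per σ a)]
      refine card_le_card_of_injOn (fun i => σ^[i] a) (fun i _ => ?_) ?_
      · simpa [per_iter] using ha
      · rw [coe_range]
        exact iterate_injOn_Iio_minimalPeriod
    · simp_all
  calc _ ≤ m * (T (2 * m) σ + _) := Nat.mul_le_mul_left m h1
    _ ≤ _ := by rw [mul_add]; omega

theorem sum_T (J : ℕ) {m : ℕ} (hm : 0 < m) (h : Fintype.card α < m * 2 ^ J) :
    ∑ σ : Perm α, T m σ ≤ 4 * J * (Fintype.card α).factorial := by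
  induction J generalizing m with
  | zero =>
    refine (sum_eq_zero fun σ _ => ?_).trans_le (Nat.zero_le _)
    rw [T, filter_false_of_mem fun a _ => ?_]
    · simp
    · have : per σ a ≤ _ := minimalPeriod_le_card
      omega
  | succ J ih =>
    have h1 := ih (m := 2 * m) (by omega) (by rw [pow_succ] at h; linarith)
    have h2 := sum_X (α := α) (2 * m)
    have h3 := sum_le_sum fun (σ : Perm α) (_ : σ ∈ univ) => T_step m σ
    rw [sum_add_distrib, ← mul_sum, ← mul_sum] at h3
    refine Nat.le_of_mul_le_mul_left ?_ hm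
    have h4 := Nat.mul_le_mul_left m h1
    nlinarith

omit [Fintype α] [DecidableEq α] in
theorem markov {β : Type*} [Fintype β] (f : β → ℕ) (s : ℕ) :
    #{b | s < f b} * s ≤ ∑ b, f b := by
  rw [← smul_eq_mul]
  exact (card_nsmul_le_sum _ _ _ fun b hb => (mem_filter.1 hb).2.le).trans
    (sum_le_sum_of_subset (filter_subset _ _))

omit [DecidableEq α] in
theorem sq_ne {σ : Perm α} {D : ℕ} (hD : 3 ≤ D) (h : X D σ < Fintype.card α) : σ * σ ≠ 1 := by
  intro e
  rw [X, filter_true_of_mem fun a _ => ?_] at h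
  · simp at h
  · have : IsPeriodicPt σ 2 a := by
      have := congrArg (fun π : Perm α => π a) e
      simpa [IsPeriodicPt, IsFixedPt] using this
    exact (this.minimalPeriod_le two_pos).trans_lt hD

/-- the number of pairs with large girth -/
theorem card_bad {K D s u d J : ℕ} (hD : 3 ≤ D) (hs : s < Fintype.card α) (hK : K * D ≤ s)
    (hJ : Fintype.card α < D * 2 ^ J) (hd : K * J + 1 ≤ 2 ^ d) (hu : Fintype.card α ≤ 2 ^ u)
    (hn : K ≤ (Fintype.card α).factorial) (B : Finset (Perm α × Perm α))
    (hB : ∀ p ∈ B, ((4 ^ d * (Fintype.card α + 6 * (u * s + d * Fintype.card α + 1) + 9) : ℕ) :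
      ℕ∞) < (SimpleGraph.mulCayley (Set.range ![p.1, p.2])).egirth) :
    K * #B ≤ 10 * (Fintype.card α).factorial ^ 2 := by
  obtain ⟨N, hN⟩ : ∃ N, N = (Fintype.card α).factorial := ⟨_, rfl⟩
  have hc : #(univ : Finset (Perm α)) = N := by rw [card_univ, Fintype.card_perm, hN]
  let A₁ : Finset (Perm α) := {σ | s < X D σ}
  let A₂ : Finset (Perm α) := {σ | K * J < T D σ}
  have a1 : K * #A₁ ≤ 2 * N := by
    have h1 : #A₁ * s ≤ _ := (markov (X (α := α) D) s).trans (sum_X D)
    have h2 := Nat.mul_le_mul_left (#A₁) hK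
    refine Nat.le_of_mul_le_mul_right ?_ (show 0 < D by omega)
    rw [← hN] at h1
    nlinarith
  have a2 : K * #A₂ ≤ 4 * N := by
    have h1 : #A₂ * (K * J) ≤ _ :=
      (markov (T (α := α) D) (K * J)).trans (sum_T J (by omega) hJ)
    rw [← hN] at h1
    rcases Nat.eq_zero_or_pos J with rfl | h0
    · have h2 := sum_T (α := α) 0 (by omega) hJ
      rw [mul_zero, zero_mul, Nat.le_zero, sum_eq_zero_iff] at h2
      rw [show A₂ = ∅ from filter_false_of_mem fun σ h => by simp [h2 σ h]]
      simp
    · refine Nat.le_of_mul_le_mul_right ?_ h0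
      nlinarith
  have hsub : B ⊆ A₁ ×ˢ univ ∪ A₂ ×ˢ univ ∪ univ ×ˢ A₁ ∪ univ.image (fun σ => (σ, σ)) ∪
      univ.image (fun σ => (σ, σ⁻¹)) := by
    rintro ⟨σ, τ⟩ hp
    by_contra h
    simp only [A₁, A₂, mem_union, mem_product, mem_filter, mem_univ, true_and, and_true, mem_image,
      Prod.mk.injEq, exists_eq_left, not_or, not_lt] at h
    obtain ⟨⟨⟨⟨h1, h2⟩, h3⟩, h4⟩, h5⟩ := h
    refine (hB _ hp).not_ge (egirth_le_of_per (x := ![σ, τ]) ⟨sq_ne hD (h1.trans_lt hs),
      sq_ne hD (h3.trans_lt hs), h4, fun e => h5 (inv_eq_of_mul_eq_one_right e)⟩ (D := D)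
      (by omega) h1 ((Nat.succ_le_succ h2).trans hd) hu)
  have h1 : #B ≤ #A₁ * N + #A₂ * N + N * #A₁ + N + N := by
    refine (card_le_card hsub).trans ((card_union_le _ _).trans (add_le_add ((card_union_le _ _).trans
      (add_le_add ((card_union_le _ _).trans (add_le_add ((card_union_le _ _).trans ?_) ?_)) ?_)) ?_))
    · rw [card_product, card_product, hc]
    · rw [card_product, hc]
    · exact card_image_le.trans hc.le
    · exact card_image_le.trans hc.le
  rw [← hN] at hn ⊢
  have h2 := Nat.mul_le_mul_left K h1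
  have h3 := Nat.mul_le_mul_right N a1
  have h4 := Nat.mul_le_mul_right N a2
  have h5 := Nat.mul_le_mul_right N hn
  nlinarith

end Pool.Agent.P.MP_de9ecd_al.RS
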