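import Pool.Agent.P.MP_de9ecd_al.RSCount

/-! The choice of the parameters. -/

set_option autoImplicit false

namespace Pool.Agent.P.MP_de9ecd_al.RS

open Equiv Finset Filter Real

theorem log_two_le {m : ℕ} (hm : m ≠ 0) : (Nat.log 2 m : ℝ) ≤ 2 * Real.log m := by
  have h1 : ((2 ^ Nat.log 2 m : ℕ) : ℝ) ≤ m := by exact_mod_cast Nat.pow_log_le_self 2 hm
  have h2 := Real.log_le_log (by positivity) h1
  rw [Nat.cast_pow, Real.log_pow, Nat.cast_ofNat] at h2
  have h3 := Real.log_two_gt_d9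
  nlinarith [Nat.cast_nonneg (α := ℝ) (Nat.log 2 m)]

theorem sq_le_two_pow (d : ℕ) : d ^ 2 ≤ 2 * 2 ^ d := by
  induction d with
  | zero => simp
  | succ d ih =>
    rcases Nat.lt_or_ge d 3 with h | h
    · interval_cases d <;> norm_num
    · rw [pow_succ 2 d]; nlinarith

theorem analytic {C μ y d : ℝ} (hC : 1 ≤ C) (hμ : 10000 * C ^ 5 ≤ μ) (hy0 : 0 ≤ y) (hy : y ≤ C * μ)
    (hd0 : 0 ≤ d) (hd : d ^ 2 ≤ 4 * y) : (2 * y) ^ 2 * (6 * d + 22) ≤ μ ^ 3 := by
  have h3 : 1 ≤ C ^ 3 := one_le_pow₀ hC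
  have h2 : 1 ≤ C ^ 2 := one_le_pow₀ hC
  have h5 : C ^ 2 ≤ C ^ 5 := pow_le_pow_right₀ hC (by norm_num)
  have hμ0 : 0 < μ := by nlinarith
  have h6 : 48 * C ^ 2 * d ≤ μ := by
    refine abs_le_of_sq_le_sq' ?_ hμ0.le |>.2
    calc (48 * C ^ 2 * d) ^ 2 = 2304 * C ^ 4 * d ^ 2 := by ring
      _ ≤ 2304 * C ^ 4 * (4 * (C * μ)) := by gcongr; linarith
      _ = 9216 * C ^ 5 * μ := by ring
      _ ≤ μ * μ := by gcongr; nlinarith
      _ = μ ^ 2 := by ring
  calc _ ≤ (2 * (C * μ)) ^ 2 * (6 * d + 22) := by gcongr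
    _ = μ ^ 2 * (24 * C ^ 2 * d + 88 * C ^ 2) := by ring
    _ ≤ μ ^ 2 * μ := by gcongr; nlinarith
    _ = μ ^ 3 := by ring

theorem exists_param {K : ℕ} (hK : 1 ≤ K) : ∀ᶠ n : ℕ in atTop, ∃ D s u d J : ℕ, 3 ≤ D ∧ s < n ∧
    K * D ≤ s ∧ n < D * 2 ^ J ∧ K * J + 1 ≤ 2 ^ d ∧ n ≤ 2 ^ u ∧ K ≤ n.factorial ∧
    4 ^ d * (n + 6 * (u * s + d * n + 1) + 9) ≤ ⌊n * Real.log (Real.log n) ^ 3⌋₊ := by
  have t1 : Tendsto (fun n : ℕ => Real.log n) atTop atTop :=
    tendsto_log_atTop.comp tendsto_natCast_atTop_atTop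
  have t2 : Tendsto (fun n : ℕ => Real.log (Real.log n)) atTop atTop := tendsto_log_atTop.comp t1
  have t3 := (Real.isLittleO_log_id_atTop.comp_tendsto
    (tendsto_natCast_atTop_atTop (R := ℝ))).bound (c := 1 / (9 * K)) (by positivity)
  filter_upwards [t1.eventually_ge_atTop 1, t2.eventually_ge_atTop (10000 * (3 * K) ^ 5 + K + 7),
    t3, eventually_ge_atTop (K + 3)] with n h1 h2 h3 h4
  obtain ⟨u, hu⟩ : ∃ u, u = Nat.log 2 n + 1 := ⟨_, rfl⟩
  obtain ⟨v, hv⟩ : ∃ v, v = Nat.log 2 u + 1 := ⟨_, rfl⟩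
  obtain ⟨y, hy⟩ : ∃ y, y = K * (v + K + 1) + 1 := ⟨_, rfl⟩
  obtain ⟨d, hd⟩ : ∃ d, d = Nat.log 2 y + 1 := ⟨_, rfl⟩
  have hK' : (1 : ℝ) ≤ K := by exact_mod_cast hK
  have u1 : n < 2 ^ u := hu ▸ Nat.lt_pow_succ_log_self one_lt_two n
  have u2 : (u : ℝ) ≤ 3 * Real.log n := by
    have := log_two_le (m := n) (by omega)
    rw [hu]; push_cast; linarith
  have u3 : 2 ≤ u := by
    have := Nat.log_pos one_lt_two (show 2 ≤ n by omega)
    omega
  have v1 : u < 2 ^ v := hv ▸ Nat.lt_pow_succ_log_self one_lt_two u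
  have v2 : (v : ℝ) ≤ 2 * Real.log (Real.log n) + 5 := by
    have e1 := log_two_le (m := u) (by omega)
    have e2 := Real.log_le_log (by positivity) u2
    rw [Real.log_mul (by norm_num) (by linarith)] at e2
    have e3 := Real.log_le_sub_one_of_pos (show (0 : ℝ) < 3 by norm_num)
    rw [hv]; push_cast; linarith
  have d1 : y < 2 ^ d := hd ▸ Nat.lt_pow_succ_log_self one_lt_two y
  have d2 : 2 ^ d ≤ 2 * y := by
    have := Nat.pow_log_le_self 2 (show y ≠ 0 by omega)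
    rw [hd, pow_succ]; omega
  have n1 : 3 * (u * K) ≤ n := by
    simp only [Function.comp, id, Real.norm_eq_abs, Nat.abs_cast] at h3
    rw [abs_of_nonneg (by linarith), div_mul_eq_mul_div, le_div_iff₀ (by positivity)] at h3
    have : (3 * (u * K) : ℝ) ≤ n := by nlinarith
    exact_mod_cast this
  have hD : 3 ≤ n / u / K := by
    rw [Nat.div_div_eq_div_mul, Nat.le_div_iff_mul_le (by positivity)]
    exact n1
  have hs : u * (n / u) ≤ n := Nat.mul_div_le n u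
  refine ⟨n / u / K, n / u, u, d, v + K + 1, hD, Nat.div_lt_self (by omega) u3,
    Nat.mul_div_le _ _, ?_, by omega, u1.le, (by omega : K ≤ n).trans (Nat.self_le_factorial n),
    Nat.le_floor ?_⟩
  · have e1 := Nat.lt_mul_div_succ n (show 0 < u * K by positivity)
    rw [← Nat.div_div_eq_div_mul] at e1
    have e2 : K < 2 ^ K := Nat.lt_two_pow_self
    have e3 := Nat.mul_le_mul v1.le e2.le
    generalize n / u / K = D at *
    calc n < u * K * (D + 1) := e1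
      _ ≤ 2 ^ v * 2 ^ K * (2 * D) := Nat.mul_le_mul e3 (by omega)
      _ = _ := by ring
  · have e1 : 4 ^ d * (n + 6 * (u * (n / u) + d * n + 1) + 9) ≤ n * ((2 * y) ^ 2 * (6 * d + 22)) := by
      have e2 : 4 ^ d ≤ (2 * y) ^ 2 := by
        rw [show 4 = 2 ^ 2 by norm_num, ← pow_mul, mul_comm, pow_mul]
        exact Nat.pow_le_pow_left d2 2
      rw [mul_left_comm]
      exact Nat.mul_le_mul e2 (by nlinarith)
    have h5 : (0 : ℝ) ≤ 10000 * (3 * K) ^ 5 := by positivity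
    have e3 := analytic (C := 3 * K) (μ := Real.log (Real.log n)) (y := y) (d := d) (by linarith)
      (by linarith) (by positivity) (by rw [hy]; push_cast; nlinarith) (by positivity) (by
        have := sq_le_two_pow d
        exact_mod_cast (by omega : d ^ 2 ≤ 4 * y))
    calc _ ≤ ((n * ((2 * y) ^ 2 * (6 * d + 22)) : ℕ) : ℝ) := by exact_mod_cast e1
      _ ≤ _ := by push_cast; gcongr

theorem card_tuples {G : Type} [Group G] [Fintype G] (b : ℕ∞) (m : ℕ)
    [DecidablePred fun p : G × G => b < (SimpleGraph.mulCayley (Set.range ![p.1, p.2])).egirth] :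
    Nat.card {x : Fin (m + 2) → G // b < (SimpleGraph.mulCayley (Set.range x)).egirth} ≤
      #{p : G × G | b < (SimpleGraph.mulCayley (Set.range ![p.1, p.2])).egirth} *
        Fintype.card G ^ m := by
  have e : Nat.card (({p : G × G | b < (SimpleGraph.mulCayley (Set.range ![p.1, p.2])).egirth} :
      Finset _) × (Fin m → G)) = _ := Nat.card_prod _ _
  rw [Nat.card_eq_finsetCard, Nat.card_fun, Nat.card_fin, Nat.card_eq_fintype_card (α := G)] at e
  rw [← e]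
  refine Nat.card_le_card_of_injective (fun x => (⟨(x.1 0, x.1 1), ?_⟩, fun i => x.1 i.succ.succ))
    fun x y h => ?_
  · refine mem_filter.2 ⟨mem_univ _, x.2.trans_le
      (SimpleGraph.egirth_anti (SimpleGraph.mulCayley_mono ?_))⟩
    rintro _ ⟨i, rfl⟩
    fin_cases i
    · exact ⟨0, rfl⟩
    · exact ⟨1, rfl⟩
  · simp only [Prod.mk.injEq, Subtype.mk.injEq] at h
    refine Subtype.ext (funext fun i => ?_)
    refine Fin.cases h.1.1 (fun j => Fin.cases h.1.2 (fun k => congrFun h.2 k) j) i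

end Pool.Agent.P.MP_de9ecd_al.RS
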