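import Mathlib

/-! Reduced words in two letters, nested commutators and cycles in Cayley graphs. -/

set_option autoImplicit false

namespace Pool.Agent.P.MP_de9ecd_al.RS

open FreeGroup

abbrev Wd : Type := List (Fin 2 × Bool)

variable {G : Type*} [Group G]

/-- the value of a letter -/
def lt (x : Fin 2 → G) (a : Fin 2 × Bool) : G := if a.2 then x a.1 else (x a.1)⁻¹

/-- the value of a word -/
def ev (x : Fin 2 → G) (l : Wd) : G := (l.map (lt x)).prod

@[simp] lemma ev_nil (x : Fin 2 → G) : ev x [] = 1 := rfl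

@[simp] lemma ev_cons (x : Fin 2 → G) (a : Fin 2 × Bool) (l : Wd) :
    ev x (a :: l) = lt x a * ev x l := by simp [ev]

@[simp] lemma ev_append (x : Fin 2 → G) (l m : Wd) : ev x (l ++ m) = ev x l * ev x m := by
  simp [ev]

@[simp] lemma lt_true (x : Fin 2 → G) (i : Fin 2) : lt x (i, true) = x i := rfl

@[simp] lemma lt_false (x : Fin 2 → G) (i : Fin 2) : lt x (i, false) = (x i)⁻¹ := rfl

@[simp] lemma ev_invRev (x : Fin 2 → G) (l : Wd) : ev x (invRev l) = (ev x l)⁻¹ := by
  induction l with
  | nil => simp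
  | cons a l ih =>
    obtain ⟨i, b⟩ := a
    rw [invRev_cons, ev_append, ih]
    cases b <;> simp [invRev]

lemma ev_replicate (x : Fin 2 → G) (k : ℕ) : ev x (List.replicate k (0, true)) = x 0 ^ k := by
  simp [ev]

/-- a reduced word with given first and last letters -/
structure Seg (l : Wd) (a b : Fin 2 × Bool) : Prop where
  red : IsReduced l
  hd : l.head? = some a
  ls : l.getLast? = some b

lemma Seg.ne {l : Wd} {a b : Fin 2 × Bool} (h : Seg l a b) : l ≠ [] := by
  rintro rfl
  simpa using h.hd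

lemma seg_one (a : Fin 2 × Bool) : Seg [a] a a := ⟨IsReduced.singleton, rfl, rfl⟩

lemma Seg.append {l m : Wd} {a b c d : Fin 2 × Bool} (h : Seg l a b) (h' : Seg m c d)
    (e : b.1 = c.1 → b.2 = c.2) : Seg (l ++ m) a d := by
  refine ⟨List.isChain_append.2 ⟨h.red, h'.red, fun u hu v hv => ?_⟩, ?_, ?_⟩
  · rw [h.ls] at hu
    rw [h'.hd] at hv
    cases hu
    cases hv
    exact e
  · rw [List.head?_append, h.hd]; rfl
  · rw [List.getLast?_append, h'.ls]; rfl

lemma Seg.inv {l : Wd} {a b : Fin 2 × Bool} (h : Seg l a b) :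
    Seg (invRev l) (b.1, !b.2) (a.1, !a.2) := by
  refine ⟨?_, ?_, ?_⟩
  · rw [isReduced_iff_reduce_eq, reduce_invRev, h.red.reduce_eq]
  · simp [invRev, h.ls]
  · simp [invRev, h.hd]

lemma seg_pos (a b : Fin 2) (p : List (Fin 2)) :
    Seg ((a, true) :: p.map (·, true) ++ [(b, true)]) (a, true) (b, true) := by
  induction p generalizing a with
  | nil => exact (seg_one _).append (seg_one _) fun _ => rfl
  | cons c p ih => exact (seg_one (a, true)).append (ih c) fun _ => rfl

lemma seg_replicate (k : ℕ) : Seg (List.replicate (k + 1) (0, true)) (0, true) (0, true) := by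
  induction k with
  | zero => exact seg_one _
  | succ k ih => exact (seg_one (0, true)).append ih fun _ => rfl

/-- two different positive words of the same length give a reduced quotient -/
lemma exists_quot (x : Fin 2 → G) (p q : List (Fin 2)) (hl : p.length = q.length) (hne : p ≠ q) :
    ∃ g : Wd, Seg g (1, false) (1, true) ∧ g.length ≤ 2 * p.length + 2 ∧
      ev x g = (ev x (p.map (·, true) ++ [(1, true)]))⁻¹ * ev x (q.map (·, true) ++ [(1, true)]) := by
  induction p generalizing q with
  | nil => exact absurd (List.length_eq_zero_iff.1 hl.symm).symm hne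
  | cons a p ih =>
    obtain _ | ⟨b, q⟩ := q
    · simp at hl
    have hl' : p.length = q.length := by simpa using hl
    by_cases hab : a = b
    · subst hab
      obtain ⟨g, h1, h2, h3⟩ := ih q hl' fun h => hne (by rw [h])
      refine ⟨g, h1, by simp only [List.length_cons]; omega, ?_⟩
      rw [h3]
      simp only [List.map_cons, List.cons_append, ev_cons]
      group
    · refine ⟨_, (seg_pos a 1 p).inv.append (seg_pos b 1 q) fun h => absurd h hab, ?_, ?_⟩
      · simp only [List.length_append, invRev_length, List.length_cons, List.length_map,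
          List.length_nil]
        omega
      · rw [ev_append, ev_invRev]
        rfl

/-- words starting with the first generator and ending with the first generator or its inverse -/
def Nice (l : Wd) : Prop := ∃ b, Seg l (0, true) (0, b)

/-- the commutator used in the tree -/
def cm (g A B : Wd) : Wd :=
  [(0, true)] ++ g ++ B ++ invRev g ++ A ++ g ++ invRev B ++ invRev g ++ invRev A ++ [(0, false)]

lemma Nice.cm {g A B : Wd} (hg : Seg g (1, false) (1, true)) (hA : Nice A) (hB : Nice B) :
    Nice (cm g A B) := by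
  obtain ⟨a, hA⟩ := hA
  obtain ⟨b, hB⟩ := hB
  exact ⟨false, (((((((((seg_one _).append hg (by simp)).append hB (by simp)).append hg.inv
    (by simp)).append hA (by simp)).append hg (by simp)).append hB.inv (by simp)).append hg.inv
    (by simp)).append hA.inv (by simp)).append (seg_one _) (by simp)⟩

lemma length_cm (g A B : Wd) :
    (cm g A B).length = 2 * A.length + 2 * B.length + 4 * g.length + 2 := by
  simp only [cm, List.length_append, invRev_length, List.length_cons, List.length_nil]
  omega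

lemma ev_cm (x : Fin 2 → G) (g A B : Wd) : ev x (cm g A B) =
    x 0 * (ev x g * ev x B * (ev x g)⁻¹ * ev x A * (ev x g * ev x B * (ev x g)⁻¹)⁻¹ *
      (ev x A)⁻¹) * (x 0)⁻¹ := by
  simp only [cm, ev_append, ev_invRev, ev_cons, ev_nil, lt_true, lt_false]
  group

/-- the tree of commutators -/
lemma exists_tree {ι : Type*} [DecidableEq ι] (x : Fin 2 → G) (K : Subgroup G) (N : ι → Subgroup G)
    (hN : ∀ i, ∀ k ∈ K, ∀ a ∈ N i, k * a * k⁻¹ ∈ N i) {g : Wd} (hg : Seg g (1, false) (1, true))
    (h0 : x 0 ∈ K) (hgK : ev x g ∈ K) {M : ℕ} (hM : 1 ≤ M) (d : ℕ) (I : Finset ι)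
    (hI : I.card ≤ 2 ^ d)
    (hl : ∀ i ∈ I, ∃ A, Nice A ∧ A.length ≤ M ∧ ev x A ∈ K ∧ ev x A ∈ N i) :
    ∃ W, Nice W ∧ W.length + 2 * g.length + 1 ≤ 4 ^ d * (M + 2 * g.length + 1) ∧ ev x W ∈ K ∧
      ∀ i ∈ I, ev x W ∈ N i := by
  induction d generalizing I with
  | zero =>
    rcases I.eq_empty_or_nonempty with rfl | ⟨i, hi⟩
    · exact ⟨[(0, true)], ⟨_, seg_one _⟩, by simp; omega, by simpa using h0, by simp⟩
    · obtain ⟨A, h1, h2, h3, h4⟩ := hl i hi
      refine ⟨A, h1, by omega, h3, fun j hj => ?_⟩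
      rwa [Finset.card_le_one.1 hI j hj i hi]
  | succ d ih =>
    obtain ⟨J, hJ, hc⟩ := Finset.exists_subset_card_eq (s := I) (n := min I.card (2 ^ d))
      (min_le_left _ _)
    obtain ⟨A, a1, a2, a3, a4⟩ := ih J (by omega) fun i hi => hl i (hJ hi)
    obtain ⟨B, b1, b2, b3, b4⟩ := ih (I \ J) (by rw [Finset.card_sdiff_of_subset hJ]; omega)
      fun i hi => hl i (Finset.mem_sdiff.1 hi).1
    have hB' : ev x g * ev x B * (ev x g)⁻¹ ∈ K := K.mul_mem (K.mul_mem hgK b3) (K.inv_mem hgK)
    refine ⟨cm g A B, a1.cm hg b1, ?_, ?_, fun i hi => ?_⟩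
    · rw [length_cm, pow_succ, mul_comm _ 4, mul_assoc 4]
      omega
    · rw [ev_cm]
      exact K.mul_mem (K.mul_mem h0 (K.mul_mem (K.mul_mem (K.mul_mem hB' a3) (K.inv_mem hB'))
        (K.inv_mem a3))) (K.inv_mem h0)
    · rw [ev_cm]
      refine hN i _ h0 _ ?_
      by_cases hiJ : i ∈ J
      · exact (N i).mul_mem (hN i _ hB' _ (a4 i hiJ)) ((N i).inv_mem (a4 i hiJ))
      · have h1 := hN i _ hgK _ (b4 i (Finset.mem_sdiff.2 ⟨hi, hiJ⟩))
        rw [mul_assoc, mul_assoc, ← mul_assoc (ev x A)]
        exact (N i).mul_mem h1 (hN i _ a3 _ ((N i).inv_mem h1))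

/-- no relations of length at most two -/
structure Free2 (x : Fin 2 → G) : Prop where
  s0 : x 0 * x 0 ≠ 1
  s1 : x 1 * x 1 ≠ 1
  ne : x 0 ≠ x 1
  ni : x 0 * x 1 ≠ 1

lemma Free2.lt_ne {x : Fin 2 → G} (h : Free2 x) (a : Fin 2 × Bool) : lt x a ≠ 1 := by
  obtain ⟨i, b⟩ := a
  have : x i ≠ 1 := fun e => by
    fin_cases i
    · exact h.s0 (by simp_all)
    · exact h.s1 (by simp_all)
  cases b <;> simpa

lemma Free2.three {x : Fin 2 → G} (h : Free2 x) {l : Wd} (hr : IsReduced l) (h0 : l ≠ [])
    (h1 : ev x l = 1) : 3 ≤ l.length := by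
  match l, hr, h0, h1 with
  | [a], _, _, h1 => exact absurd (by simpa using h1) (h.lt_ne a)
  | [(i, b), (j, c)], hr, _, h1 =>
    have h2 := (isReduced_cons_cons.1 hr).1
    have h3 := h.s0
    have h4 := h.s1
    have h5 := h.ne
    have h6 := h.ni
    have h7 : x 1 * x 0 ≠ 1 := fun e => h6 (mul_eq_one_comm.1 e)
    have h8 := h5.symm
    exfalso
    simp only [ev_cons, ev_nil, mul_one] at h1
    fin_cases i <;> fin_cases j <;> cases b <;> cases c <;>
      simp only [lt_true, lt_false, mul_inv_eq_one, inv_mul_eq_one, ← mul_inv_rev, inv_eq_one,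
        Fin.zero_eta, Fin.mk_one, Fin.isValue, forall_const, reduceCtorEq] at h1 h2 <;>
      contradiction
  | _ :: _ :: _ :: _, _, _, _ => simp

lemma adj_lt {x : Fin 2 → G} (h : Free2 x) (u : G) (a : Fin 2 × Bool) :
    (SimpleGraph.mulCayley (Set.range x)).Adj u (u * lt x a) := by
  rw [SimpleGraph.mulCayley_adj]
  refine ⟨by simpa using h.lt_ne a, ?_⟩
  obtain ⟨i, b⟩ := a
  cases b <;> simp

lemma exists_walk {x : Fin 2 → G} (h : Free2 x) (l : Wd) (u v : G) (e : u * ev x l = v) :
    ∃ p : (SimpleGraph.mulCayley (Set.range x)).Walk u v, p.length = l.length ∧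
      ∀ i, i ≤ l.length → p.getVert i = u * ev x (l.take i) := by
  induction l generalizing u with
  | nil =>
    obtain rfl : u = v := by simpa using e
    exact ⟨.nil, rfl, by simp⟩
  | cons a l ih =>
    obtain ⟨p, h1, h2⟩ := ih (u * lt x a) (by rw [← e, ev_cons, mul_assoc])
    refine ⟨.cons (adj_lt h u a) p, by simp [h1], fun i hi => ?_⟩
    cases i with
    | zero => simp
    | succ i =>
      rw [SimpleGraph.Walk.getVert_cons_succ, h2 i (by simpa using hi), List.take_succ_cons,
        ev_cons, mul_assoc]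

/-- a nonempty reduced relation bounds the girth -/
lemma egirth_le {x : Fin 2 → G} (h : Free2 x) (l : Wd) (hr : IsReduced l) (h0 : l ≠ [])
    (h1 : ev x l = 1) : (SimpleGraph.mulCayley (Set.range x)).egirth ≤ l.length := by
  induction hn : l.length using Nat.strong_induction_on generalizing l with
  | _ n ih =>
  by_cases hs : ∃ m : Wd, IsReduced m ∧ m ≠ [] ∧ ev x m = 1 ∧ m.length < n
  · obtain ⟨m, a1, a2, a3, a4⟩ := hs
    exact (ih _ a4 m a1 a2 a3 rfl).trans (by exact_mod_cast a4.le)
  obtain ⟨p, p1, p2⟩ := exists_walk h l 1 1 (by rw [h1, one_mul])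
  have h3 := h.three hr h0 h1
  rw [← hn, ← p1]
  refine SimpleGraph.egirth_le_length
    (SimpleGraph.Walk.isCycle_iff_isPath_tail_and_le_length.2 ⟨?_, by omega⟩)
  have hnil : ¬ p.Nil := by rw [← SimpleGraph.Walk.length_eq_zero_iff]; omega
  have hlen := SimpleGraph.Walk.length_tail_add_one hnil
  have key : ∀ i j, i < j → j + 1 ≤ l.length → p.getVert (i + 1) ≠ p.getVert (j + 1) := by
    intro i j hij hj e
    rw [p2 _ (by omega), p2 _ hj, one_mul, one_mul] at e
    refine hs ⟨(l.take (j + 1)).drop (i + 1),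
      (List.IsChain.take hr _).drop _, ?_, ?_, ?_⟩
    · rw [← List.length_pos_iff, List.length_drop, List.length_take]
      omega
    · have e2 := ev_append x ((l.take (j + 1)).take (i + 1)) ((l.take (j + 1)).drop (i + 1))
      rw [List.take_append_drop, List.take_take, min_eq_left (by omega), e] at e2
      exact left_eq_mul.1 e2
    · rw [List.length_drop, List.length_take]
      omega
  rw [← SimpleGraph.Walk.IsPath.getVert_injOn_iff]
  intro i hi j hj e
  simp only [Set.mem_ofPred_eq] at hi hj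
  rw [SimpleGraph.Walk.getVert_tail, SimpleGraph.Walk.getVert_tail] at e
  rcases lt_trichotomy i j with h4 | h4 | h4
  · exact absurd e (key i j h4 (by omega))
  · exact h4
  · exact absurd e.symm (key j i h4 (by omega))

end Pool.Agent.P.MP_de9ecd_al.RS
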